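import Mathlib
import Pool.Agent.H70.HY.Defs

/-!
Havet-Yu conjecture for `0.498 Δ ≤ p ≤ 0.9 Δ`: definitions.

* `GS` : general schedules (fractional allocation of the edges between classes to label blocks).
* `GReal` : a graph realises a general schedule.
* `Geo2` : the geometry of the labels.
-/

set_option autoImplicit false

namespace Pool.Agent.H28.HZ

open Finset Pool.Agent.H70.HY

/-- Number of side patterns: every block is cut in that many sub-blocks. -/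
noncomputable def n2 (A B : Type) [Fintype A] [DecidableEq A] [Fintype B] [DecidableEq B] : ℕ :=
  Fintype.card ((A ⊕ B) → Bool)

/-- General schedules. `A` tight classes, `B` slack classes, `J` blocks, `I` boundary zones.
`y c c' (some j)` is the fraction of the edges between the classes `c ≠ c'` allocated to the block
`j`, `y c c' none` the fraction allocated to the star block; the boundary zone `zi a` of a tight
class `a` gets the fraction `yz a` of the edges between `a` and the slack class `unit a`. -/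
structure GS (n : ℕ) (δ : ℝ) (A B J I : Type) [Fintype A] [DecidableEq A] [Fintype B]
    [DecidableEq B] [Fintype J] where
  /-- mass: approximate number of neighbours in the class -/
  M : A ⊕ B → ℝ
  /-- number of labels of the blocks -/
  len : J → ℕ
  l : J → ℕ
  /-- length of the boundary zones -/
  z : ℕ
  /-- number of labels of the star block -/
  star : ℕ
  /-- the tight class `a` must see all labels of the block `j` -/
  el : A → J → Prop
  zi : A → I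
  unit : A → B
  y : A ⊕ B → A ⊕ B → Option J → ℝ
  yz : A → ℝ
  /-- handled pairs of slack classes -/
  hd : B → B → Prop
  /-- slack class used to fill up the degrees of the tight class `a` in the block `j` -/
  fill : A → J → B
  /-- where the surplus edges between `a` and `fill a j` of the block `j` go -/
  dmp : A → J → Option J
  /-- where the surplus edges between `a` and `unit` of the zone go -/
  hub : A → J
  len_eq : ∀ j, len j = n2 A B * l j
  M_ge : ∀ c, δ * n ≤ M c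
  M_sum : ∑ c, M c = n
  hd_symm : ∀ b b', hd b b' → hd b' b
  hd_irrefl : ∀ b, ¬ hd b b
  y_nonneg : ∀ c c' t, 0 ≤ y c c' t
  y_symm : ∀ c c' t, y c c' t = y c' c t
  y_self : ∀ c t, y c c t = 0
  y_sum_AA : ∀ a a', a ≠ a' → ∑ t, y (Sum.inl a) (Sum.inl a') t = 1
  y_sum_AB : ∀ a b, ∑ t, y (Sum.inl a) (Sum.inr b) t + (if b = unit a then yz a else 0) = 1
  y_sum_BB : ∀ b b', hd b b' → ∑ t, y (Sum.inr b) (Sum.inr b') t = 1
  y_not_hd : ∀ b b' t, ¬ hd b b' → y (Sum.inr b) (Sum.inr b') t = 0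
  y_el : ∀ a c j, 0 < y (Sum.inl a) c (some j) → el a j
  tight : ∀ a j, el a j → ∑ c, M c * y (Sum.inl a) c (some j) = len j
  tightz : ∀ a, M (Sum.inr (unit a)) * yz a = z
  total : ∀ a, (∑ j ∈ (Set.toFinite {j | el a j}).toFinset, len j) + z + star = n + 1
  load : ∀ b j, ∑ c, M c * y (Sum.inr b) c (some j) ≤ len j - δ * n
  loadz : ∀ b i, ∑ a, (open Classical in if zi a = i ∧ unit a = b then M (Sum.inl a) * yz a else 0) ≤
    z - δ * n
  loadT : ∀ b, ∑ c, M c * y (Sum.inr b) c none ≤ star - δ * n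
  fill_ge : ∀ a j, el a j → δ ≤ y (Sum.inl a) (Sum.inr (fill a j)) (some j)
  dmp_ge : ∀ a j, el a j → δ ≤ y (Sum.inl a) (Sum.inr (fill a j)) (dmp a j)
  dmp_el : ∀ a j j', el a j → dmp a j = some j' → el a j' ∧ dmp a j' = none
  yz_ge : ∀ a, δ ≤ yz a
  hub_el : ∀ a, el a (hub a) ∧ dmp a (hub a) = none
  hub_ge : ∀ a, δ ≤ y (Sum.inl a) (Sum.inr (unit a)) (some (hub a))

/-- Admissible kinds of the edges between two classes. -/
def GS.Ok {n : ℕ} {δ : ℝ} {A B J I : Type} [Fintype A] [DecidableEq A] [Fintype B]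
    [DecidableEq B] [Fintype J] (S : GS n δ A B J I) (c c' : A ⊕ B) : Kd I J → Prop
  | Kd.blk j => 0 < S.y c c' (some j)
  | Kd.star => 0 < S.y c c' none ∨ ∃ a, c = Sum.inl a ∧ c' = Sum.inl a
  | Kd.zone i => ∃ a, S.zi a = i ∧ ((c = Sum.inl a ∧ c' = Sum.inr (S.unit a)) ∨
      (c' = Sum.inl a ∧ c = Sum.inr (S.unit a)))
  | Kd.out => ∃ b b', c = Sum.inr b ∧ c' = Sum.inr b' ∧ ¬ S.hd b b'

/-- Number of labels of a kind. -/
def GS.size {n : ℕ} {δ : ℝ} {A B J I : Type} [Fintype A] [DecidableEq A] [Fintype B]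
    [DecidableEq B] [Fintype J] (S : GS n δ A B J I) : Kd I J → ℕ
  | Kd.blk j => S.len j
  | Kd.zone _ => S.z
  | Kd.star => S.star
  | Kd.out => 0

/-- The edges of `G` realise the schedule `S`, with class sizes up to `η n`. -/
def GReal {n : ℕ} {δ : ℝ} {A B J I : Type} [Fintype A] [DecidableEq A] [Fintype B]
    [DecidableEq B] [Fintype J] (S : GS n δ A B J I) (η : ℝ) {V : Type} (G : SimpleGraph V)
    (cls : V → A ⊕ B) (kd : V → V → Kd I J) (col : V → V → ℕ) : Prop :=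
  (∀ v c, |(nb G v (fun u => cls u = c) : ℝ) - S.M c| ≤ η * n) ∧
  (∀ u v, G.Adj u v → kd u v = kd v u ∧ col u v = col v u) ∧
  (∀ u v, G.Adj u v → S.Ok (cls u) (cls v) (kd u v)) ∧
  (∀ u v, G.Adj u v → kd u v ≠ Kd.out → col u v < S.size (kd u v)) ∧
  (∀ v u u', G.Adj v u → G.Adj v u' → u ≠ u' → kd v u = kd v u' → kd v u ≠ Kd.out →
    col v u ≠ col v u')

/-- Tight classes: group `i`, sub-class `ρ`. -/
abbrev AT (K R : ℕ) : Type := Fin (K - 1) × Fin R
/-- Slack classes: `L j` (`Sum.inl j`) and the four `H` classes (`Sum.inr`); the classes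
`Sum.inr 0`, `Sum.inr 1` serve the zones of the even / odd groups. -/
abbrev BT (nL : ℕ) : Type := Fin nL ⊕ Fin 4
/-- Blocks: `A k`, `D k`, `C l`, `E`. -/
abbrev JT (K nC : ℕ) : Type := (Fin K ⊕ Fin K) ⊕ (Fin nC ⊕ Unit)

/-- Block `A k`: labels `[kW, (k+1)W)`. -/
abbrev jA {K nC : ℕ} (k : Fin K) : JT K nC := Sum.inl (Sum.inl k)
/-- Block `D k`: labels `2p + [kW, (k+1)W)`. -/
abbrev jD {K nC : ℕ} (k : Fin K) : JT K nC := Sum.inl (Sum.inr k)
/-- Block `C l`: labels `p + [lW, (l+1)W)`. -/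
abbrev jC {K nC : ℕ} (l : Fin nC) : JT K nC := Sum.inr (Sum.inl l)
/-- Block `E`: labels `[2p+KW+star, n+2p)`. -/
abbrev jE {K nC : ℕ} : JT K nC := Sum.inr (Sum.inr ())

/-- Geometry. Star block: labels `2p+KW+[0,star)`. Vertices of the group `i`: labels
`p+iW+[0,W)`; of `L j`: `jW+[0,W)`; of the `H` class `b`: `n+2p-1-c` with `off b ≤ c < off b + wid b`.
Edges inside an `L` class: labels `p+nL W+[0,2W)`; edges between `H` vertices: labels `p+[0,oW)`. -/
structure Geo2 {n : ℕ} {δ : ℝ} {K R nL nC : ℕ}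
    (S : GS n δ (AT K R) (BT nL) (JT K nC) (Fin (K - 1))) (p : ℕ) (η : ℝ) where
  W : ℕ
  o : ℕ
  off : Fin 4 → ℕ
  wid : Fin 4 → ℕ
  W_pos : 0 < W
  K_two : 2 ≤ K
  zi_eq : ∀ a, S.zi a = a.1
  unit_eq : ∀ a, S.unit a = Sum.inr (if (a.1 : ℕ) % 2 = 0 then 0 else 1)
  z_eq : S.z = W + 1
  len_A : ∀ k, S.len (jA k) = W
  len_D : ∀ k, S.len (jD k) = W
  len_C : ∀ l, S.len (jC l) = W
  tot : K * W + S.star + S.len jE = n
  KW_le : K * W ≤ p
  CW_le : nC * W ≤ p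
  p_le : p ≤ n
  nL_le : nL + 2 ≤ nC
  o_le : o ≤ nL
  hd_LL : ∀ j j', S.hd (Sum.inl j) (Sum.inl j') ↔ j ≠ j'
  hd_LH : ∀ j b, S.hd (Sum.inl j) (Sum.inr b)
  hd_HH : ∀ b b', ¬ S.hd (Sum.inr b) (Sum.inr b')
  el_A : ∀ a k, S.el a (jA k) → (k : ℕ) < a.1
  el_D : ∀ a k, S.el a (jD k) → (a.1 : ℕ) < k
  el_C : ∀ a l, ¬ S.el a (jC l)
  use_LA : ∀ j c k, S.y (Sum.inr (Sum.inl j)) c (some (jA k)) = 0
  use_LC : ∀ j c l, 0 < S.y (Sum.inr (Sum.inl j)) c (some (jC l)) →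
    (j : ℕ) < l ∧ (l : ℕ) ≠ nL ∧ (l : ℕ) ≠ nL + 1
  use_UA0 : ∀ c k, 0 < S.y (Sum.inr (Sum.inr 0)) c (some (jA k)) → (k : ℕ) % 2 = 1
  use_UA1 : ∀ c k, 0 < S.y (Sum.inr (Sum.inr 1)) c (some (jA k)) → (k : ℕ) % 2 = 0
  use_UD0 : ∀ c k, 0 < S.y (Sum.inr (Sum.inr 0)) c (some (jD k)) → (k : ℕ) % 2 = 1 ∨ (k : ℕ) = K - 1
  use_UD1 : ∀ c k, 0 < S.y (Sum.inr (Sum.inr 1)) c (some (jD k)) → (k : ℕ) % 2 = 0 ∨ (k : ℕ) = K - 1
  use_HD : ∀ b c k, 0 < S.y (Sum.inr (Sum.inr b)) c (some (jD k)) →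
    ((k : ℕ) + 1) * W + off b + wid b ≤ n - p
  use_HC : ∀ b c l, 0 < S.y (Sum.inr (Sum.inr b)) c (some (jC l)) → o ≤ (l : ℕ)
  use_HE : ∀ b c, S.y (Sum.inr (Sum.inr b)) c (some jE) = 0
  use_HT : ∀ b c, S.y (Sum.inr (Sum.inr b)) c none = 0
  H_fit : ∀ b, off b + wid b ≤ n - p
  H_fit0 : K * W + off 1 + wid 1 ≤ n - p
  off_0 : off 0 = 0
  off_1 : off 1 = wid 0
  off_2 : off 2 = wid 0 + wid 1
  off_3 : off 3 = wid 0 + wid 1 + wid 2
  size_M : ∀ i : Fin (K - 1), ∑ ρ, (S.M (Sum.inl (i, ρ)) + η * n) + 1 ≤ W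
  size_L : ∀ j, S.M (Sum.inr (Sum.inl j)) + η * n + 1 ≤ W
  size_H : ∀ b, S.M (Sum.inr (Sum.inr b)) + η * n + 1 ≤ wid b
  size_HH : ∑ b, (S.M (Sum.inr (Sum.inr b)) + η * n) + 1 ≤ (o * W : ℕ)
  top : p + K * W + off 3 + wid 3 ≤ n + 2 * p

end Pool.Agent.H28.HZ
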