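import Mathlib
import Pool.Agent.H28.HZ.Defs
import Pool.Agent.H28.VAL
import Pool.Agent.H28.Scheme

/-! ASM2: the labelling from a realised general schedule and its geometry. -/

set_option autoImplicit false
set_option linter.unusedSectionVars false

namespace Pool.Agent.H28.HZ

open Finset Pool.Agent.H70.HY

/-- greedy colouring of a vertex set -/
theorem asm2_greedy {V : Type} [Fintype V] (G : SimpleGraph V) (Q : V → Prop) (D : ℕ)
    (hD : ∀ v, {u | G.Adj v u ∧ Q u}.ncard < D) :
    ∃ c : V → ℕ, (∀ v, c v < D) ∧ ∀ u v, G.Adj u v → Q u → Q v → c u ≠ c v := by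
  obtain ⟨c, hc, hc'⟩ := H28.greedy (fun u v => G.Adj u v ∧ Q u ∧ Q v)
    (fun u v ⟨h1, h2, h3⟩ => ⟨h1.symm, h3, h2⟩) D (by
      intro a
      refine lt_of_le_of_lt (Set.ncard_le_ncard ?_ (Set.toFinite _)) (hD a)
      rintro u ⟨h1, _, h3⟩
      exact ⟨h1, h3⟩)
  exact ⟨c, hc, fun u v huv h1 h2 => hc' u v huv.ne ⟨huv, h1, h2⟩⟩

/-- Vizing colouring of a part of the edges -/
theorem asm2_vizing {V : Type} [Fintype V] (G : SimpleGraph V) (Q : V → V → Prop)
    (hQ : ∀ u v, Q u v → Q v u) (D : ℕ) (hD : ∀ v, {u | G.Adj v u ∧ Q v u}.ncard < D) :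
    ∃ e : Sym2 V → ℕ, (∀ u v, G.Adj u v → Q u v → e s(u, v) < D) ∧
      ∀ v u u', G.Adj v u → G.Adj v u' → u ≠ u' → Q v u → Q v u' → e s(v, u) ≠ e s(v, u') := by
  let H : SimpleGraph V :=
    { Adj := fun u v => G.Adj u v ∧ Q u v
      symm := ⟨fun u v ⟨h1, h2⟩ => ⟨h1.symm, hQ u v h2⟩⟩
      loopless := ⟨fun u ⟨h1, _⟩ => G.loopless.irrefl u h1⟩ }
  have hdeg : ∀ v, (H.neighborSet v).ncard ≤ D - 1 := by
    intro v
    have h1 := hD v
    have h2 : (H.neighborSet v) = {u | G.Adj v u ∧ Q v u} := by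
      ext u; rfl
    rw [h2]
    omega
  obtain ⟨e, he1, he2⟩ := H28.vizing hdeg
  refine ⟨e, ?_, ?_⟩
  · intro u v huv h1
    have h5 := he1 u v ⟨huv, h1⟩
    have h6 := hD v
    omega
  · intro v u u' h1 h2 h3 h4 h5
    exact he2 v u u' ⟨h1, h4⟩ ⟨h2, h5⟩ h3

theorem asm2_mul (W : ℕ) {i j : ℕ} (h : i < j) : i * W + W ≤ j * W := by
  have := Nat.mul_le_mul_right W (Nat.succ_le_of_lt h)
  rw [Nat.succ_eq_add_one, add_mul, one_mul] at this
  exact this

section ASM2

variable {n : ℕ} {δ η : ℝ} {K R nL nC p : ℕ}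
  {S : GS n δ (AT K R) (BT nL) (JT K nC) (Fin (K - 1))} {V : Type} [Fintype V] [DecidableEq V]
  {G : SimpleGraph V} {cls : V → AT K R ⊕ BT nL}
  {kd : V → V → Kd (Fin (K - 1)) (JT K nC)} {col : V → V → ℕ}

/-- number of neighbours in a family of classes -/
theorem asm2_nb {ι : Type} [Fintype ι] (h : GReal S η G cls kd col) (v : V)
    (f : ι → AT K R ⊕ BT nL) :
    (({u | G.Adj v u ∧ ∃ x, cls u = f x}.ncard : ℕ) : ℝ) ≤ ∑ x, (S.M (f x) + η * n) := by
  have h1 : {u | G.Adj v u ∧ ∃ x, cls u = f x} = ⋃ x : ι, {u | G.Adj v u ∧ cls u = f x} := by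
    ext u
    simp only [Set.mem_ofPred_eq, Set.mem_iUnion]
    constructor
    · rintro ⟨h1, b, hb⟩; exact ⟨b, h1, hb⟩
    · rintro ⟨b, h1, hb⟩; exact ⟨h1, b, hb⟩
  rw [h1]
  have h2 : ((⋃ x : ι, {u | G.Adj v u ∧ cls u = f x}).ncard : ℝ) ≤
      ∑ x : ι, (({u | G.Adj v u ∧ cls u = f x}.ncard : ℕ) : ℝ) := by
    exact_mod_cast Set.ncard_iUnion_le_of_fintype _
  refine h2.trans (Finset.sum_le_sum fun b _ => ?_)
  have h3 := (abs_le.mp (h.1 v (f b))).2
  unfold nb at h3
  linarith

theorem asm2_nb_lt {ι : Type} [Fintype ι] (h : GReal S η G cls kd col)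
    (f : ι → AT K R ⊕ BT nL) (D : ℕ) (hD : ∑ x, (S.M (f x) + η * n) + 1 ≤ (D : ℝ)) (v : V) :
    {u | G.Adj v u ∧ ∃ x, cls u = f x}.ncard < D := by
  have h1 := asm2_nb h v f
  have h3 : (({u | G.Adj v u ∧ ∃ x, cls u = f x}.ncard : ℕ) : ℝ) + 1 ≤ (D : ℝ) := by linarith
  exact_mod_cast h3

theorem asm2_nb_lt' (h : GReal S η G cls kd col)
    (c : AT K R ⊕ BT nL) (D : ℕ) (hD : S.M c + η * n + 1 ≤ (D : ℝ)) (v : V) :
    {u | G.Adj v u ∧ cls u = c}.ncard < D := by
  have h1 := asm2_nb_lt h (fun _ : Unit => c) D (by simpa using hD) v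
  have h2 : {u | G.Adj v u ∧ cls u = c} = {u | G.Adj v u ∧ ∃ _ : Unit, cls u = c} := by
    ext u; simp
  rw [h2]; exact h1

/-- the label of an edge -/
def asm2E (S : GS n δ (AT K R) (BT nL) (JT K nC) (Fin (K - 1))) (W p : ℕ) (c1 : V → ℕ)
    (eL eH : Sym2 V → ℕ) (cls : V → AT K R ⊕ BT nL) (kd : V → V → Kd (Fin (K - 1)) (JT K nC))
    (col : V → V → ℕ) (u v : V) : ℕ :=
  match kd u v with
  | Kd.blk (Sum.inl (Sum.inl k)) => (k : ℕ) * W + col u v
  | Kd.blk (Sum.inl (Sum.inr k)) => 2 * p + (k : ℕ) * W + col u v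
  | Kd.blk (Sum.inr (Sum.inl l)) => p + (l : ℕ) * W + col u v
  | Kd.blk (Sum.inr (Sum.inr _)) => 2 * p + K * W + S.star + col u v
  | Kd.star => 2 * p + K * W + col u v
  | Kd.zone i => if col u v ≤ Sum.elim (fun _ => c1 u) (fun _ => c1 v) (cls u) then
      (i : ℕ) * W + col u v else (i : ℕ) * W + col u v + (2 * p - 1)
  | Kd.out => Sum.elim (fun _ => 0)
      (Sum.elim (fun _ => p + nL * W + eL s(u, v)) (fun _ => p + eH s(u, v))) (cls u)

/-- the label of an edge seen from a tight vertex -/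
theorem asm2_T (geo : Geo2 S p η) (c1 : V → ℕ) (eL eH : Sym2 V → ℕ)
    (h : GReal S η G cls kd col) (v u : V) (hvu : G.Adj v u) (a : AT K R)
    (hv : cls v = Sum.inl a) (y : ℕ) (hy : y = asm2E S geo.W p c1 eL eH cls kd col v u) :
    (kd v u = Kd.star ∧ y = 2 * p + K * geo.W + col v u ∧ col v u < S.star) ∨
    (∃ k : Fin K, kd v u = Kd.blk (jA k) ∧ (k : ℕ) < a.1 ∧ y = (k : ℕ) * geo.W + col v u ∧
      col v u < geo.W) ∨
    (∃ k : Fin K, kd v u = Kd.blk (jD k) ∧ (a.1 : ℕ) < k ∧
      y = 2 * p + (k : ℕ) * geo.W + col v u ∧ col v u < geo.W) ∨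
    (kd v u = Kd.blk jE ∧ y = 2 * p + K * geo.W + S.star + col v u ∧ col v u < S.len jE) ∨
    (kd v u = Kd.zone a.1 ∧ col v u < geo.W + 1 ∧
      y = if col v u ≤ c1 v then (a.1 : ℕ) * geo.W + col v u
        else (a.1 : ℕ) * geo.W + col v u + (2 * p - 1)) := by
  obtain ⟨_, _, hok, hsz, _⟩ := h
  have hok := hok v u hvu
  have hsz := hsz v u hvu
  subst hy
  rcases hk : kd v u with ((k | k) | (l | x)) | i | _ | _ <;> rw [hk] at hok hsz <;>
    unfold asm2E <;> rw [hk]
  · -- A
    right; left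
    have h1 : 0 < S.y (cls v) (cls u) (some (jA k)) := hok
    rw [hv] at h1
    have h2 := geo.el_A a k (S.y_el _ _ _ h1)
    have h3 := hsz (by simp)
    simp only [GS.size] at h3
    rw [geo.len_A] at h3
    exact ⟨k, rfl, h2, rfl, h3⟩
  · -- D
    right; right; left
    have h1 : 0 < S.y (cls v) (cls u) (some (jD k)) := hok
    rw [hv] at h1
    have h2 := geo.el_D a k (S.y_el _ _ _ h1)
    have h3 := hsz (by simp)
    simp only [GS.size] at h3
    rw [geo.len_D] at h3
    exact ⟨k, rfl, h2, rfl, h3⟩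
  · -- C
    exfalso
    have h1 : 0 < S.y (cls v) (cls u) (some (jC l)) := hok
    rw [hv] at h1
    exact geo.el_C a l (S.y_el _ _ _ h1)
  · -- E
    right; right; right; left
    have h3 := hsz (by simp)
    simp only [GS.size] at h3
    exact ⟨rfl, rfl, h3⟩
  · -- zone
    right; right; right; right
    obtain ⟨a', h1, ⟨h2, h3⟩ | ⟨h2, h3⟩⟩ := hok
    · rw [hv] at h2
      have h4 : a = a' := Sum.inl.inj h2
      subst h4
      rw [geo.zi_eq] at h1
      subst h1
      have h5 := hsz (by simp)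
      simp only [GS.size] at h5
      rw [geo.z_eq] at h5
      refine ⟨rfl, h5, ?_⟩
      simp only [hv, Sum.elim_inl]
    · rw [hv] at h3; cases h3
  · -- star
    left
    have h3 := hsz (by simp)
    simp only [GS.size] at h3
    exact ⟨rfl, rfl, h3⟩
  · -- out
    exfalso
    obtain ⟨b, b', h1, _⟩ := hok
    rw [hv] at h1; cases h1

/-- the label of an edge seen from a vertex of a class `L j` -/
theorem asm2_L (geo : Geo2 S p η) (c1 : V → ℕ) (eL eH : Sym2 V → ℕ)
    (h : GReal S η G cls kd col) (v u : V) (hvu : G.Adj v u) (j : Fin nL)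
    (hv : cls v = Sum.inr (Sum.inl j)) (y : ℕ)
    (hy : y = asm2E S geo.W p c1 eL eH cls kd col v u) :
    (kd v u = Kd.star ∧ y = 2 * p + K * geo.W + col v u ∧ col v u < S.star) ∨
    (∃ k : Fin K, kd v u = Kd.blk (jD k) ∧ y = 2 * p + (k : ℕ) * geo.W + col v u ∧
      col v u < geo.W) ∨
    (∃ l : Fin nC, kd v u = Kd.blk (jC l) ∧ (j : ℕ) < l ∧ (l : ℕ) ≠ nL ∧ (l : ℕ) ≠ nL + 1 ∧
      y = p + (l : ℕ) * geo.W + col v u ∧ col v u < geo.W) ∨
    (kd v u = Kd.blk jE ∧ y = 2 * p + K * geo.W + S.star + col v u ∧ col v u < S.len jE) ∨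
    (kd v u = Kd.out ∧ cls u = Sum.inr (Sum.inl j) ∧ y = p + nL * geo.W + eL s(v, u)) := by
  obtain ⟨_, _, hok, hsz, _⟩ := h
  have hok := hok v u hvu
  have hsz := hsz v u hvu
  subst hy
  rcases hk : kd v u with ((k | k) | (l | x)) | i | _ | _ <;> rw [hk] at hok hsz <;>
    unfold asm2E <;> rw [hk]
  · -- A
    exfalso
    have h1 : 0 < S.y (cls v) (cls u) (some (jA k)) := hok
    rw [hv, geo.use_LA] at h1
    exact lt_irrefl _ h1
  · -- D
    right; left
    have h3 := hsz (by simp)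
    simp only [GS.size] at h3
    rw [geo.len_D] at h3
    exact ⟨k, rfl, rfl, h3⟩
  · -- C
    right; right; left
    have h1 : 0 < S.y (cls v) (cls u) (some (jC l)) := hok
    rw [hv] at h1
    obtain ⟨h4, h5, h6⟩ := geo.use_LC _ _ _ h1
    have h3 := hsz (by simp)
    simp only [GS.size] at h3
    rw [geo.len_C] at h3
    exact ⟨l, rfl, h4, h5, h6, rfl, h3⟩
  · -- E
    right; right; right; left
    have h3 := hsz (by simp)
    simp only [GS.size] at h3
    exact ⟨rfl, rfl, h3⟩
  · -- zone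
    exfalso
    obtain ⟨a', h1, ⟨h2, h3⟩ | ⟨h2, h3⟩⟩ := hok
    · rw [hv] at h2; cases h2
    · rw [hv, geo.unit_eq] at h3
      have := Sum.inr.inj h3
      cases this
  · -- star
    left
    have h3 := hsz (by simp)
    simp only [GS.size] at h3
    exact ⟨rfl, rfl, h3⟩
  · -- out
    right; right; right; right
    obtain ⟨b, b', h1, h2, h3⟩ := hok
    rw [hv] at h1
    have h4 : Sum.inl j = b := Sum.inr.inj h1
    subst h4
    rcases b' with j' | b'
    · rw [geo.hd_LL] at h3
      push Not at h3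
      subst h3
      refine ⟨rfl, h2, ?_⟩
      simp only [hv, Sum.elim_inl, Sum.elim_inr]
    · exact absurd (geo.hd_LH j b') h3

theorem asm2_unit (geo : Geo2 S p η) (a : AT K R) (b : Fin 4) (h : S.unit a = Sum.inr b) :
    (b = 0 ∧ (a.1 : ℕ) % 2 = 0) ∨ (b = 1 ∧ (a.1 : ℕ) % 2 = 1) := by
  rw [geo.unit_eq] at h
  have h1 := Sum.inr.inj h
  split_ifs at h1 with h2
  · left; exact ⟨h1.symm, h2⟩
  · right; exact ⟨h1.symm, by omega⟩

theorem asm2_unitA (geo : Geo2 S p η) (b : Fin 4) (c : AT K R ⊕ BT nL) (k : Fin K)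
    (h : 0 < S.y (Sum.inr (Sum.inr b)) c (some (jA k))) (a : AT K R)
    (ha : S.unit a = Sum.inr b) : (k : ℕ) ≠ a.1 := by
  rcases asm2_unit geo a b ha with ⟨h1, h2⟩ | ⟨h1, h2⟩ <;> subst h1
  · have := geo.use_UA0 c k h
    omega
  · have := geo.use_UA1 c k h
    omega

theorem asm2_unitD (geo : Geo2 S p η) (b : Fin 4) (c : AT K R ⊕ BT nL) (k : Fin K)
    (h : 0 < S.y (Sum.inr (Sum.inr b)) c (some (jD k))) (a : AT K R)
    (ha : S.unit a = Sum.inr b) : (k : ℕ) ≠ a.1 := by
  have h3 := a.1.2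
  rcases asm2_unit geo a b ha with ⟨h1, h2⟩ | ⟨h1, h2⟩ <;> subst h1
  · have := geo.use_UD0 c k h
    omega
  · have := geo.use_UD1 c k h
    omega

theorem asm2_fit (geo : Geo2 S p η) (b : Fin 4) (a : AT K R) (ha : S.unit a = Sum.inr b) :
    K * geo.W + geo.off b + geo.wid b ≤ n - p := by
  have h0 := geo.H_fit0
  have h2 := geo.off_0
  have h3 := geo.off_1
  rcases asm2_unit geo a b ha with ⟨h1, _⟩ | ⟨h1, _⟩ <;> subst h1 <;> omega

theorem asm2_off (geo : Geo2 S p η) (b b' : Fin 4) (h : b < b') :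
    geo.off b + geo.wid b ≤ geo.off b' := by
  have h0 := geo.off_0
  have h1 := geo.off_1
  have h2 := geo.off_2
  have h3 := geo.off_3
  fin_cases b <;> fin_cases b' <;> first | (exfalso; revert h; decide) | skip
  all_goals simp only [Fin.mk_zero, Fin.mk_one, Fin.reduceFinMk] at *
  all_goals omega

theorem asm2_top (geo : Geo2 S p η) (b : Fin 4) :
    p + K * geo.W + geo.off b + geo.wid b ≤ n + 2 * p := by
  have h1 := geo.top
  by_cases hb : b = 3
  · subst hb; exact h1
  · have h2 := asm2_off geo b 3 (by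
      have h4 := b.2
      have h5 : (b : ℕ) ≠ 3 := fun h => hb (Fin.ext h)
      rw [Fin.lt_def]
      change (b : ℕ) < 3
      omega)
    omega

/-- the label of an edge seen from a vertex of a class `H b` -/
theorem asm2_H (geo : Geo2 S p η) (c1 : V → ℕ) (eL eH : Sym2 V → ℕ)
    (h : GReal S η G cls kd col) (v u : V) (hvu : G.Adj v u) (b : Fin 4)
    (hv : cls v = Sum.inr (Sum.inr b)) (y : ℕ)
    (hy : y = asm2E S geo.W p c1 eL eH cls kd col v u) :
    (∃ k : Fin K, kd v u = Kd.blk (jA k) ∧ (∀ a, S.unit a = Sum.inr b → (k : ℕ) ≠ a.1) ∧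
      y = (k : ℕ) * geo.W + col v u ∧ col v u < geo.W) ∨
    (∃ k : Fin K, kd v u = Kd.blk (jD k) ∧ ((k : ℕ) + 1) * geo.W + geo.off b + geo.wid b ≤ n - p ∧
      (∀ a, S.unit a = Sum.inr b → (k : ℕ) ≠ a.1) ∧
      y = 2 * p + (k : ℕ) * geo.W + col v u ∧ col v u < geo.W) ∨
    (∃ l : Fin nC, kd v u = Kd.blk (jC l) ∧ geo.o ≤ (l : ℕ) ∧
      y = p + (l : ℕ) * geo.W + col v u ∧ col v u < geo.W) ∨
    (∃ a, kd v u = Kd.zone a.1 ∧ cls u = Sum.inl a ∧ S.unit a = Sum.inr b ∧
      col v u < geo.W + 1 ∧ y = if col v u ≤ c1 u then (a.1 : ℕ) * geo.W + col v u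
        else (a.1 : ℕ) * geo.W + col v u + (2 * p - 1)) ∨
    (kd v u = Kd.out ∧ (∃ b', cls u = Sum.inr (Sum.inr b')) ∧ y = p + eH s(v, u)) := by
  obtain ⟨_, _, hok, hsz, _⟩ := h
  have hok := hok v u hvu
  have hsz := hsz v u hvu
  subst hy
  rcases hk : kd v u with ((k | k) | (l | x)) | i | _ | _ <;> rw [hk] at hok hsz <;>
    unfold asm2E <;> rw [hk]
  · -- A
    left
    have h1 : 0 < S.y (cls v) (cls u) (some (jA k)) := hok
    rw [hv] at h1
    have h3 := hsz (by simp)
    simp only [GS.size] at h3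
    rw [geo.len_A] at h3
    exact ⟨k, rfl, fun a => asm2_unitA geo b _ k h1 a, rfl, h3⟩
  · -- D
    right; left
    have h1 : 0 < S.y (cls v) (cls u) (some (jD k)) := hok
    rw [hv] at h1
    have h3 := hsz (by simp)
    simp only [GS.size] at h3
    rw [geo.len_D] at h3
    exact ⟨k, rfl, geo.use_HD _ _ _ h1, fun a => asm2_unitD geo b _ k h1 a, rfl, h3⟩
  · -- C
    right; right; left
    have h1 : 0 < S.y (cls v) (cls u) (some (jC l)) := hok
    rw [hv] at h1
    have h3 := hsz (by simp)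
    simp only [GS.size] at h3
    rw [geo.len_C] at h3
    exact ⟨l, rfl, geo.use_HC _ _ _ h1, rfl, h3⟩
  · -- E
    exfalso
    have h1 : 0 < S.y (cls v) (cls u) (some jE) := hok
    rw [hv, geo.use_HE] at h1
    exact lt_irrefl _ h1
  · -- zone
    right; right; right; left
    obtain ⟨a', h1, ⟨h2, h3⟩ | ⟨h2, h3⟩⟩ := hok
    · rw [hv] at h2; cases h2
    · rw [hv] at h3
      have h4 := Sum.inr.inj h3
      rw [geo.zi_eq] at h1
      subst h1
      have h5 := hsz (by simp)
      simp only [GS.size] at h5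
      rw [geo.z_eq] at h5
      refine ⟨a', rfl, h2, h4.symm, h5, ?_⟩
      simp only [hv, Sum.elim_inr]
  · -- star
    exfalso
    rcases hok with h1 | ⟨a, h1, _⟩
    · rw [hv, geo.use_HT] at h1
      exact lt_irrefl _ h1
    · rw [hv] at h1; cases h1
  · -- out
    right; right; right; right
    obtain ⟨b1, b', h1, h2, h3⟩ := hok
    rw [hv] at h1
    have h4 : Sum.inr b = b1 := Sum.inr.inj h1
    subst h4
    rcases b' with j' | b'
    · exact absurd (S.hd_symm _ _ (geo.hd_LH j' b)) h3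
    · refine ⟨rfl, ⟨b', h2⟩, ?_⟩
      simp only [hv, Sum.elim_inr]

theorem asm2_symm (geo : Geo2 S p η) (c1 : V → ℕ) (eL eH : Sym2 V → ℕ)
    (h : GReal S η G cls kd col) (v u : V) (hvu : G.Adj v u) :
    asm2E S geo.W p c1 eL eH cls kd col v u = asm2E S geo.W p c1 eL eH cls kd col u v := by
  obtain ⟨_, hsym, hok, _, _⟩ := h
  have hok := hok v u hvu
  obtain ⟨hk1, hc1⟩ := hsym v u hvu
  unfold asm2E
  rw [← hk1, ← hc1]
  rcases hk : kd v u with ((k | k) | (l | x)) | i | _ | _ <;> rw [hk] at hok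
  · obtain ⟨a', h1, ⟨h2, h3⟩ | ⟨h2, h3⟩⟩ := hok
    · simp only [h2, h3, Sum.elim_inl, Sum.elim_inr]
    · simp only [h2, h3, Sum.elim_inl, Sum.elim_inr]
  · obtain ⟨b, b', h1, h2, h3⟩ := hok
    rcases b with j | b <;> rcases b' with j' | b'
    · simp only [h1, h2, Sum.elim_inl, Sum.elim_inr]
      rw [Sym2.eq_swap]
    · exact absurd (geo.hd_LH j b') h3
    · exact absurd (S.hd_symm _ _ (geo.hd_LH j' b)) h3
    · simp only [h1, h2, Sum.elim_inr]
      rw [Sym2.eq_swap]

/-- range of the label of an edge at a zone -/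
theorem asm2_zone {W p i c t y : ℕ} (hc : c < W) (ht : t < W + 1)
    (hy : y = if t ≤ c then i * W + t else i * W + t + (2 * p - 1)) (hp : 0 < p) :
    (i * W ≤ y ∧ y < i * W + W) ∨ (2 * p + i * W ≤ y ∧ y < 2 * p + i * W + W) := by
  split_ifs at hy
  · left; omega
  · right; omega

/-- properness at a tight vertex -/
theorem asm2_proper_T (geo : Geo2 S p η) (c1 : V → ℕ) (eL eH : Sym2 V → ℕ)
    (h : GReal S η G cls kd col) (v u u' : V) (hvu : G.Adj v u) (hvu' : G.Adj v u') (hne : u ≠ u')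
    (a : AT K R) (hv : cls v = Sum.inl a) (hc1 : c1 v < geo.W) :
    asm2E S geo.W p c1 eL eH cls kd col v u ≠ asm2E S geo.W p c1 eL eH cls kd col v u' := by
  have hcol := h.2.2.2.2 v u u' hvu hvu' hne
  have hW := geo.W_pos
  have hKp := geo.KW_le
  have hp : 0 < p := by
    have := asm2_mul geo.W (show 0 < K by have := geo.K_two; omega)
    omega
  have haK := asm2_mul geo.W (show (a.1 : ℕ) < K by have := a.1.2; omega)
  rcases asm2_T geo c1 eL eH h v u hvu a hv _ rfl with ⟨a1, a2, a3⟩ | ⟨k, a1, a2, a3, a4⟩ |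
      ⟨k, a1, a2, a3, a4⟩ | ⟨a1, a2, a3⟩ | ⟨a1, a2, a3⟩ <;>
    rcases asm2_T geo c1 eL eH h v u' hvu' a hv _ rfl with ⟨b1, b2, b3⟩ | ⟨k', b1, b2, b3, b4⟩ |
      ⟨k', b1, b2, b3, b4⟩ | ⟨b1, b2, b3⟩ | ⟨b1, b2, b3⟩
  · -- star star
    have := hcol (by rw [a1, b1]) (by rw [a1]; simp)
    omega
  · have := asm2_mul geo.W b2
    omega
  · have := asm2_mul geo.W k'.2
    omega
  · omega
  · have := asm2_zone hc1 b2 b3 hp
    omega
  -- A
  · have := asm2_mul geo.W a2
    omega
  · rcases lt_trichotomy (k : ℕ) (k' : ℕ) with hj | hj | hj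
    · have := asm2_mul geo.W hj
      omega
    · have hjj : k = k' := Fin.ext hj
      subst hjj
      have := hcol (by rw [a1, b1]) (by rw [a1]; simp)
      omega
    · have := asm2_mul geo.W hj
      omega
  · have := asm2_mul geo.W a2
    omega
  · have := asm2_mul geo.W a2
    omega
  · have := asm2_zone hc1 b2 b3 hp
    have := asm2_mul geo.W a2
    omega
  -- D
  · have := asm2_mul geo.W k.2
    omega
  · have := asm2_mul geo.W b2
    omega
  · rcases lt_trichotomy (k : ℕ) (k' : ℕ) with hj | hj | hj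
    · have := asm2_mul geo.W hj
      omega
    · have hjj : k = k' := Fin.ext hj
      subst hjj
      have := hcol (by rw [a1, b1]) (by rw [a1]; simp)
      omega
    · have := asm2_mul geo.W hj
      omega
  · have := asm2_mul geo.W k.2
    omega
  · have := asm2_zone hc1 b2 b3 hp
    have := asm2_mul geo.W a2
    omega
  -- E
  · omega
  · have := asm2_mul geo.W b2
    omega
  · have := asm2_mul geo.W k'.2
    omega
  · have := hcol (by rw [a1, b1]) (by rw [a1]; simp)
    omega
  · have := asm2_zone hc1 b2 b3 hp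
    omega
  -- zone
  · have := asm2_zone hc1 a2 a3 hp
    omega
  · have := asm2_zone hc1 a2 a3 hp
    have := asm2_mul geo.W b2
    omega
  · have := asm2_zone hc1 a2 a3 hp
    have := asm2_mul geo.W b2
    omega
  · have := asm2_zone hc1 a2 a3 hp
    omega
  · have := hcol (by rw [a1, b1]) (by rw [a1]; simp)
    rw [a3, b3]
    split_ifs <;> omega

/-- properness at a vertex of `L j` -/
theorem asm2_proper_L (geo : Geo2 S p η) (c1 : V → ℕ) (eL eH : Sym2 V → ℕ)
    (h : GReal S η G cls kd col) (v u u' : V) (hvu : G.Adj v u) (hvu' : G.Adj v u') (hne : u ≠ u')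
    (j : Fin nL) (hv : cls v = Sum.inr (Sum.inl j))
    (heL : ∀ w, G.Adj v w → cls w = Sum.inr (Sum.inl j) → eL s(v, w) < geo.W)
    (heL' : cls u = Sum.inr (Sum.inl j) → cls u' = Sum.inr (Sum.inl j) →
      eL s(v, u) ≠ eL s(v, u')) :
    asm2E S geo.W p c1 eL eH cls kd col v u ≠ asm2E S geo.W p c1 eL eH cls kd col v u' := by
  have hcol := h.2.2.2.2 v u u' hvu hvu' hne
  have hW := geo.W_pos
  have hKp := geo.KW_le
  have hCp := geo.CW_le
  have hL2 : nL * geo.W + 2 * geo.W ≤ nC * geo.W := by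
    rw [← add_mul]; exact Nat.mul_le_mul_right _ geo.nL_le
  rcases asm2_L geo c1 eL eH h v u hvu j hv _ rfl with ⟨a1, a2, a3⟩ | ⟨k, a1, a2, a3⟩ |
      ⟨l, a1, a2, a3, a4, a5, a6⟩ | ⟨a1, a2, a3⟩ | ⟨a1, a2, a3⟩ <;>
    rcases asm2_L geo c1 eL eH h v u' hvu' j hv _ rfl with ⟨b1, b2, b3⟩ | ⟨k', b1, b2, b3⟩ |
      ⟨l', b1, b2, b3, b4, b5, b6⟩ | ⟨b1, b2, b3⟩ | ⟨b1, b2, b3⟩
  · -- star star
    have := hcol (by rw [a1, b1]) (by rw [a1]; simp)
    omega
  · have := asm2_mul geo.W k'.2
    omega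
  · have := asm2_mul geo.W l'.2
    omega
  · omega
  · have := heL u' hvu' b2
    omega
  -- D
  · have := asm2_mul geo.W k.2
    omega
  · rcases lt_trichotomy (k : ℕ) (k' : ℕ) with hj | hj | hj
    · have := asm2_mul geo.W hj
      omega
    · have hjj : k = k' := Fin.ext hj
      subst hjj
      have := hcol (by rw [a1, b1]) (by rw [a1]; simp)
      omega
    · have := asm2_mul geo.W hj
      omega
  · have := asm2_mul geo.W l'.2
    omega
  · have := asm2_mul geo.W k.2
    omega
  · have := heL u' hvu' b2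
    omega
  -- C
  · have := asm2_mul geo.W l.2
    omega
  · have := asm2_mul geo.W l.2
    omega
  · rcases lt_trichotomy (l : ℕ) (l' : ℕ) with hj | hj | hj
    · have := asm2_mul geo.W hj
      omega
    · have hjj : l = l' := Fin.ext hj
      subst hjj
      have := hcol (by rw [a1, b1]) (by rw [a1]; simp)
      omega
    · have := asm2_mul geo.W hj
      omega
  · have := asm2_mul geo.W l.2
    omega
  · have := heL u' hvu' b2
    rcases lt_or_ge (l : ℕ) nL with hl | hl
    · have := asm2_mul geo.W hl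
      omega
    · have := Nat.mul_le_mul_right geo.W (show nL + 2 ≤ (l : ℕ) by omega)
      rw [add_mul] at this
      omega
  -- E
  · omega
  · have := asm2_mul geo.W k'.2
    omega
  · have := asm2_mul geo.W l'.2
    omega
  · have := hcol (by rw [a1, b1]) (by rw [a1]; simp)
    omega
  · have := heL u' hvu' b2
    omega
  -- out
  · have := heL u hvu a2
    omega
  · have := heL u hvu a2
    omega
  · have := heL u hvu a2
    rcases lt_or_ge (l' : ℕ) nL with hl | hl
    · have := asm2_mul geo.W hl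
      omega
    · have := Nat.mul_le_mul_right geo.W (show nL + 2 ≤ (l' : ℕ) by omega)
      rw [add_mul] at this
      omega
  · have := heL u hvu a2
    omega
  · have := heL' a2 b2
    omega

/-- properness at a vertex of `H b` -/
theorem asm2_proper_H (geo : Geo2 S p η) (c1 : V → ℕ) (eL eH : Sym2 V → ℕ)
    (h : GReal S η G cls kd col) (v u u' : V) (hvu : G.Adj v u) (hvu' : G.Adj v u') (hne : u ≠ u')
    (b : Fin 4) (hv : cls v = Sum.inr (Sum.inr b)) (hc1 : ∀ w a, cls w = Sum.inl a → c1 w < geo.W)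
    (heH : ∀ w b', G.Adj v w → cls w = Sum.inr (Sum.inr b') → eH s(v, w) < geo.o * geo.W)
    (heH' : ∀ b' b'', cls u = Sum.inr (Sum.inr b') → cls u' = Sum.inr (Sum.inr b'') →
      eH s(v, u) ≠ eH s(v, u')) :
    asm2E S geo.W p c1 eL eH cls kd col v u ≠ asm2E S geo.W p c1 eL eH cls kd col v u' := by
  have hcol := h.2.2.2.2 v u u' hvu hvu' hne
  have hW := geo.W_pos
  have hKp := geo.KW_le
  have hCp := geo.CW_le
  have hL2 : nL * geo.W + 2 * geo.W ≤ nC * geo.W := by
    rw [← add_mul]; exact Nat.mul_le_mul_right _ geo.nL_le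
  have hoL : geo.o * geo.W ≤ nL * geo.W := Nat.mul_le_mul_right _ geo.o_le
  have hp : 0 < p := by
    have := asm2_mul geo.W (show 0 < K by have := geo.K_two; omega)
    omega
  have haK : ∀ a : AT K R, (a.1 : ℕ) * geo.W + geo.W ≤ K * geo.W := fun a =>
    asm2_mul geo.W (show (a.1 : ℕ) < K by have := a.1.2; omega)
  have key : ∀ (k : Fin K) (c z : ℕ) (a : AT K R), c < geo.W → (k : ℕ) ≠ a.1 →
      ((a.1 : ℕ) * geo.W ≤ z ∧ z < a.1 * geo.W + geo.W) ∨
        (2 * p + a.1 * geo.W ≤ z ∧ z < 2 * p + a.1 * geo.W + geo.W) →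
      2 * p + (k : ℕ) * geo.W + c ≠ z := by
    intro k c z a hc hka hz
    have h1 := haK a
    rcases lt_or_gt_of_ne hka with hj | hj
    · have := asm2_mul geo.W hj
      omega
    · have := asm2_mul geo.W hj
      omega
  have keyA : ∀ (k : Fin K) (c z : ℕ) (a : AT K R), c < geo.W → (k : ℕ) ≠ a.1 →
      ((a.1 : ℕ) * geo.W ≤ z ∧ z < a.1 * geo.W + geo.W) ∨
        (2 * p + a.1 * geo.W ≤ z ∧ z < 2 * p + a.1 * geo.W + geo.W) →
      (k : ℕ) * geo.W + c ≠ z := by
    intro k c z a hc hka hz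
    have h1 := haK a
    have h2 := asm2_mul geo.W k.2
    rcases lt_or_gt_of_ne hka with hj | hj
    · have := asm2_mul geo.W hj
      omega
    · have := asm2_mul geo.W hj
      omega
  rcases asm2_H geo c1 eL eH h v u hvu b hv _ rfl with ⟨k, a1, a2, a3, a4⟩ |
      ⟨k, a1, a2, a3, a4, a5⟩ | ⟨l, a1, a2, a3, a4⟩ | ⟨a, a1, a2, a3, a4, a5⟩ |
      ⟨a1, ⟨b', a2⟩, a3⟩ <;>
    rcases asm2_H geo c1 eL eH h v u' hvu' b hv _ rfl with ⟨k', b1, b2, b3, b4⟩ |
      ⟨k', b1, b2, b3, b4, b5⟩ | ⟨l', b1, b2, b3, b4⟩ | ⟨a', b1, b2, b3, b4, b5⟩ |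
      ⟨b1, ⟨b'', b2⟩, b3⟩
  -- A
  · rcases lt_trichotomy (k : ℕ) (k' : ℕ) with hj | hj | hj
    · have := asm2_mul geo.W hj
      omega
    · have hjj : k = k' := Fin.ext hj
      subst hjj
      have := hcol (by rw [a1, b1]) (by rw [a1]; simp)
      omega
    · have := asm2_mul geo.W hj
      omega
  · have := asm2_mul geo.W k.2
    omega
  · have := asm2_mul geo.W k.2
    omega
  · rw [a3]
    exact keyA k _ _ a' a4 (a2 a' b3) (asm2_zone (hc1 u' a' b2) b4 b5 hp)
  · have := asm2_mul geo.W k.2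
    omega
  -- D
  · have := asm2_mul geo.W k'.2
    omega
  · rcases lt_trichotomy (k : ℕ) (k' : ℕ) with hj | hj | hj
    · have := asm2_mul geo.W hj
      omega
    · have hjj : k = k' := Fin.ext hj
      subst hjj
      have := hcol (by rw [a1, b1]) (by rw [a1]; simp)
      omega
    · have := asm2_mul geo.W hj
      omega
  · have := asm2_mul geo.W l'.2
    omega
  · rw [a4]
    exact key k _ _ a' a5 (a3 a' b3) (asm2_zone (hc1 u' a' b2) b4 b5 hp)
  · have := heH u' b'' hvu' b2
    omega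
  -- C
  · have := asm2_mul geo.W k'.2
    omega
  · have := asm2_mul geo.W l.2
    omega
  · rcases lt_trichotomy (l : ℕ) (l' : ℕ) with hj | hj | hj
    · have := asm2_mul geo.W hj
      omega
    · have hjj : l = l' := Fin.ext hj
      subst hjj
      have := hcol (by rw [a1, b1]) (by rw [a1]; simp)
      omega
    · have := asm2_mul geo.W hj
      omega
  · have := asm2_zone (hc1 u' a' b2) b4 b5 hp
    have := haK a'
    have := asm2_mul geo.W l.2
    omega
  · have := heH u' b'' hvu' b2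
    have := Nat.mul_le_mul_right geo.W a2
    omega
  -- zone
  · rw [b3]
    exact (keyA k' _ _ a b4 (b2 a a3) (asm2_zone (hc1 u a a2) a4 a5 hp)).symm
  · rw [b4]
    exact (key k' _ _ a b5 (b3 a a3) (asm2_zone (hc1 u a a2) a4 a5 hp)).symm
  · have := asm2_zone (hc1 u a a2) a4 a5 hp
    have := haK a
    have := asm2_mul geo.W l'.2
    omega
  · rcases lt_trichotomy (a.1 : ℕ) (a'.1 : ℕ) with hj | hj | hj
    · have := asm2_zone (hc1 u a a2) a4 a5 hp
      have := asm2_zone (hc1 u' a' b2) b4 b5 hp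
      have := asm2_mul geo.W hj
      have := haK a
      have := haK a'
      omega
    · have hjj : a.1 = a'.1 := Fin.ext hj
      have := hcol (by rw [a1, b1, hjj]) (by rw [a1]; simp)
      have h1 := haK a
      have h2 := asm2_mul geo.W (show 1 < K by have := geo.K_two; omega)
      rw [hjj] at a5
      rw [a5, b5]
      split_ifs <;> omega
    · have := asm2_zone (hc1 u a a2) a4 a5 hp
      have := asm2_zone (hc1 u' a' b2) b4 b5 hp
      have := asm2_mul geo.W hj
      have := haK a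
      have := haK a'
      omega
  · have := asm2_zone (hc1 u a a2) a4 a5 hp
    have := haK a
    have := heH u' b'' hvu' b2
    omega
  -- out
  · have := heH u b' hvu a2
    have := asm2_mul geo.W k'.2
    omega
  · have := heH u b' hvu a2
    omega
  · have := heH u b' hvu a2
    have := Nat.mul_le_mul_right geo.W b2
    omega
  · have := asm2_zone (hc1 u' a' b2) b4 b5 hp
    have := haK a'
    have := heH u b' hvu a2
    omega
  · have := heH' b' b'' a2 b2
    omega

/-- ASM2: a realised schedule with its geometry gives the labelling. -/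
theorem asm2 {n : ℕ} {δ η : ℝ} {K R nL nC p : ℕ}
    (S : GS n δ (AT K R) (BT nL) (JT K nC) (Fin (K - 1))) (geo : Geo2 S p η) {V : Type} [Fintype V]
    [DecidableEq V] (G : SimpleGraph V) (cls : V → AT K R ⊕ BT nL)
    (kd : V → V → Kd (Fin (K - 1)) (JT K nC)) (col : V → V → ℕ) (hη : 0 ≤ η)
    (h : GReal S η G cls kd col) : HYLab G n p := by
  classical
  have hW := geo.W_pos
  have hKp := geo.KW_le
  have hCp := geo.CW_le
  have hpn := geo.p_le
  have htot := geo.tot
  have hL2 : nL * geo.W + 2 * geo.W ≤ nC * geo.W := by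
    rw [← add_mul]; exact Nat.mul_le_mul_right _ geo.nL_le
  have hoL : geo.o * geo.W ≤ nL * geo.W := Nat.mul_le_mul_right _ geo.o_le
  have hp : 0 < p := by
    have := asm2_mul geo.W (show 0 < K by have := geo.K_two; omega)
    omega
  have haK : ∀ a : AT K R, (a.1 : ℕ) * geo.W + geo.W ≤ K * geo.W := fun a =>
    asm2_mul geo.W (show (a.1 : ℕ) < K by have := a.1.2; omega)
  -- vertex colourings
  have hcT : ∀ i : Fin (K - 1), ∃ c : V → ℕ, (∀ v, c v < geo.W) ∧ ∀ u v, G.Adj u v →
      (∃ ρ : Fin R, cls u = Sum.inl (i, ρ)) → (∃ ρ : Fin R, cls v = Sum.inl (i, ρ)) →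
      c u ≠ c v := fun i => asm2_greedy G _ geo.W
    (asm2_nb_lt h (fun ρ : Fin R => Sum.inl (i, ρ)) geo.W (geo.size_M i))
  have hcL : ∀ j : Fin nL, ∃ c : V → ℕ, (∀ v, c v < geo.W) ∧ ∀ u v, G.Adj u v →
      cls u = Sum.inr (Sum.inl j) → cls v = Sum.inr (Sum.inl j) →
      c u ≠ c v := fun j => asm2_greedy G _ geo.W (asm2_nb_lt' h _ geo.W (geo.size_L j))
  have hcH : ∀ b : Fin 4, ∃ c : V → ℕ, (∀ v, c v < geo.wid b) ∧ ∀ u v, G.Adj u v →
      cls u = Sum.inr (Sum.inr b) → cls v = Sum.inr (Sum.inr b) →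
      c u ≠ c v := fun b => asm2_greedy G _ (geo.wid b) (asm2_nb_lt' h _ _ (geo.size_H b))
  choose cT hcT1 hcT2 using hcT
  choose cL hcL1 hcL2 using hcL
  choose cH hcH1 hcH2 using hcH
  let c1 : V → ℕ := fun v => Sum.elim (fun a : AT K R => cT a.1 v) (fun _ => 0) (cls v)
  have hc1 : ∀ v a, cls v = Sum.inl a → c1 v = cT a.1 v := by
    intro v a hv
    change Sum.elim _ _ (cls v) = _
    rw [hv]; rfl
  have hc1' : ∀ v a, cls v = Sum.inl a → c1 v < geo.W := by
    intro v a hv
    rw [hc1 v a hv]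
    exact hcT1 _ _
  -- edge colourings
  obtain ⟨eL, heL, heL'⟩ := asm2_vizing G
    (fun u v => ∃ j : Fin nL, cls u = Sum.inr (Sum.inl j) ∧ cls v = Sum.inr (Sum.inl j))
    (fun u v ⟨j, h1, h2⟩ => ⟨j, h2, h1⟩) geo.W (by
      intro v
      by_cases hv : ∃ j : Fin nL, cls v = Sum.inr (Sum.inl j)
      · obtain ⟨j, hv⟩ := hv
        refine lt_of_le_of_lt (Set.ncard_le_ncard ?_ (Set.toFinite _))
          (asm2_nb_lt' h (Sum.inr (Sum.inl j)) geo.W (geo.size_L j) v)
        rintro u ⟨h1, j', h2, h3⟩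
        rw [hv] at h2
        have h4 : j = j' := Sum.inl.inj (Sum.inr.inj h2)
        subst h4
        exact ⟨h1, h3⟩
      · have h1 : {u | G.Adj v u ∧ ∃ j : Fin nL, cls v = Sum.inr (Sum.inl j) ∧
            cls u = Sum.inr (Sum.inl j)} = ∅ := by
          rw [Set.eq_empty_iff_forall_notMem]
          rintro u ⟨_, j, h2, _⟩
          exact hv ⟨j, h2⟩
        rw [h1, Set.ncard_empty]
        exact hW)
  obtain ⟨eH, heH, heH'⟩ := asm2_vizing G
    (fun u v => (∃ b : Fin 4, cls u = Sum.inr (Sum.inr b)) ∧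
      ∃ b : Fin 4, cls v = Sum.inr (Sum.inr b))
    (fun u v ⟨h1, h2⟩ => ⟨h2, h1⟩) (geo.o * geo.W) (by
      intro v
      refine lt_of_le_of_lt (Set.ncard_le_ncard ?_ (Set.toFinite _))
        (asm2_nb_lt h (fun b : Fin 4 => Sum.inr (Sum.inr b)) (geo.o * geo.W) geo.size_HH v)
      rintro u ⟨h1, _, h3⟩
      exact ⟨h1, h3⟩)
  let E := asm2E S geo.W p c1 eL eH cls kd col
  let fV : V → ℕ := fun v => Sum.elim (fun a : AT K R => p + (a.1 : ℕ) * geo.W + cT a.1 v)
    (Sum.elim (fun j : Fin nL => (j : ℕ) * geo.W + cL j v)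
      (fun b : Fin 4 => n + 2 * p - 1 - (geo.off b + cH b v))) (cls v)
  let fE : Sym2 V → ℕ := Sym2.lift ⟨fun u v => if G.Adj u v then E u v else 0, by
    intro u v
    change (if G.Adj u v then E u v else 0) = (if G.Adj v u then E v u else 0)
    by_cases huv : G.Adj u v
    · rw [if_pos huv, if_pos huv.symm]
      exact asm2_symm geo c1 eL eH h u v huv
    · rw [if_neg huv, if_neg (fun hh => huv hh.symm)]⟩
  have hfE : ∀ u v, G.Adj u v → fE s(u, v) = E u v := by
    intro u v huv
    change (if G.Adj u v then E u v else 0) = E u v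
    rw [if_pos huv]
  have fVT : ∀ v a, cls v = Sum.inl a → fV v = p + (a.1 : ℕ) * geo.W + cT a.1 v := by
    intro v i hv
    change Sum.elim _ _ (cls v) = _
    rw [hv]; rfl
  have fVL : ∀ v j, cls v = Sum.inr (Sum.inl j) → fV v = (j : ℕ) * geo.W + cL j v := by
    intro v i hv
    change Sum.elim _ _ (cls v) = _
    rw [hv]; rfl
  have fVH : ∀ v b, cls v = Sum.inr (Sum.inr b) →
      fV v = n + 2 * p - 1 - (geo.off b + cH b v) := by
    intro v i hv
    change Sum.elim _ _ (cls v) = _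
    rw [hv]; rfl
  -- range of the labels of the edges
  have hrange : ∀ v u, G.Adj v u → E v u < n + 2 * p := by
    intro v u hvu
    rcases hv : cls v with a | j | b
    · rcases asm2_T geo c1 eL eH h v u hvu a hv _ rfl with ⟨a1, a2, a3⟩ | ⟨k, a1, a2, a3, a4⟩ |
        ⟨k, a1, a2, a3, a4⟩ | ⟨a1, a2, a3⟩ | ⟨a1, a2, a3⟩
      · change E v u = _ at a2; omega
      · change E v u = _ at a3
        have := asm2_mul geo.W k.2
        omega
      · change E v u = _ at a3
        have := asm2_mul geo.W k.2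
        omega
      · change E v u = _ at a2; omega
      · have h1 := asm2_zone (hc1' v a hv) a2 a3 hp
        change (_ ≤ E v u ∧ E v u < _) ∨ (_ ≤ E v u ∧ E v u < _) at h1
        have := haK a
        omega
    · rcases asm2_L geo c1 eL eH h v u hvu j hv _ rfl with ⟨a1, a2, a3⟩ | ⟨k, a1, a2, a3⟩ |
        ⟨l, a1, a2, a3, a4, a5, a6⟩ | ⟨a1, a2, a3⟩ | ⟨a1, a2, a3⟩
      · change E v u = _ at a2; omega
      · change E v u = _ at a2
        have := asm2_mul geo.W k.2
        omega
      · change E v u = _ at a5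
        have := asm2_mul geo.W l.2
        omega
      · change E v u = _ at a2; omega
      · change E v u = _ at a3
        have := heL v u hvu ⟨j, hv, a2⟩
        omega
    · rcases asm2_H geo c1 eL eH h v u hvu b hv _ rfl with ⟨k, a1, a2, a3, a4⟩ |
        ⟨k, a1, a2, a3, a4, a5⟩ | ⟨l, a1, a2, a3, a4⟩ | ⟨a, a1, a2, a3, a4, a5⟩ |
        ⟨a1, ⟨b', a2⟩, a3⟩
      · change E v u = _ at a3
        have := asm2_mul geo.W k.2
        omega
      · change E v u = _ at a4
        have := asm2_mul geo.W k.2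
        omega
      · change E v u = _ at a3
        have := asm2_mul geo.W l.2
        omega
      · have h1 := asm2_zone (hc1' u a a2) a4 a5 hp
        change (_ ≤ E v u ∧ E v u < _) ∨ (_ ≤ E v u ∧ E v u < _) at h1
        have := haK a
        omega
      · change E v u = _ at a3
        have := heH v u hvu ⟨⟨b, hv⟩, ⟨b', a2⟩⟩
        omega
  -- vertex labels
  have hTr : ∀ v a, cls v = Sum.inl a → p + (a.1 : ℕ) * geo.W ≤ fV v ∧
      fV v < p + a.1 * geo.W + geo.W := by
    intro v a hv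
    rw [fVT v a hv]
    have := hcT1 a.1 v
    omega
  have hLr : ∀ v j, cls v = Sum.inr (Sum.inl j) → (j : ℕ) * geo.W ≤ fV v ∧
      fV v < j * geo.W + geo.W := by
    intro v j hv
    rw [fVL v j hv]
    have := hcL1 j v
    omega
  have hHr : ∀ v b, cls v = Sum.inr (Sum.inr b) → fV v + (geo.off b + 1) ≤ n + 2 * p ∧
      n + 2 * p ≤ fV v + (geo.off b + geo.wid b) := by
    intro v b hv
    rw [fVH v b hv]
    have h1 := hcH1 b v
    have h2 := geo.H_fit b
    omega
  refine ⟨fV, fE, ?_, ?_, ?_, ?_, ?_⟩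
  · intro v
    rcases hv : cls v with a | j | b
    · have h1 := hTr v a hv
      have := haK a
      omega
    · have h1 := hLr v j hv
      have := asm2_mul geo.W j.2
      omega
    · have h1 := hHr v b hv
      omega
  · intro e he
    induction e using Sym2.ind with
    | _ u v =>
      have huv : G.Adj u v := he
      rw [hfE u v huv]
      have := hrange u v huv
      omega
  · -- vertices
    have hTL : ∀ u v a j, cls u = Sum.inl a → cls v = Sum.inr (Sum.inl j) → fV v < fV u := by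
      intro u v a j hu hv
      have h1 := hTr u a hu
      have h2 := hLr v j hv
      have := asm2_mul geo.W j.2
      omega
    have hTH : ∀ u v a b, cls u = Sum.inl a → cls v = Sum.inr (Sum.inr b) → fV u < fV v := by
      intro u v a b hu hv
      have h1 := hTr u a hu
      have h2 := hHr v b hv
      have h3 := haK a
      have h4 := asm2_top geo b
      omega
    have hLH : ∀ u v j b, cls u = Sum.inr (Sum.inl j) → cls v = Sum.inr (Sum.inr b) →
        fV u < fV v := by
      intro u v j b hu hv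
      have h1 := hLr u j hu
      have h2 := hHr v b hv
      have h3 := geo.H_fit b
      have := asm2_mul geo.W j.2
      omega
    intro u v huv
    rcases hu : cls u with a | j | b <;> rcases hv : cls v with a' | j' | b'
    · rcases lt_trichotomy (a.1 : ℕ) (a'.1 : ℕ) with hj | hj | hj
      · have := asm2_mul geo.W hj
        have h1 := hTr u a hu
        have h2 := hTr v a' hv
        omega
      · have hjj : a.1 = a'.1 := Fin.ext hj
        rw [fVT u a hu, fVT v a' hv, hjj]
        have h1 := hcT2 a'.1 u v huv ⟨a.2, by rw [hu, ← hjj]⟩ ⟨a'.2, hv⟩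
        omega
      · have := asm2_mul geo.W hj
        have h1 := hTr u a hu
        have h2 := hTr v a' hv
        omega
    · exact (hTL u v a j' hu hv).ne'
    · exact (hTH u v a b' hu hv).ne
    · exact (hTL v u a' j hv hu).ne
    · rcases lt_trichotomy (j : ℕ) (j' : ℕ) with hj | hj | hj
      · have := asm2_mul geo.W hj
        have h1 := hLr u j hu
        have h2 := hLr v j' hv
        omega
      · have hjj : j = j' := Fin.ext hj
        subst hjj
        rw [fVL u j hu, fVL v j hv]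
        have h1 := hcL2 j u v huv hu hv
        omega
      · have := asm2_mul geo.W hj
        have h1 := hLr u j hu
        have h2 := hLr v j' hv
        omega
    · exact (hLH u v j b' hu hv).ne
    · exact (hTH v u a' b hv hu).ne'
    · exact (hLH v u j' b hv hu).ne'
    · rcases lt_trichotomy b b' with hj | hj | hj
      · have := asm2_off geo b b' hj
        have h1 := hHr u b hu
        have h2 := hHr v b' hv
        omega
      · subst hj
        rw [fVH u b hu, fVH v b hv]
        have h1 := hcH2 b u v huv hu hv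
        have h2 := hcH1 b u
        have h3 := hcH1 b v
        have h4 := geo.H_fit b
        omega
      · have := asm2_off geo b' b hj
        have h1 := hHr u b hu
        have h2 := hHr v b' hv
        omega
  · -- distances
    intro u v huv
    rw [hfE u v huv]
    have hmain : fV u + p ≤ E u v ∨ E u v + p ≤ fV u := by
      rcases hu : cls u with a | j | b
      · have hfu := hTr u a hu
        rcases asm2_T geo c1 eL eH h u v huv a hu _ rfl with ⟨a1, a2, a3⟩ |
          ⟨k, a1, a2, a3, a4⟩ | ⟨k, a1, a2, a3, a4⟩ | ⟨a1, a2, a3⟩ | ⟨a1, a2, a3⟩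
        · change E u v = _ at a2
          have := haK a
          omega
        · change E u v = _ at a3
          have := asm2_mul geo.W a2
          omega
        · change E u v = _ at a3
          have := asm2_mul geo.W a2
          omega
        · change E u v = _ at a2
          have := haK a
          omega
        · change E u v = _ at a3
          rw [fVT u a hu]
          rw [hc1 u a hu] at a3
          split_ifs at a3
          · right; omega
          · left; omega
      · have hfu := hLr u j hu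
        left
        have hjL := asm2_mul geo.W j.2
        rcases asm2_L geo c1 eL eH h u v huv j hu _ rfl with ⟨a1, a2, a3⟩ | ⟨k, a1, a2, a3⟩ |
          ⟨l, a1, a2, a3, a4, a5, a6⟩ | ⟨a1, a2, a3⟩ | ⟨a1, a2, a3⟩
        · change E u v = _ at a2; omega
        · change E u v = _ at a2; omega
        · change E u v = _ at a5
          have := asm2_mul geo.W a2
          omega
        · change E u v = _ at a2; omega
        · change E u v = _ at a3
          omega
      · have hfu := hHr u b hu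
        right
        have hHf := geo.H_fit b
        rcases asm2_H geo c1 eL eH h u v huv b hu _ rfl with ⟨k, a1, a2, a3, a4⟩ |
          ⟨k, a1, a2, a3, a4, a5⟩ | ⟨l, a1, a2, a3, a4⟩ | ⟨a, a1, a2, a3, a4, a5⟩ |
          ⟨a1, ⟨b', a2⟩, a3⟩
        · change E u v = _ at a3
          have := asm2_mul geo.W k.2
          omega
        · change E u v = _ at a4
          rw [add_mul, one_mul] at a2
          omega
        · change E u v = _ at a3
          have := asm2_mul geo.W l.2
          omega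
        · have h1 := asm2_zone (hc1' v a a2) a4 a5 hp
          change (_ ≤ E u v ∧ E u v < _) ∨ (_ ≤ E u v ∧ E u v < _) at h1
          have h2 := haK a
          have h3 := asm2_fit geo b a a3
          omega
        · change E u v = _ at a3
          have := heH u v huv ⟨⟨b, hu⟩, ⟨b', a2⟩⟩
          omega
    rcases hmain with hm | hm
    · rw [abs_sub_comm]
      refine le_trans ?_ (le_abs_self _)
      omega
    · refine le_trans ?_ (le_abs_self _)
      omega
  · -- edges
    intro v u u' hvu hvu' hne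
    rw [hfE v u hvu, hfE v u' hvu']
    rcases hv : cls v with a | j | b
    · exact asm2_proper_T geo c1 eL eH h v u u' hvu hvu' hne a hv (hc1' v a hv)
    · exact asm2_proper_L geo c1 eL eH h v u u' hvu hvu' hne j hv
        (fun w hw h1 => heL v w hw ⟨j, hv, h1⟩)
        (fun h1 h2 => heL' v u u' hvu hvu' hne ⟨j, hv, h1⟩ ⟨j, hv, h2⟩)
    · exact asm2_proper_H geo c1 eL eH h v u u' hvu hvu' hne b hv hc1'
        (fun w b' hw h1 => heH v w hw ⟨⟨b, hv⟩, ⟨b', h1⟩⟩)
        (fun b' b'' h1 h2 => heH' v u u' hvu hvu' hne ⟨⟨b, hv⟩, ⟨b', h1⟩⟩ ⟨⟨b, hv⟩, ⟨b'', h2⟩⟩)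

end ASM2

end Pool.Agent.H28.HZ
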