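import Mathlib
import Pool.Agent.H28.HZ.Defs

/-!
The explicit schedule. `K = 96 q` positions; tight groups `i < K-1`; the groups `i, j` are paired
in the block `D (i+j+1)` if `i+j+1 < K` and in the block `A (i+j+1-K)` otherwise.
-/

set_option autoImplicit false

namespace Pool.Agent.H28.HZ

open Finset Pool.Agent.H70.HY

/-- The numbers of the schedule. -/
structure PP (q R nL nC : ℕ) where
  n : ℕ
  p : ℕ
  /-- width of the blocks `A, C, D` and of the vertex label ranges -/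
  W : ℕ
  /-- size of the star block -/
  st : ℕ
  /-- size of the block `E` -/
  e1 : ℕ
  /-- mass of a tight group and of an `L` class -/
  m : ℝ
  /-- mass of each of the two classes which serve the zones -/
  hs : ℝ
  ht : ℝ
  hm : ℝ
  φ : ℝ
  bE : ℝ
  bF : ℝ

variable {q R nL nC : ℕ} (P : PP q R nL nC)

namespace PP

/-- Profile. -/
noncomputable def g (_P : PP q R nL nC) (k : ℕ) : ℝ := if 24 * q ≤ k ∧ k < 72 * q then 4 / 3 else 1

/-- Part of the mass between the groups `i, j` which goes to `E` and the star block. -/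
noncomputable def e (i j : ℕ) : ℝ :=
  if i + j + 1 < 94 * q then P.φ * P.g (i + j + 1)
  else if i + j + 1 < 96 * q - 1 then 0
  else if i + j + 1 = 96 * q - 1 then P.m / 2
  else if i + j + 1 - 96 * q < 94 * q - 1 then P.φ * P.g (i + j + 1 - 96 * q)
  else 0

/-- The partner of the group `i` at the position `k ≠ i`. -/
def pt (_P : PP q R nL nC) (i k : ℕ) : ℕ := if i < k then k - i - 1 else k + 96 * q - i - 1

/-- What the group `i` needs from the slack classes at the position `k ≠ i`. -/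
noncomputable def nd (i k : ℕ) : ℝ :=
  P.W - (P.m - P.e i (P.pt i k)) * (if P.pt i k = i then 1 - 1 / (R : ℝ) else 1)

/-- The positions served by the classes `H`. -/
def hc (_P : PP q R nL nC) (i k : ℕ) : Prop := k < i ∨ (i < k ∧ k < 94 * q)

instance (i k : ℕ) : Decidable (P.hc i k) := by unfold hc; infer_instance

/-- Total need of the group `i` from the classes `H` at its `H` positions. -/
noncomputable def T (i : ℕ) : ℝ := ∑ k ∈ range (96 * q), if P.hc i k then P.nd i k else 0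

/-- Total need of the group `i` from the classes `H` at its `H` positions of its own parity. -/
noncomputable def T2 (i : ℕ) : ℝ :=
  ∑ k ∈ range (96 * q), if P.hc i k ∧ k % 2 = i % 2 then P.nd i k else 0

/-- What the group `i` gets from the classes `Sum.inr 2, Sum.inr 3` at the position `k`. -/
noncomputable def rr (i k : ℕ) : ℝ := P.nd i k * (1 - (if k % 2 = i % 2 then P.hs / P.T2 i else 0))

/-- Rest, used in the hub. -/
noncomputable def X (i : ℕ) : ℝ := P.ht + P.hm - (P.T i - P.hs)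

/-- Mass of the tight neighbours of the group `i` which goes to `E` and the star block. -/
noncomputable def eE (i : ℕ) : ℝ := ∑ j ∈ range (96 * q - 1), P.e i j - P.e i i / R

/-- Total mass of `L`. -/
noncomputable def Λ : ℝ := nL * P.m

/-- Size of the block `E` plus the star block. -/
noncomputable def E : ℝ := P.e1 + P.st

/-- Number of the common cells used by the last `L` classes for `H`. -/
noncomputable def nG (_P : PP q R nL nC) : ℝ := ((nC : ℝ) - nL - 2) + 94 * q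

/-- Number of the common cells used by the last `L` classes for the zone classes. -/
noncomputable def nU (_P : PP q R nL nC) : ℝ := ((nC : ℝ) - nL - 2) + 30 * q

/-- Masses. -/
noncomputable def M : AT (96 * q) R ⊕ BT nL → ℝ
  | Sum.inl _ => P.m / R
  | Sum.inr (Sum.inl _) => P.m
  | Sum.inr (Sum.inr b) => if b = 0 ∨ b = 1 then P.hs else if b = 2 then P.ht else P.hm

/-- Weights tight - tight. -/
noncomputable def yMM (a a' : AT (96 * q) R) : Option (JT (96 * q) nC) → ℝ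
  | none => if a = a' then 0 else P.e a.1 a'.1 / P.m * (P.st / P.E)
  | some (Sum.inl (Sum.inl k)) =>
      if a ≠ a' ∧ (a.1 : ℕ) + a'.1 + 1 = k + 96 * q then 1 - P.e a.1 a'.1 / P.m else 0
  | some (Sum.inl (Sum.inr k)) =>
      if a ≠ a' ∧ (a.1 : ℕ) + a'.1 + 1 = k then 1 - P.e a.1 a'.1 / P.m else 0
  | some (Sum.inr (Sum.inl _)) => 0
  | some (Sum.inr (Sum.inr _)) => if a = a' then 0 else P.e a.1 a'.1 / P.m * (P.e1 / P.E)

/-- Weights tight - `L`. -/
noncomputable def yML (i : ℕ) : Option (JT (96 * q) nC) → ℝ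
  | none => (P.st - 1 - P.m / R - P.eE i * (P.st / P.E)) / P.Λ
  | some (Sum.inl (Sum.inl _)) => 0
  | some (Sum.inl (Sum.inr k)) =>
      if (k : ℕ) = 96 * q - 1 then (P.nd i k - (P.hs - (P.W + 1)) - P.X i) / P.Λ
      else if i < (k : ℕ) ∧ 94 * q ≤ (k : ℕ) then P.nd i k / P.Λ else 0
  | some (Sum.inr (Sum.inl _)) => 0
  | some (Sum.inr (Sum.inr _)) => (P.e1 - P.eE i * (P.e1 / P.E)) / P.Λ

/-- The class serving the zone of the group `i`. -/
def un (_P : PP q R nL nC) (i : ℕ) : Fin 4 := if i % 2 = 0 then 0 else 1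

/-- Weight group `i` - class `H` number `b` at an `H` position `k`. -/
noncomputable def wH (i : ℕ) (b : Fin 4) (k : ℕ) : ℝ :=
  if b = 3 then P.rr i k / (P.T i - P.hs)
  else if b = 2 then (P.T i - P.hs - P.hm) / P.ht * (P.rr i k / (P.T i - P.hs))
  else if b ≠ P.un i ∧ k % 2 = i % 2 then P.nd i k / P.T2 i else 0

/-- Weights tight - `H`. -/
noncomputable def yMH (i : ℕ) (b : Fin 4) : Option (JT (96 * q) nC) → ℝ
  | none => 0
  | some (Sum.inl (Sum.inl k)) => if (k : ℕ) < i then P.wH i b k else 0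
  | some (Sum.inl (Sum.inr k)) =>
      if (k : ℕ) = 96 * q - 1 then
        (if b = P.un i then 1 - (P.W + 1) / P.hs else if b = 2 then P.X i / P.ht else 0)
      else if i < (k : ℕ) ∧ (k : ℕ) < 94 * q then P.wH i b k
      else 0
  | some (Sum.inr _) => 0

/-- Weights `L` - `L`. -/
noncomputable def yLL : Option (JT (96 * q) nC) → ℝ
  | none => 0
  | some (Sum.inl (Sum.inl _)) => 0
  | some (Sum.inl (Sum.inr k)) => if (k : ℕ) < 96 * q - 1 then P.bF else 0
  | some (Sum.inr (Sum.inl l)) => if nL + 2 ≤ (l : ℕ) then P.bF else 0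
  | some (Sum.inr (Sum.inr _)) => P.bE

/-- Weights `L` - `H`. -/
noncomputable def yLH (j : ℕ) (b : Fin 4) : Option (JT (96 * q) nC) → ℝ
  | none => 0
  | some (Sum.inl (Sum.inl _)) => 0
  | some (Sum.inl (Sum.inr k)) =>
      if j + 6 * q < nL then 0
      else if b = 0 ∨ b = 1 then (if (k : ℕ) < 60 * q ∧ (k : ℕ) % 2 ≠ b then 1 / P.nU else 0)
      else (if (k : ℕ) < 94 * q then 1 / P.nG else 0)
  | some (Sum.inr (Sum.inl l)) =>
      if j + 6 * q < nL then (if j + 3 * q ≤ (l : ℕ) ∧ (l : ℕ) < j + 6 * q then 1 / (3 * q : ℝ) else 0)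
      else if nL + 2 ≤ (l : ℕ) then (if b = 0 ∨ b = 1 then 1 / P.nU else 1 / P.nG) else 0
  | some (Sum.inr (Sum.inr _)) => 0

/-- All the weights. -/
noncomputable def y :
    AT (96 * q) R ⊕ BT nL → AT (96 * q) R ⊕ BT nL → Option (JT (96 * q) nC) → ℝ
  | Sum.inl a, Sum.inl a', t => P.yMM a a' t
  | Sum.inl a, Sum.inr (Sum.inl _), t => P.yML a.1 t
  | Sum.inl a, Sum.inr (Sum.inr b), t => P.yMH a.1 b t
  | Sum.inr (Sum.inl _), Sum.inl a, t => P.yML a.1 t
  | Sum.inr (Sum.inr b), Sum.inl a, t => P.yMH a.1 b t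
  | Sum.inr (Sum.inl j), Sum.inr (Sum.inl j'), t => if j = j' then 0 else P.yLL t
  | Sum.inr (Sum.inl j), Sum.inr (Sum.inr b), t => P.yLH j b t
  | Sum.inr (Sum.inr b), Sum.inr (Sum.inl j), t => P.yLH j b t
  | Sum.inr (Sum.inr _), Sum.inr (Sum.inr _), _ => 0

/-- Lower bound of `T i`. -/
noncomputable def Tlo : ℝ := P.φ * (110 * q - 4 / 3)

/-- Lower bound of `T2 i`. -/
noncomputable def T2lo : ℝ := P.φ * (55 * q - 4 / 3)

/-- Upper bound of `X i`. -/
noncomputable def Xhi : ℝ := P.hs + P.ht + P.hm - P.Tlo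

/-- Total mass of `H`. -/
noncomputable def s : ℝ := 2 * P.hs + P.ht + P.hm

/-- Upper bound of `eE i`. -/
noncomputable def eEhi : ℝ := P.φ * (110 * q) + P.m / 2

/-- The numerical conditions. -/
structure Ok (δ : ℝ) : Prop where
  δ_pos : 0 < δ
  q_pos : 1 ≤ q
  R_two : 2 ≤ R
  nC_eq : nC = nL + q + 1
  nL_ge : 6 * q ≤ nL
  W_pos : 1 ≤ P.W
  labels : 96 * q * P.W + P.st + P.e1 = P.n
  masses : (96 * q - 1) * P.m + nL * P.m + 2 * P.hs + P.ht + P.hm = P.n
  φ_pos : 0 < P.φ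
  φ_le : P.φ * (4 / 3) ≤ P.m / 2
  m_lt : P.m + δ * P.n ≤ P.W
  hs_gt : (P.W : ℝ) + 1 < P.hs
  hm_pos : 0 < P.hm
  /-- `T i ≤ hs + ht + hm - δ ht` -/
  t1 : (P.W - P.m) * (96 * q) + P.φ * (110 * q - 1) + P.m / R + δ * P.ht ≤ P.hs + P.ht + P.hm
  t3 : P.Xhi < P.ht
  t4 : 2 * P.hs ≤ P.T2lo
  l2 : P.m * (96 * q * (P.W - P.m) + 96 * q * P.φ + P.m / R) / (P.Tlo - P.hs) +
    6 * q * P.m / P.nG ≤ P.W - δ * P.n
  l2u : P.m * (48 * q * (P.W - P.m) + 48 * q * P.φ + P.m / R) / P.T2lo ≤ P.W - δ * P.n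
  l2v : P.m * (48 * q * (P.W - P.m) + 40 * q * P.φ + P.m / R) / P.T2lo + 6 * q * P.m / P.nU ≤
    P.W - δ * P.n
  l3 : 48 * q * P.m * (1 - (P.W + 1) / P.hs) ≤ P.W - δ * P.n
  l4 : (96 * q - 1) * P.m * (P.Xhi / P.ht) ≤ P.W - δ * P.n
  l6 : nL * P.m * P.bF + (P.ht + P.hm) / P.nG + 2 * P.hs / P.nU ≤ P.W - δ * P.n
  l7 : P.s / (3 * q) ≤ P.W - δ * P.n
  l8 : nL * P.m * P.bF + P.m * (96 * q * (P.W - P.m) + P.m / R) / P.Λ ≤ P.W - δ * P.n
  l9 : (96 * q - 1) * P.m * (P.W - P.m / 2 + P.m / R) / P.Λ ≤ P.W - δ * P.n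
  l10 : nL * P.m * P.bE + (96 * q - 1) * P.m * (P.e1 - P.Tlo * (P.e1 / P.E)) / P.Λ ≤ P.e1 - δ * P.n
  l11 : (96 * q - 1) * P.m * (P.st - P.Tlo * (P.st / P.E)) / P.Λ ≤ P.st - δ * P.n
  l12 : P.m * ((P.W + 1) / P.hs) ≤ P.W + 1 - δ * P.n
  bE_nonneg : 0 ≤ P.bE
  bF_nonneg : 0 ≤ P.bF
  b_sum : P.bE + ((96 * q - 1) + ((nC : ℝ) - nL - 2)) * P.bF = 1
  M1 : δ * P.n ≤ P.m / R
  M2 : δ * P.n ≤ P.hs
  M3 : δ * P.n ≤ P.ht
  M4 : δ * P.n ≤ P.hm
  f1 : δ ≤ (P.ht - P.Xhi) / P.ht * ((P.W - P.m) * (1 - P.hs / P.T2lo) / (P.ht + P.hm))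
  f3 : δ ≤ (P.W - P.m) / P.Λ
  f4 : δ ≤ (P.st - 1 - P.m / R - P.eEhi * (P.st / P.E)) / P.Λ
  f5 : δ ≤ (P.m / 2 - (P.hs - (P.W + 1)) - P.Xhi) / P.Λ
  f6 : δ ≤ (P.e1 - P.eEhi * (P.e1 / P.E)) / P.Λ
  f7 : δ ≤ (P.W + 1) / P.hs
  f8 : δ ≤ 1 - (P.W + 1) / P.hs

end PP

end Pool.Agent.H28.HZ
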