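import Mathlib
import Pool.Agent.H28.HZ.Sched

/-! Module ESUM: the total mass of the tight neighbours going to `E` and the star block. -/

set_option autoImplicit false

namespace Pool.Agent.H28.HZ

open Finset Pool.Agent.H70.HY

section esum

variable {q R nL nC : ℕ} (P : PP q R nL nC) {δ : ℝ}

theorem esum_g_bounds (k : ℕ) : 1 ≤ P.g k ∧ P.g k ≤ 4 / 3 := by
  unfold PP.g
  split_ifs <;> constructor <;> norm_num

theorem esum_g_sum : ∑ k ∈ range (94 * q), P.g k = 110 * q := by
  have h1 : ∀ k ∈ range (94 * q), P.g k = 1 + (if k ∈ Ico (24 * q) (72 * q) then (1 / 3 : ℝ) else 0) := by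
    intro k _
    unfold PP.g
    by_cases h : 24 * q ≤ k ∧ k < 72 * q
    · rw [if_pos h, if_pos (Finset.mem_Ico.2 h)]; norm_num
    · rw [if_neg h, if_neg (fun h' => h (Finset.mem_Ico.1 h'))]; norm_num
  rw [Finset.sum_congr rfl h1, Finset.sum_add_distrib, ← Finset.sum_filter]
  have h2 : (range (94 * q)).filter (fun k => k ∈ Ico (24 * q) (72 * q)) = Ico (24 * q) (72 * q) := by
    ext k
    simp only [Finset.mem_filter, Finset.mem_range, Finset.mem_Ico]
    omega
  rw [h2, Finset.sum_const, Finset.sum_const, Finset.card_range, Nat.card_Ico]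
  have h3 : 72 * q - 24 * q = 48 * q := by omega
  rw [h3, nsmul_eq_mul, nsmul_eq_mul]
  push_cast
  ring

theorem esum_m_pos (h : P.Ok δ) : 0 < P.m := by
  have h1 := h.φ_pos
  have h2 := h.φ_le
  linarith

theorem esum_e_bounds (h : P.Ok δ) (i j : ℕ) : 0 ≤ P.e i j ∧ P.e i j ≤ P.m / 2 := by
  have hm := esum_m_pos P h
  have hφ := h.φ_pos
  have hφ2 := h.φ_le
  have hg : ∀ k, 0 ≤ P.φ * P.g k ∧ P.φ * P.g k ≤ P.m / 2 := by
    intro k
    obtain ⟨h1, h2⟩ := esum_g_bounds P k
    constructor
    · exact mul_nonneg hφ.le (by linarith)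
    · exact (mul_le_mul_of_nonneg_left h2 hφ.le).trans hφ2
  unfold PP.e
  split_ifs
  · exact hg _
  · constructor <;> linarith
  · constructor <;> linarith
  · exact hg _
  · constructor <;> linarith

/-- the part as a function of `t = i + j + 1` -/
noncomputable def esumE (t : ℕ) : ℝ :=
  if t < 94 * q then P.φ * P.g t
  else if t < 96 * q - 1 then 0
  else if t = 96 * q - 1 then P.m / 2
  else if t - 96 * q < 94 * q - 1 then P.φ * P.g (t - 96 * q)
  else 0

theorem esum_e_eq (i j : ℕ) : P.e i j = esumE P (i + j + 1) := rfl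

theorem esum_split (hq : 1 ≤ q) (i : ℕ) (hi : i < 96 * q - 1) :
    ∑ j ∈ range (96 * q - 1), P.e i j =
      (∑ t ∈ Ico (i + 1) (96 * q - 1), esumE P t) + P.m / 2 +
        ∑ k ∈ range i, esumE P (96 * q + k) := by
  have h1 : ∑ j ∈ range (96 * q - 1), P.e i j = ∑ t ∈ Ico (i + 1) (96 * q + i), esumE P t := by
    rw [Finset.sum_Ico_eq_sum_range]
    have h2 : 96 * q + i - (i + 1) = 96 * q - 1 := by omega
    rw [h2]
    refine Finset.sum_congr rfl fun j _ => ?_
    rw [esum_e_eq]
    congr 1
    omega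
  rw [h1, ← Finset.sum_Ico_consecutive _ (show i + 1 ≤ 96 * q by omega)
    (show 96 * q ≤ 96 * q + i by omega)]
  have h3 : ∑ t ∈ Ico (96 * q) (96 * q + i), esumE P t = ∑ k ∈ range i, esumE P (96 * q + k) := by
    rw [Finset.sum_Ico_eq_sum_range]
    congr 2
    omega
  rw [h3, ← Finset.sum_Ico_consecutive _ (show i + 1 ≤ 96 * q - 1 by omega)
    (show 96 * q - 1 ≤ 96 * q by omega)]
  have h4 : Ico (96 * q - 1) (96 * q) = {96 * q - 1} := by
    ext x
    simp only [Finset.mem_Ico, Finset.mem_singleton]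
    omega
  have h5 : esumE P (96 * q - 1) = P.m / 2 := by
    unfold esumE
    rw [if_neg (by omega), if_neg (by omega), if_pos rfl]
  rw [h4, Finset.sum_singleton, h5]

theorem esum_total (hq : 1 ≤ q) (i : ℕ) (hi : i < 96 * q - 1) :
    ∑ j ∈ range (96 * q - 1), P.e i j =
      P.m / 2 + P.φ * (110 * q - (if i < 94 * q then P.g i else P.g (94 * q - 1))) := by
  rw [esum_split P hq i hi]
  by_cases h : i < 94 * q
  · rw [if_pos h]
    have h1 : ∑ t ∈ Ico (i + 1) (96 * q - 1), esumE P t = ∑ t ∈ Ico (i + 1) (94 * q), P.φ * P.g t := by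
      rw [← Finset.sum_Ico_consecutive _ (show i + 1 ≤ 94 * q by omega)
        (show 94 * q ≤ 96 * q - 1 by omega)]
      have h2 : ∑ t ∈ Ico (94 * q) (96 * q - 1), esumE P t = 0 := by
        refine Finset.sum_eq_zero fun t ht => ?_
        rw [Finset.mem_Ico] at ht
        unfold esumE
        rw [if_neg (by omega), if_pos (by omega)]
      rw [h2, add_zero]
      refine Finset.sum_congr rfl fun t ht => ?_
      rw [Finset.mem_Ico] at ht
      unfold esumE
      rw [if_pos ht.2]
    have h2 : ∑ k ∈ range i, esumE P (96 * q + k) = ∑ k ∈ range i, P.φ * P.g k := by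
      refine Finset.sum_congr rfl fun k hk => ?_
      rw [Finset.mem_range] at hk
      unfold esumE
      rw [if_neg (by omega), if_neg (by omega), if_neg (by omega), if_pos (by omega)]
      rw [Nat.add_sub_cancel_left]
    have h3 : ∑ k ∈ range i, P.g k + P.g i + ∑ t ∈ Ico (i + 1) (94 * q), P.g t = 110 * q := by
      rw [← Finset.sum_range_succ, Finset.range_eq_Ico, Finset.sum_Ico_consecutive _ (Nat.zero_le _)
        (show i + 1 ≤ 94 * q by omega), ← Finset.range_eq_Ico, esum_g_sum]
    rw [h1, h2, ← Finset.mul_sum, ← Finset.mul_sum]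
    linear_combination P.φ * h3
  · rw [if_neg h]
    have h1 : ∑ t ∈ Ico (i + 1) (96 * q - 1), esumE P t = 0 := by
      refine Finset.sum_eq_zero fun t ht => ?_
      rw [Finset.mem_Ico] at ht
      unfold esumE
      rw [if_neg (by omega), if_pos (by omega)]
    have h2 : ∑ k ∈ range i, esumE P (96 * q + k) = ∑ k ∈ range (94 * q - 1), P.φ * P.g k := by
      have h4 : ∀ k ∈ range i, esumE P (96 * q + k) =
          if k < 94 * q - 1 then P.φ * P.g k else 0 := by
        intro k hk
        unfold esumE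
        rw [if_neg (by omega), if_neg (by omega), if_neg (by omega)]
        rw [Nat.add_sub_cancel_left]
      rw [Finset.sum_congr rfl h4, ← Finset.sum_filter]
      congr 1
      ext k
      simp only [Finset.mem_filter, Finset.mem_range]
      omega
    have h3 : ∑ k ∈ range (94 * q - 1), P.g k + P.g (94 * q - 1) = 110 * q := by
      rw [← Finset.sum_range_succ, Nat.sub_add_cancel (by omega), esum_g_sum]
    rw [h1, h2, ← Finset.mul_sum]
    linear_combination P.φ * h3

/-- ESUM. -/
theorem eE_bounds (h : P.Ok δ) (i : ℕ) (hi : i < 96 * q - 1) : P.Tlo ≤ P.eE i ∧ P.eE i ≤ P.eEhi := by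
  have hm := esum_m_pos P h
  have hφ := h.φ_pos
  have hR : (2 : ℝ) ≤ R := by exact_mod_cast h.R_two
  obtain ⟨h1, h2⟩ := esum_e_bounds P h i i
  have h3 : P.e i i / R ≤ P.m / 4 := by
    rw [div_le_iff₀ (by linarith)]
    nlinarith
  have h4 : 0 ≤ P.e i i / R := div_nonneg h1 (by linarith)
  have h5 : 1 ≤ (if i < 94 * q then P.g i else P.g (94 * q - 1)) ∧
      (if i < 94 * q then P.g i else P.g (94 * q - 1)) ≤ 4 / 3 := by
    split_ifs
    · exact esum_g_bounds P _
    · exact esum_g_bounds P _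
  unfold PP.eE PP.Tlo PP.eEhi
  rw [esum_total P h.q_pos i hi]
  constructor
  · have := mul_le_mul_of_nonneg_left h5.2 hφ.le
    linarith
  · have := mul_le_mul_of_nonneg_left h5.1 hφ.le
    linarith

end esum

end Pool.Agent.H28.HZ
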