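import Mathlib
import Pool.Agent.H28.HZ.Sched

/-! Module MSUM. -/

set_option autoImplicit false

namespace Pool.Agent.H28.HZ

open Finset Pool.Agent.H70.HY Pool.Agent.H28.HZ

section sched

variable {q R nL nC : ℕ} (P : PP q R nL nC) {δ : ℝ}

theorem msum_m_pos (h : P.Ok δ) : 0 < P.m := by
  have h1 := h.φ_pos
  have h2 := h.φ_le
  linarith

/-- The sum over the sub-classes of the group `j`. -/
theorem msum_inner (h : P.Ok δ) (a : AT (96 * q) R) (j : Fin (96 * q - 1)) (c : ℝ) :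
    ∑ ρ : Fin R, P.m / R * (if a ≠ (j, ρ) then 1 - c / P.m else 0) =
      (P.m - c) * (if (j : ℕ) = a.1 then 1 - 1 / (R : ℝ) else 1) := by
  have hm := (msum_m_pos P h).ne'
  have hR : (R : ℝ) ≠ 0 := by
    have := h.R_two
    positivity
  by_cases hj : (j : ℕ) = a.1
  · have hj' : a.1 = j := Fin.ext hj.symm
    rw [if_pos hj]
    have h1 : ∀ ρ : Fin R, P.m / R * (if a ≠ (j, ρ) then 1 - c / P.m else 0) =
        P.m / R * (1 - c / P.m) - (if ρ = a.2 then P.m / R * (1 - c / P.m) else 0) := by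
      intro ρ
      by_cases hρ : ρ = a.2
      · have : ¬ (a ≠ (j, ρ)) := by
          rw [not_not, hρ, ← hj']
        rw [if_neg this, if_pos hρ]
        ring
      · have : a ≠ (j, ρ) := fun e => hρ (congrArg Prod.snd e).symm
        rw [if_pos this, if_neg hρ]
        ring
    rw [Finset.sum_congr rfl fun ρ _ => h1 ρ, Finset.sum_sub_distrib, Finset.sum_const,
      Finset.sum_ite_eq' Finset.univ a.2, if_pos (Finset.mem_univ _), Finset.card_univ,
      Fintype.card_fin, nsmul_eq_mul]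
    field_simp
  · rw [if_neg hj]
    have h1 : ∀ ρ : Fin R, P.m / R * (if a ≠ (j, ρ) then 1 - c / P.m else 0) =
        P.m / R * (1 - c / P.m) := by
      intro ρ
      have : a ≠ (j, ρ) := fun e => hj (by rw [congrArg Prod.fst e])
      rw [if_pos this]
    rw [Finset.sum_congr rfl fun ρ _ => h1 ρ, Finset.sum_const, Finset.card_univ,
      Fintype.card_fin, nsmul_eq_mul]
    field_simp

/-- The sum over all sub-classes of the group number `j₀`. -/
theorem msum_key (h : P.Ok δ) (a : AT (96 * q) R) (j₀ : ℕ) :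
    ∑ a' : AT (96 * q) R, P.m / R *
      (if a ≠ a' ∧ (a'.1 : ℕ) = j₀ then 1 - P.e a.1 a'.1 / P.m else 0) =
      if j₀ < 96 * q - 1 then (P.m - P.e a.1 j₀) * (if j₀ = a.1 then 1 - 1 / (R : ℝ) else 1)
      else 0 := by
  rw [Fintype.sum_prod_type]
  by_cases hj : j₀ < 96 * q - 1
  · rw [if_pos hj, Finset.sum_eq_single (⟨j₀, hj⟩ : Fin (96 * q - 1))]
    · rw [← msum_inner P h a ⟨j₀, hj⟩ (P.e a.1 j₀)]
      refine Finset.sum_congr rfl fun ρ _ => ?_
      by_cases hne : a ≠ ((⟨j₀, hj⟩ : Fin (96 * q - 1)), ρ)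
      · rw [if_pos hne, if_pos ⟨hne, rfl⟩]
      · rw [if_neg hne, if_neg fun e => hne e.1]
    · intro b _ hb
      refine Finset.sum_eq_zero fun ρ _ => ?_
      rw [if_neg, mul_zero]
      rintro ⟨-, e⟩
      exact hb (Fin.ext e)
    · intro e
      exact absurd (Finset.mem_univ _) e
  · rw [if_neg hj]
    refine Finset.sum_eq_zero fun b _ => Finset.sum_eq_zero fun ρ _ => ?_
    rw [if_neg, mul_zero]
    rintro ⟨-, e⟩
    apply hj
    rw [← e]
    exact b.2

/-- MSUM. -/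
theorem msum_A (h : P.Ok δ) (a : AT (96 * q) R) (k : Fin (96 * q)) :
    ∑ a', P.m / R * P.yMM a a' (some (jA k)) = if (k : ℕ) < a.1 then P.W - P.nd a.1 k else 0 := by
  have hk := k.2
  have ha := a.1.2
  have h1 : ∀ a' : AT (96 * q) R, P.m / R * P.yMM a a' (some (jA k)) = P.m / R *
      (if a ≠ a' ∧ (a'.1 : ℕ) = k + 96 * q - a.1 - 1 then 1 - P.e a.1 a'.1 / P.m else 0) := by
    intro a'
    have e : (a ≠ a' ∧ (a.1 : ℕ) + a'.1 + 1 = k + 96 * q) ↔
        (a ≠ a' ∧ (a'.1 : ℕ) = k + 96 * q - a.1 - 1) := by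
      refine and_congr_right fun _ => ?_
      omega
    change P.m / R * (if a ≠ a' ∧ (a.1 : ℕ) + a'.1 + 1 = k + 96 * q then _ else 0) = _
    rw [if_congr e rfl rfl]
  rw [Finset.sum_congr rfl fun a' _ => h1 a', msum_key P h]
  by_cases hka : (k : ℕ) < a.1
  · have hj : (k : ℕ) + 96 * q - a.1 - 1 < 96 * q - 1 := by omega
    have hpt : P.pt a.1 k = k + 96 * q - a.1 - 1 := by
      unfold PP.pt
      rw [if_neg (by omega)]
    rw [if_pos hj, if_pos hka]
    unfold PP.nd
    rw [hpt, sub_sub_cancel]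
  · have hj : ¬ ((k : ℕ) + 96 * q - a.1 - 1 < 96 * q - 1) := by omega
    rw [if_neg hj, if_neg hka]

/-- MSUM. -/
theorem msum_D (h : P.Ok δ) (a : AT (96 * q) R) (k : Fin (96 * q)) :
    ∑ a', P.m / R * P.yMM a a' (some (jD k)) = if (a.1 : ℕ) < k then P.W - P.nd a.1 k else 0 := by
  have hk := k.2
  have ha := a.1.2
  by_cases hka : (a.1 : ℕ) < k
  · have h1 : ∀ a' : AT (96 * q) R, P.m / R * P.yMM a a' (some (jD k)) = P.m / R *
        (if a ≠ a' ∧ (a'.1 : ℕ) = k - a.1 - 1 then 1 - P.e a.1 a'.1 / P.m else 0) := by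
      intro a'
      have e : (a ≠ a' ∧ (a.1 : ℕ) + a'.1 + 1 = k) ↔ (a ≠ a' ∧ (a'.1 : ℕ) = k - a.1 - 1) := by
        refine and_congr_right fun _ => ?_
        omega
      change P.m / R * (if a ≠ a' ∧ (a.1 : ℕ) + a'.1 + 1 = k then _ else 0) = _
      rw [if_congr e rfl rfl]
    rw [Finset.sum_congr rfl fun a' _ => h1 a', msum_key P h]
    have hj : (k : ℕ) - a.1 - 1 < 96 * q - 1 := by omega
    have hpt : P.pt a.1 k = k - a.1 - 1 := by
      unfold PP.pt
      rw [if_pos hka]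
    rw [if_pos hj, if_pos hka]
    unfold PP.nd
    rw [hpt, sub_sub_cancel]
  · rw [if_neg hka]
    refine Finset.sum_eq_zero fun a' _ => ?_
    change P.m / R * (if a ≠ a' ∧ (a.1 : ℕ) + a'.1 + 1 = k then _ else 0) = _
    rw [if_neg (by omega), mul_zero]

/-- MSUM. -/
theorem msum_E (h : P.Ok δ) (a : AT (96 * q) R) :
    ∑ a', P.m / R * P.yMM a a' (some jE) = P.eE a.1 * (P.e1 / P.E) := by
  have hm := (msum_m_pos P h).ne'
  have hR : (R : ℝ) ≠ 0 := by
    have := h.R_two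
    positivity
  have h1 : ∀ a' : AT (96 * q) R, P.m / R * P.yMM a a' (some jE) =
      P.e a.1 a'.1 / R * (P.e1 / P.E) - (if a' = a then P.e a.1 a.1 / R * (P.e1 / P.E) else 0) := by
    intro a'
    change P.m / R * (if a = a' then 0 else P.e a.1 a'.1 / P.m * (P.e1 / P.E)) = _
    by_cases e : a = a'
    · rw [if_pos e, if_pos e.symm, ← e]
      ring
    · rw [if_neg e, if_neg fun e' => e e'.symm]
      field_simp
      ring
  rw [Finset.sum_congr rfl fun a' _ => h1 a', Finset.sum_sub_distrib,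
    Finset.sum_ite_eq' Finset.univ a, if_pos (Finset.mem_univ _), ← Finset.sum_mul,
    Fintype.sum_prod_type]
  have h2 : ∀ j : Fin (96 * q - 1), ∑ _ρ : Fin R, P.e a.1 j / R = P.e a.1 j := by
    intro j
    rw [Finset.sum_const, Finset.card_univ, Fintype.card_fin, nsmul_eq_mul]
    field_simp
  rw [Finset.sum_congr rfl fun j _ => h2 j, Fin.sum_univ_eq_sum_range (fun j => P.e a.1 j)]
  unfold PP.eE
  ring

end sched

end Pool.Agent.H28.HZ
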