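import Mathlib
import Pool.Agent.H28.HZ.Sched

/-! Module NDB: bounds for `e` and `nd`. -/

set_option autoImplicit false

namespace Pool.Agent.H28.HZ

open Finset Pool.Agent.H70.HY Pool.Agent.H28.HZ

section sched

variable {q R nL nC : ℕ} (P : PP q R nL nC) {δ : ℝ}

theorem ndb_g (k : ℕ) : 1 ≤ P.g k ∧ P.g k ≤ 4 / 3 := by
  unfold PP.g; split_ifs <;> constructor <;> norm_num

theorem ndb_m (h : P.Ok δ) : 0 < P.m := by
  have h1 := h.φ_pos
  have h2 := h.φ_le
  nlinarith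

theorem ndb_mW (h : P.Ok δ) : P.m ≤ P.W := by
  have h1 := h.m_lt
  have h2 : 0 ≤ δ * P.n := mul_nonneg h.δ_pos.le (Nat.cast_nonneg _)
  linarith

/-- NDB: `e` is nonnegative and at most `m / 2`. -/
theorem e_bounds (h : P.Ok δ) (i j : ℕ) : 0 ≤ P.e i j ∧ P.e i j ≤ P.m / 2 := by
  have h1 := h.φ_pos
  have h2 := h.φ_le
  have hm := ndb_m P h
  have key : ∀ k, 0 ≤ P.φ * P.g k ∧ P.φ * P.g k ≤ P.m / 2 := by
    intro k
    obtain ⟨g1, g2⟩ := ndb_g P k
    exact ⟨by positivity, by nlinarith⟩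
  unfold PP.e
  split_ifs
  · exact key _
  · exact ⟨le_rfl, by positivity⟩
  · exact ⟨by positivity, le_rfl⟩
  · exact key _
  · exact ⟨le_rfl, by positivity⟩

theorem ndb_R (h : P.Ok δ) : 0 ≤ 1 / (R : ℝ) ∧ 1 / (R : ℝ) ≤ 1 / 2 := by
  have : (2 : ℝ) ≤ R := by exact_mod_cast h.R_two
  exact ⟨by positivity, by apply one_div_le_one_div_of_le <;> linarith⟩

/-- Two sided bound by `e`. -/
theorem ndb_nd (h : P.Ok δ) (i k : ℕ) :
    (P.W : ℝ) - P.m + P.e i (P.pt i k) ≤ P.nd i k ∧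
    P.nd i k ≤ P.W - P.m + P.e i (P.pt i k) + (if P.pt i k = i then P.m / R else 0) := by
  obtain ⟨e1, e2⟩ := e_bounds P h i (P.pt i k)
  have hm := ndb_m P h
  obtain ⟨r1, r2⟩ := ndb_R P h
  unfold PP.nd
  split_ifs with hk
  · have : P.m / R = P.m * (1 / R) := by ring
    rw [this]
    constructor <;> nlinarith
  · constructor <;> nlinarith

/-- NDB. -/
theorem nd_ge (h : P.Ok δ) (i k : ℕ) : (P.W : ℝ) - P.m ≤ P.nd i k := by
  have := (ndb_nd P h i k).1
  have := (e_bounds P h i (P.pt i k)).1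
  linarith

theorem ndb_pt_gt {i k : ℕ} (hik : i < k) : i + P.pt i k + 1 = k := by
  unfold PP.pt; rw [if_pos hik]; omega

theorem ndb_pt_lt {i k : ℕ} (hi : i < 96 * q) (hik : k < i) : i + P.pt i k + 1 = k + 96 * q := by
  unfold PP.pt; rw [if_neg (by omega)]; omega

theorem ndb_e_gt {i k : ℕ} (hik : i < k) (hk : k < 94 * q) : P.e i (P.pt i k) = P.φ * P.g k := by
  unfold PP.e; rw [ndb_pt_gt P hik, if_pos hk]

theorem ndb_e_gt' {i k : ℕ} (hik : i < k) (hk : 94 * q ≤ k) (hk' : k < 96 * q - 1) :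
    P.e i (P.pt i k) = 0 := by
  unfold PP.e; rw [ndb_pt_gt P hik, if_neg (by omega), if_pos hk']

theorem ndb_e_lt {i k : ℕ} (hi : i < 96 * q) (hik : k < i) (hk : k < 94 * q - 1) :
    P.e i (P.pt i k) = P.φ * P.g k := by
  unfold PP.e
  rw [ndb_pt_lt P hi hik, if_neg (by omega), if_neg (by omega), if_neg (by omega),
    Nat.add_sub_cancel, if_pos hk]

theorem ndb_e_lt' {i k : ℕ} (hi : i < 96 * q) (hik : k < i) (hk : 94 * q - 1 ≤ k) :
    P.e i (P.pt i k) = 0 := by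
  unfold PP.e
  rw [ndb_pt_lt P hi hik, if_neg (by omega), if_neg (by omega), if_neg (by omega),
    Nat.add_sub_cancel, if_neg (by omega)]

theorem ndb_phi (h : P.Ok δ) (k : ℕ) : 0 ≤ P.φ * P.g k :=
  mul_nonneg h.φ_pos.le (by linarith [(ndb_g P k).1])

/-- NDB. -/
theorem nd_le (h : P.Ok δ) (i k : ℕ) (hi : i < 96 * q - 1) (hk : k < 94 * q) (hik : i ≠ k) :
    P.nd i k ≤ P.W - P.m + P.φ * P.g k + (if P.pt i k = i then P.m / R else 0) := by
  have h1 := (ndb_nd P h i k).2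
  have h0 := ndb_phi P h k
  have h2 : P.e i (P.pt i k) ≤ P.φ * P.g k := by
    rcases Nat.lt_or_gt_of_ne hik with hlt | hgt
    · rw [ndb_e_gt P hlt hk]
    · by_cases hk' : k < 94 * q - 1
      · rw [ndb_e_lt P (by omega) hgt hk']
      · rw [ndb_e_lt' P (by omega) hgt (by omega)]; exact h0
  linarith

/-- NDB. -/
theorem nd_le_end (h : P.Ok δ) (i k : ℕ) (hk : k < 96 * q - 1) (hk' : 94 * q ≤ k) (hik : i ≠ k) :
    P.nd i k ≤ P.W - P.m + (if P.pt i k = i then P.m / R else 0) := by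
  have h1 := (ndb_nd P h i k).2
  have h2 : P.e i (P.pt i k) ≤ 0 := by
    rcases Nat.lt_or_gt_of_ne hik with hlt | hgt
    · rw [ndb_e_gt' P hlt hk' hk]
    · by_cases hi : i < 96 * q
      · rw [ndb_e_lt' P hi hgt (by omega)]
      · have ht : 190 * q ≤ i + P.pt i k + 1 := by
          unfold PP.pt; rw [if_neg (by omega : ¬ i < k)]; omega
        unfold PP.e
        rw [if_neg (by omega), if_neg (by omega), if_neg (by omega), if_neg (by omega)]
  linarith

/-- NDB. -/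
theorem nd_hub (h : P.Ok δ) (i : ℕ) (hi : i < 96 * q - 1) :
    (P.W : ℝ) - P.m / 2 ≤ P.nd i (96 * q - 1) ∧ P.nd i (96 * q - 1) ≤ P.W - P.m / 2 + P.m / R := by
  have h1 := ndb_nd P h i (96 * q - 1)
  have hq := h.q_pos
  have he : P.e i (P.pt i (96 * q - 1)) = P.m / 2 := by
    unfold PP.e; rw [ndb_pt_gt P hi, if_neg (by omega), if_neg (by omega), if_pos rfl]
  have hm := ndb_m P h
  have hR : 0 ≤ P.m / R := by positivity
  rw [he] at h1
  refine ⟨by linarith [h1.1], ?_⟩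
  have : (if P.pt i (96 * q - 1) = i then P.m / R else 0) ≤ P.m / R := by
    split_ifs
    · exact le_rfl
    · exact hR
  linarith [h1.2]

end sched

end Pool.Agent.H28.HZ
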