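import Mathlib
import Pool.Agent.H28.HZ.NDB

/-! Module TSUM: the sum `T i`. -/

set_option autoImplicit false

namespace Pool.Agent.H28.HZ

open Finset Pool.Agent.H70.HY Pool.Agent.H28.HZ

section sched

variable {q R nL nC : ℕ} (P : PP q R nL nC) {δ : ℝ}

/-- The sum of the profile. -/
theorem tsum_g : ∑ k ∈ range (96 * q), (if k < 94 * q then P.g k else 0) = 110 * (q : ℝ) := by
  have h1 : ∀ k ∈ range (96 * q), (if k < 94 * q then P.g k else 0) =
      (if k < 94 * q then (1 : ℝ) else 0) +
        (if 24 * q ≤ k ∧ k < 72 * q then (1 / 3 : ℝ) else 0) := by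
    intro k _
    unfold PP.g
    by_cases h1 : k < 94 * q <;> by_cases h2 : 24 * q ≤ k ∧ k < 72 * q
    · rw [if_pos h1, if_pos h2, if_pos h1, if_pos h2]; norm_num
    · rw [if_pos h1, if_neg h2, if_pos h1, if_neg h2]; norm_num
    · omega
    · rw [if_neg h1, if_neg h1, if_neg h2]; norm_num
  rw [sum_congr rfl h1, sum_add_distrib, ← sum_filter, ← sum_filter, sum_const, sum_const]
  have f1 : (range (96 * q)).filter (fun k => k < 94 * q) = range (94 * q) := by
    ext k; simp only [mem_filter, mem_range]; omega
  have f2 : (range (96 * q)).filter (fun k => 24 * q ≤ k ∧ k < 72 * q) =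
      Finset.Ico (24 * q) (72 * q) := by
    ext k; simp only [mem_filter, mem_range, mem_Ico]; omega
  rw [f1, f2, card_range, Nat.card_Ico]
  have : 72 * q - 24 * q = 48 * q := by omega
  rw [this]
  simp only [nsmul_eq_mul]
  push_cast
  ring

/-- The sum of `e` over the `H` positions. -/
theorem tsum_e (i : ℕ) (hq : 1 ≤ q) (hi : i < 96 * q - 1) :
    ∑ k ∈ range (96 * q), (if P.hc i k then P.e i (P.pt i k) else 0) =
      P.φ * (110 * q - (if i < 94 * q then P.g i else 1)) := by
  have key : ∀ j, j < 94 * q → (∀ k ∈ range (96 * q),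
      (if P.hc i k then P.e i (P.pt i k) else 0) + (if k = j then P.φ * P.g j else 0) =
        P.φ * (if k < 94 * q then P.g k else 0)) →
      ∑ k ∈ range (96 * q), (if P.hc i k then P.e i (P.pt i k) else 0) =
        P.φ * (110 * q - P.g j) := by
    intro j hj hk
    have h1 := sum_congr (rfl : range (96 * q) = range (96 * q)) hk
    rw [sum_add_distrib, sum_ite_eq' (range (96 * q)) j, if_pos (mem_range.2 (by omega)),
      ← mul_sum, tsum_g] at h1
    rw [mul_sub]
    linarith
  by_cases hi' : i < 94 * q
  · rw [if_pos hi']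
    refine key i hi' fun k hk => ?_
    have hk0 := mem_range.1 hk
    rcases lt_trichotomy i k with h | h | h
    · by_cases hk' : k < 94 * q
      · rw [if_pos (show P.hc i k from Or.inr ⟨h, hk'⟩), ndb_e_gt P h hk', if_neg (by omega), if_pos hk']; ring
      · rw [if_neg (show ¬ P.hc i k by unfold PP.hc; omega), if_neg (by omega), if_neg hk']; ring
    · rw [if_neg (show ¬ P.hc i k by unfold PP.hc; omega), if_pos h.symm, if_pos (by omega), h]
      ring
    · rw [if_pos (show P.hc i k from Or.inl h), ndb_e_lt P (by omega) h (by omega), if_neg (by omega),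
        if_pos (by omega)]; ring
  · rw [if_neg hi']
    have hg : P.g (94 * q - 1) = 1 := by
      unfold PP.g; rw [if_neg (by omega)]
    have := key (94 * q - 1) (by omega) (fun k hk => ?_)
    · rw [this, hg]
    · have hk0 := mem_range.1 hk
      rcases lt_trichotomy k (94 * q - 1) with h | h | h
      · rw [if_pos (show P.hc i k from Or.inl (by omega)), ndb_e_lt P (by omega) (by omega) h, if_neg (by omega),
          if_pos (by omega)]; ring
      · rw [if_pos (show P.hc i k from Or.inl (by omega)), ndb_e_lt' P (by omega) (by omega) (by omega), if_pos h,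
          if_pos (by omega), h]; ring
      · by_cases hki : k < i
        · rw [if_pos (show P.hc i k from Or.inl hki), ndb_e_lt' P (by omega) hki (by omega), if_neg (by omega),
            if_neg (by omega)]; ring
        · rw [if_neg (show ¬ P.hc i k by unfold PP.hc; omega), if_neg (by omega), if_neg (by omega)]; ring

/-- TSUM. -/
theorem T_lo (h : P.Ok δ) (i : ℕ) (hi : i < 96 * q - 1) : P.Tlo ≤ P.T i := by
  have h1 : P.Tlo ≤ P.φ * (110 * q - (if i < 94 * q then P.g i else 1)) := by
    unfold PP.Tlo
    have : (if i < 94 * q then P.g i else 1) ≤ 4 / 3 := by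
      split_ifs
      · exact (ndb_g P i).2
      · norm_num
    exact mul_le_mul_of_nonneg_left (by linarith) h.φ_pos.le
  refine h1.trans ?_
  rw [← tsum_e P i h.q_pos hi]
  unfold PP.T
  refine sum_le_sum fun k _ => ?_
  split_ifs
  · have := (ndb_nd P h i k).1
    have := ndb_mW P h
    linarith
  · exact le_rfl

/-- TSUM. -/
theorem T_hi (h : P.Ok δ) (i : ℕ) (hi : i < 96 * q - 1) : P.T i ≤ P.hs + P.ht + P.hm - δ * P.ht := by
  have hm := ndb_m P h
  have hmW := ndb_mW P h
  have hR : 0 ≤ P.m / R := by positivity
  have hb : ∀ k ∈ range (96 * q), (if P.hc i k then P.nd i k else 0) ≤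
      ((P.W : ℝ) - P.m) + (if P.hc i k then P.e i (P.pt i k) else 0) +
        (if k = (if 2 * i + 1 < 96 * q then 2 * i + 1 else 2 * i + 1 - 96 * q) then P.m / R
          else 0) := by
    intro k hk
    have hk0 := mem_range.1 hk
    have hz : (0 : ℝ) ≤ (if k = (if 2 * i + 1 < 96 * q then 2 * i + 1 else 2 * i + 1 - 96 * q)
        then P.m / R else 0) := by split_ifs <;> first | exact hR | exact le_rfl
    by_cases hc : P.hc i k
    · rw [if_pos hc, if_pos hc]
      refine (ndb_nd P h i k).2.trans ?_
      gcongr
      by_cases hp : P.pt i k = i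
      · rw [if_pos hp, if_pos]
        have hc' : k < i ∨ (i < k ∧ k < 94 * q) := hc
        rcases hc' with h1 | h1
        · have := ndb_pt_lt P (by omega) h1
          rw [hp] at this
          rw [if_neg (by omega)]; omega
        · have := ndb_pt_gt P h1.1
          rw [hp] at this
          rw [if_pos (by omega)]; omega
      · rw [if_neg hp]; exact hz
    · rw [if_neg hc, if_neg hc]
      linarith
  have h2 := sum_le_sum hb
  rw [sum_add_distrib, sum_add_distrib, tsum_e P i h.q_pos hi, sum_const, card_range,
    sum_ite_eq' (range (96 * q))] at h2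
  have h3 : P.T i ≤ (P.W - P.m) * (96 * q) + P.φ * (110 * q - 1) + P.m / R := by
    unfold PP.T
    refine h2.trans ?_
    have g1 : P.φ * (110 * q - (if i < 94 * q then P.g i else 1)) ≤ P.φ * (110 * q - 1) := by
      refine mul_le_mul_of_nonneg_left ?_ h.φ_pos.le
      have : 1 ≤ (if i < 94 * q then P.g i else 1) := by
        split_ifs
        · exact (ndb_g P i).1
        · exact le_rfl
      linarith
    have g2 : (96 * q) • ((P.W : ℝ) - P.m) = (P.W - P.m) * (96 * q) := by
      rw [nsmul_eq_mul]; push_cast; ring
    rw [g2]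
    have g3 : (if (if 2 * i + 1 < 96 * q then 2 * i + 1 else 2 * i + 1 - 96 * q) ∈ range (96 * q)
        then P.m / (R : ℝ) else 0) ≤ P.m / R := by
      split_ifs <;> first | exact hR | exact le_rfl
    linarith
  have := h.t1
  linarith

/-- Counting one residue class modulo two. -/
theorem tsum_cnt (r : ℕ) (hr : r < 2) (c : ℝ) (N M : ℕ) (h : 2 * N ≤ M) :
    ∑ k ∈ range M, (if k < 2 * N ∧ k % 2 = r then c else 0) = N * c := by
  have h1 : ∑ k ∈ range M, (if k < 2 * N ∧ k % 2 = r then c else 0) =
      ∑ k ∈ range (2 * N), (if k % 2 = r then c else 0) := by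
    rw [← sum_subset (range_subset_range.2 h) (fun k _ hk => if_neg fun hh => hk (mem_range.2 hh.1))]
    exact sum_congr rfl fun k hk => by
      by_cases hkr : k % 2 = r
      · rw [if_pos ⟨mem_range.1 hk, hkr⟩, if_pos hkr]
      · rw [if_neg (fun hh => hkr hh.2), if_neg hkr]
  rw [h1]
  clear h1 h
  induction N with
  | zero => simp
  | succ N ih =>
    rw [show 2 * (N + 1) = 2 * N + 1 + 1 from rfl, sum_range_succ, sum_range_succ, ih]
    have a1 : 2 * N % 2 = 0 := by omega
    have a2 : (2 * N + 1) % 2 = 1 := by omega
    rw [a1, a2]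
    push_cast
    interval_cases r
    · rw [if_pos rfl, if_neg (by norm_num)]; ring
    · rw [if_neg (by norm_num), if_pos rfl]; ring

/-- The sum of the profile over one residue class modulo two. -/
theorem tsum_g2 (r : ℕ) (hr : r < 2) :
    ∑ k ∈ range (96 * q), (if k < 94 * q ∧ k % 2 = r then P.g k else 0) = 55 * (q : ℝ) := by
  have h1 : ∀ k ∈ range (96 * q), (if k < 94 * q ∧ k % 2 = r then P.g k else 0) =
      (if k < 2 * (47 * q) ∧ k % 2 = r then (1 : ℝ) else 0) +
        (if k < 2 * (36 * q) ∧ k % 2 = r then (1 / 3 : ℝ) else 0) -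
        (if k < 2 * (12 * q) ∧ k % 2 = r then (1 / 3 : ℝ) else 0) := by
    intro k _
    unfold PP.g
    by_cases hkr : k % 2 = r
    · simp only [hkr, and_true]
      by_cases h1 : k < 24 * q
      · rw [if_pos (by omega), if_neg (by omega), if_pos (by omega), if_pos (by omega),
          if_pos (by omega)]; norm_num
      · by_cases h2 : k < 72 * q
        · rw [if_pos (by omega), if_pos (by omega), if_pos (by omega), if_pos (by omega),
            if_neg (by omega)]; norm_num
        · by_cases h3 : k < 94 * q
          · rw [if_pos (by omega), if_neg (by omega), if_pos (by omega), if_neg (by omega),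
              if_neg (by omega)]; norm_num
          · rw [if_neg (by omega), if_neg (by omega), if_neg (by omega), if_neg (by omega)]
            norm_num
    · simp only [hkr, and_false, if_false]; norm_num
  rw [sum_congr rfl h1, sum_sub_distrib, sum_add_distrib, tsum_cnt r hr _ _ _ (by omega),
    tsum_cnt r hr _ _ _ (by omega), tsum_cnt r hr _ _ _ (by omega)]
  push_cast
  ring

/-- TSUM. -/
theorem T2_lo (h : P.Ok δ) (i : ℕ) (hi : i < 96 * q - 1) : P.T2lo ≤ P.T2 i := by
  have hφ := h.φ_pos
  have hq := h.q_pos
  have hW := ndb_mW P h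
  -- termwise lower bound
  have key : ∀ j, j < 94 * q → (∀ k ∈ range (96 * q),
      P.φ * (if k < 94 * q ∧ k % 2 = i % 2 then P.g k else 0) ≤
      (if P.hc i k ∧ k % 2 = i % 2 then P.nd i k else 0) +
        (if k = j then P.φ * P.g j else 0)) →
      P.T2lo ≤ P.T2 i := by
    intro j hj hk
    have h1 := sum_le_sum hk
    rw [sum_add_distrib, sum_ite_eq' (range (96 * q)) j, if_pos (mem_range.2 (by omega)),
      ← mul_sum, tsum_g2 P (i % 2) (Nat.mod_lt _ (by norm_num))] at h1
    unfold PP.T2lo PP.T2
    have := (ndb_g P j).2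
    nlinarith
  have hnd : ∀ k, P.e i (P.pt i k) ≤ P.nd i k := fun k => by
    have := (ndb_nd P h i k).1
    linarith
  have hz : ∀ j k : ℕ, 0 ≤ (if k = j then P.φ * P.g j else 0) := fun j k => by
    split_ifs
    · exact ndb_phi P h j
    · exact le_rfl
  have hnn : ∀ k, 0 ≤ P.nd i k := fun k => by
    have := nd_ge P h i k
    linarith
  by_cases hi' : i < 94 * q
  · refine key i hi' fun k hk => ?_
    have hk0 := mem_range.1 hk
    have hn0 := hnn k
    have hnk := hnd k
    have hzz := hz i k
    by_cases hkr : k % 2 = i % 2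
    · simp only [hkr, and_true]
      rcases lt_trichotomy i k with h' | h' | h'
      · by_cases hk' : k < 94 * q
        · rw [ndb_e_gt P h' hk'] at hnk
          rw [if_pos hk', if_pos (show P.hc i k from Or.inr ⟨h', hk'⟩)]
          linarith
        · rw [if_neg hk']
          have : 0 ≤ (if P.hc i k then P.nd i k else 0) := by split_ifs <;> first | exact hn0 | exact le_rfl
          linarith
      · rw [if_pos (by omega), if_neg (show ¬ P.hc i k by unfold PP.hc; omega), if_pos h'.symm, h']
        linarith
      · rw [ndb_e_lt P (by omega) h' (by omega)] at hnk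
        rw [if_pos (by omega), if_pos (show P.hc i k from Or.inl h')]
        linarith
    · simp only [hkr, and_false, if_false]
      linarith
  · refine key (94 * q - 1) (by omega) fun k hk => ?_
    have hk0 := mem_range.1 hk
    have hn0 := hnn k
    have hnk := hnd k
    have hzz := hz (94 * q - 1) k
    by_cases hkr : k % 2 = i % 2
    · simp only [hkr, and_true]
      rcases lt_trichotomy k (94 * q - 1) with h' | h' | h'
      · rw [ndb_e_lt P (by omega) (by omega) h'] at hnk
        rw [if_pos (by omega), if_pos (show P.hc i k from Or.inl (by omega))]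
        linarith
      · rw [if_pos (by omega), if_pos h', if_pos (show P.hc i k from Or.inl (by omega)), h']
        rw [h'] at hn0
        linarith
      · rw [if_neg (by omega)]
        have : 0 ≤ (if P.hc i k then P.nd i k else 0) := by split_ifs <;> first | exact hn0 | exact le_rfl
        linarith
    · simp only [hkr, and_false, if_false]
      linarith

end sched

end Pool.Agent.H28.HZ
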