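import Mathlib
import Pool.Agent.H28.HZ.Sched

/-! Module YAA: the weights between two tight classes sum to one. -/

set_option autoImplicit false

namespace Pool.Agent.H28.HZ

open Finset Pool.Agent.H70.HY

variable {q R nL nC : ℕ} (P : PP q R nL nC) {δ : ℝ}

theorem yaa_m_pos (h : P.Ok δ) : 0 < P.m := by
  have h1 := h.φ_pos
  have h2 := h.φ_le
  linarith

theorem yaa_st_pos (h : P.Ok δ) : 0 < P.st := by
  by_contra hc
  have hst : P.st = 0 := by omega
  have hm := yaa_m_pos P h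
  have h1 := h.f4
  have h0 := h.δ_pos
  have e1 : (P.st : ℝ) - 1 - P.m / R - P.eEhi * (P.st / P.E) = -(1 + P.m / R) := by
    rw [hst]
    simp only [Nat.cast_zero, zero_div, mul_zero]
    ring
  rw [e1] at h1
  have h2 : 0 ≤ P.m / R := by positivity
  have h3 : 0 ≤ P.Λ := by
    unfold PP.Λ
    positivity
  have h4 : -(1 + P.m / R) / P.Λ ≤ 0 := div_nonpos_of_nonpos_of_nonneg (by linarith) h3
  linarith

theorem yaa_E_pos (h : P.Ok δ) : 0 < P.E := by
  have h1 := yaa_st_pos P h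
  have h2 : (0 : ℝ) < P.st := by exact_mod_cast h1
  have h3 : (0 : ℝ) ≤ P.e1 := Nat.cast_nonneg _
  unfold PP.E
  linarith

theorem yaa_sum (s x c : ℕ) (v : ℝ) (h : c ≤ x) (hx : x < c + s) :
    ∑ k : Fin s, (if x = (k : ℕ) + c then v else 0) = v := by
  rw [Finset.sum_eq_single (⟨x - c, by omega⟩ : Fin s)]
  · rw [if_pos]
    simp only
    omega
  · intro k _ hk
    rw [if_neg]
    intro hk2
    apply hk
    apply Fin.ext
    simp only
    omega
  · intro hk
    exact absurd (Finset.mem_univ _) hk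

theorem yaa_sum_zero (s x c : ℕ) (v : ℝ) (h : x < c ∨ c + s ≤ x) :
    ∑ k : Fin s, (if x = (k : ℕ) + c then v else 0) = 0 := by
  apply Finset.sum_eq_zero
  intro k _
  rw [if_neg]
  have := k.2
  omega

/-- YAA. -/
theorem y_sum_AA (h : P.Ok δ) (a a' : AT (96 * q) R) (haa : a ≠ a') : ∑ t, P.yMM a a' t = 1 := by
  have hm := yaa_m_pos P h
  have hE := yaa_E_pos P h
  have h1 := a.1.2
  have h2 := a'.1.2
  rw [Fintype.sum_option, Fintype.sum_sum_type, Fintype.sum_sum_type, Fintype.sum_sum_type]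
  simp only [PP.yMM, if_neg haa, Finset.sum_const_zero, Finset.univ_unique, Finset.sum_singleton]
  have e1 : ∑ k : Fin (96 * q), (if a ≠ a' ∧ (a.1 : ℕ) + a'.1 + 1 = k + 96 * q then
      1 - P.e a.1 a'.1 / P.m else 0) =
      ∑ k : Fin (96 * q), (if (a.1 : ℕ) + a'.1 + 1 = (k : ℕ) + 96 * q then
      1 - P.e a.1 a'.1 / P.m else 0) := by
    refine Finset.sum_congr rfl fun k _ => ?_
    by_cases hc : (a.1 : ℕ) + a'.1 + 1 = (k : ℕ) + 96 * q
    · rw [if_pos ⟨haa, hc⟩, if_pos hc]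
    · rw [if_neg (fun h => hc h.2), if_neg hc]
  have e2 : ∑ k : Fin (96 * q), (if a ≠ a' ∧ (a.1 : ℕ) + a'.1 + 1 = k then
      1 - P.e a.1 a'.1 / P.m else 0) =
      ∑ k : Fin (96 * q), (if (a.1 : ℕ) + a'.1 + 1 = (k : ℕ) + 0 then
      1 - P.e a.1 a'.1 / P.m else 0) := by
    refine Finset.sum_congr rfl fun k _ => ?_
    by_cases hc : (a.1 : ℕ) + a'.1 + 1 = (k : ℕ)
    · rw [if_pos ⟨haa, hc⟩, if_pos (by omega)]
    · rw [if_neg (fun h => hc h.2), if_neg (by omega)]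
  have e3 : P.e a.1 a'.1 / P.m * (P.st / P.E) + P.e a.1 a'.1 / P.m * (P.e1 / P.E) =
      P.e a.1 a'.1 / P.m := by
    rw [← mul_add, ← add_div]
    have : (P.st : ℝ) + P.e1 = P.E := by
      unfold PP.E
      ring
    rw [this, div_self hE.ne', mul_one]
  rw [e1, e2]
  by_cases hc : (a.1 : ℕ) + a'.1 + 1 < 96 * q
  · rw [yaa_sum_zero _ _ _ _ (Or.inl hc), yaa_sum _ _ _ _ (Nat.zero_le _) (by omega)]
    linarith
  · rw [yaa_sum _ _ _ _ (by omega) (by omega), yaa_sum_zero _ _ _ _ (Or.inr (by omega))]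
    linarith

end Pool.Agent.H28.HZ
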