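import Mathlib
import Pool.Agent.H28.HZ.Sched

/-! YBB: the weights `L` - `L` and `L` - `H` sum to one. -/

set_option autoImplicit false

namespace Pool.Agent.H28.HZ

open Finset Pool.Agent.H70.HY Pool.Agent.H28.HZ

theorem ybb_sum_Ico (N a b : ℕ) (hb : b ≤ N) (c : ℝ) :
    ∑ l : Fin N, (if a ≤ (l : ℕ) ∧ (l : ℕ) < b then c else 0) = ((b - a : ℕ) : ℝ) * c := by
  rw [Fin.sum_univ_eq_sum_range (fun l => if a ≤ l ∧ l < b then c else 0) N, ← Finset.sum_filter,
    Finset.sum_const, nsmul_eq_mul]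
  congr 2
  have : (range N).filter (fun l => a ≤ l ∧ l < b) = Finset.Ico a b := by
    ext l
    simp only [mem_filter, mem_range, Finset.mem_Ico]
    constructor
    · exact fun h => h.2
    · exact fun h => ⟨by omega, h⟩
  rw [this, Nat.card_Ico]

theorem ybb_sum_lt (N b : ℕ) (hb : b ≤ N) (c : ℝ) :
    ∑ l : Fin N, (if (l : ℕ) < b then c else 0) = (b : ℝ) * c := by
  have h := ybb_sum_Ico N 0 b hb c
  simpa using h

theorem ybb_sum_ge (N a : ℕ) (c : ℝ) :
    ∑ l : Fin N, (if a ≤ (l : ℕ) then c else 0) = ((N - a : ℕ) : ℝ) * c := by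
  have h := ybb_sum_Ico N a N le_rfl c
  rw [← h]
  refine Finset.sum_congr rfl fun l _ => ?_
  have := l.2
  by_cases h1 : a ≤ (l : ℕ)
  · rw [if_pos h1, if_pos ⟨h1, this⟩]
  · rw [if_neg h1, if_neg fun h2 => h1 h2.1]

theorem ybb_sum_option {K nC : ℕ} (f : Option (JT K nC) → ℝ) :
    ∑ t, f t = f none + ((∑ k, f (some (jA k)) + ∑ k, f (some (jD k)))
      + (∑ l, f (some (jC l)) + f (some jE))) := by
  rw [Fintype.sum_option, Fintype.sum_sum_type, Fintype.sum_sum_type, Fintype.sum_sum_type]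
  simp

section sched

variable {q R nL nC : ℕ} (P : PP q R nL nC) {δ : ℝ}

/-- YBB. -/
theorem y_sum_LL (h : P.Ok δ) : ∑ t, P.yLL t = 1 := by
  have hq := h.q_pos
  rw [ybb_sum_option]
  have e0 : P.yLL none = 0 := rfl
  have e1 : ∀ k, P.yLL (some (jA k)) = 0 := fun _ => rfl
  have e2 : ∀ k : Fin (96 * q), P.yLL (some (jD k)) = if (k : ℕ) < 96 * q - 1 then P.bF else 0 :=
    fun _ => rfl
  have e3 : ∀ l : Fin nC, P.yLL (some (jC l)) = if nL + 2 ≤ (l : ℕ) then P.bF else 0 :=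
    fun _ => rfl
  have e4 : P.yLL (some jE) = P.bE := rfl
  simp only [e0, e1, e2, e3, e4]
  rw [ybb_sum_lt _ _ (by omega), ybb_sum_ge, Finset.sum_const_zero]
  have h1 : ((96 * q - 1 : ℕ) : ℝ) = 96 * q - 1 := by
    rw [Nat.cast_sub (by omega)]; push_cast; ring
  have h2 : ((nC - (nL + 2) : ℕ) : ℝ) = (nC : ℝ) - nL - 2 := by
    rw [Nat.cast_sub (by rw [h.nC_eq]; omega)]; push_cast; ring
  rw [h1, h2]
  linear_combination h.b_sum

theorem ybb_par (m b : ℕ) (hb : b < 2) (c : ℝ) :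
    ∑ k ∈ range (2 * m), (if k % 2 ≠ b then c else 0) = m * c := by
  induction m with
  | zero => simp
  | succ m ih =>
    rw [show 2 * (m + 1) = 2 * m + 1 + 1 by ring, sum_range_succ, sum_range_succ, ih]
    have h1 : (2 * m) % 2 = 0 := by omega
    have h2 : (2 * m + 1) % 2 = 1 := by omega
    rw [h1, h2]
    interval_cases b
    · simp; ring
    · simp; ring

theorem ybb_par_Fin (N m b : ℕ) (hb : b < 2) (hN : 2 * m ≤ N) (c : ℝ) :
    ∑ k : Fin N, (if (k : ℕ) < 2 * m ∧ (k : ℕ) % 2 ≠ b then c else 0) = m * c := by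
  rw [Fin.sum_univ_eq_sum_range (fun k => if k < 2 * m ∧ k % 2 ≠ b then c else 0) N,
    ← ybb_par m b hb c, ← Finset.sum_filter, ← Finset.sum_filter]
  refine Finset.sum_congr ?_ fun _ _ => rfl
  ext k
  simp only [mem_filter, mem_range]
  constructor
  · exact fun h => h.2
  · exact fun h => ⟨by omega, h⟩

/-- YBB. -/
theorem y_sum_LH (h : P.Ok δ) (j : Fin nL) (b : Fin 4) : ∑ t, P.yLH j b t = 1 := by
  have hq := h.q_pos
  have hn := h.nC_eq
  have hnL := h.nL_ge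
  have hj := j.2
  have hq' : (0 : ℝ) < q := by exact_mod_cast hq
  rw [ybb_sum_option]
  have e0 : P.yLH j b none = 0 := rfl
  have e1 : ∀ k, P.yLH j b (some (jA k)) = 0 := fun _ => rfl
  have e2 : ∀ k : Fin (96 * q), P.yLH j b (some (jD k)) =
      if (j : ℕ) + 6 * q < nL then 0
      else if b = 0 ∨ b = 1 then
        (if (k : ℕ) < 60 * q ∧ (k : ℕ) % 2 ≠ b then 1 / P.nU else 0)
      else (if (k : ℕ) < 94 * q then 1 / P.nG else 0) := fun _ => rfl
  have e3 : ∀ l : Fin nC, P.yLH j b (some (jC l)) =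
      if (j : ℕ) + 6 * q < nL then
        (if (j : ℕ) + 3 * q ≤ (l : ℕ) ∧ (l : ℕ) < (j : ℕ) + 6 * q then 1 / (3 * q : ℝ) else 0)
      else if nL + 2 ≤ (l : ℕ) then (if b = 0 ∨ b = 1 then 1 / P.nU else 1 / P.nG) else 0 :=
    fun _ => rfl
  have e4 : P.yLH j b (some jE) = 0 := rfl
  simp only [e0, e1, e2, e3, e4]
  by_cases hc : (j : ℕ) + 6 * q < nL
  · simp only [hc, if_true]
    rw [ybb_sum_Ico _ _ _ (by omega), Finset.sum_const_zero]
    have h1 : (((j : ℕ) + 6 * q - ((j : ℕ) + 3 * q) : ℕ) : ℝ) = 3 * q := by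
      rw [show (j : ℕ) + 6 * q - ((j : ℕ) + 3 * q) = 3 * q by omega]; push_cast; ring
    rw [h1]
    field_simp
    ring
  · simp only [hc, if_false]
    have h2 : ((nC - (nL + 2) : ℕ) : ℝ) = (nC : ℝ) - nL - 2 := by
      rw [Nat.cast_sub (by omega)]; push_cast; ring
    by_cases hb : b = 0 ∨ b = 1
    · simp only [hb, if_true]
      have hb2 : (b : ℕ) < 2 := by
        rcases hb with rfl | rfl <;> decide
      have h6 := ybb_par_Fin (96 * q) (30 * q) b hb2 (by omega) (1 / P.nU)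
      rw [show 2 * (30 * q) = 60 * q by ring] at h6
      rw [h6, ybb_sum_ge, Finset.sum_const_zero]
      have h3 : P.nU = ((nC - (nL + 2) : ℕ) : ℝ) + 30 * q := by
        rw [h2]; rfl
      have h4 : P.nU ≠ 0 := by
        rw [h3]
        have : (0 : ℝ) ≤ ((nC - (nL + 2) : ℕ) : ℝ) := Nat.cast_nonneg _
        positivity
      have h5 : ((30 * q : ℕ) : ℝ) + ((nC - (nL + 2) : ℕ) : ℝ) = P.nU := by
        rw [h3]; push_cast; ring
      calc _ = (((30 * q : ℕ) : ℝ) + ((nC - (nL + 2) : ℕ) : ℝ)) * (1 / P.nU) := by ring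
        _ = 1 := by rw [h5]; field_simp
    · simp only [hb, if_false]
      rw [ybb_sum_lt _ _ (by omega), ybb_sum_ge, Finset.sum_const_zero]
      have h3 : P.nG = ((nC - (nL + 2) : ℕ) : ℝ) + 94 * q := by
        rw [h2]; rfl
      have h4 : P.nG ≠ 0 := by
        rw [h3]
        have : (0 : ℝ) ≤ ((nC - (nL + 2) : ℕ) : ℝ) := Nat.cast_nonneg _
        positivity
      have h5 : ((94 * q : ℕ) : ℝ) + ((nC - (nL + 2) : ℕ) : ℝ) = P.nG := by
        rw [h3]; push_cast; ring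
      calc _ = (((94 * q : ℕ) : ℝ) + ((nC - (nL + 2) : ℕ) : ℝ)) * (1 / P.nG) := by ring
        _ = 1 := by rw [h5]; field_simp

end sched

end Pool.Agent.H28.HZ
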