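import Pool.Agent.H28.HZ.NDB
import Pool.Agent.H28.HZ.TSUM
import Pool.Agent.H28.HZ.ESUM
import Pool.Agent.H28.HZ.MSUM
import Pool.Agent.H28.HZ.YAA
import Pool.Agent.H28.HZ.YBB
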