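import Mathlib
import Pool.Agent.H28.HZ.Base1

/-! Module LDH: the loads of the classes `H`. -/

set_option autoImplicit false

namespace Pool.Agent.H28.HZ

open Finset Pool.Agent.H70.HY

section ldh

variable {q R nL nC : ℕ} (P : PP q R nL nC) {δ : ℝ}

theorem ldh_m_pos (h : P.Ok δ) : 0 < P.m := by
  have h1 := h.φ_pos
  have h2 := h.φ_le
  linarith

theorem ldh_q (h : P.Ok δ) : (1 : ℝ) ≤ q := by exact_mod_cast h.q_pos

theorem ldh_Tlo_pos (h : P.Ok δ) : 0 < P.Tlo := by
  have h1 := h.φ_pos
  have h2 := ldh_q P h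
  unfold PP.Tlo
  apply mul_pos h1
  linarith

theorem ldh_nG (h : P.Ok δ) : P.nG = 95 * q - 1 := by
  unfold PP.nG
  have : (nC : ℝ) = nL + q + 1 := by exact_mod_cast h.nC_eq
  rw [this]
  ring

theorem ldh_nG_pos (h : P.Ok δ) : 0 < P.nG := by
  rw [ldh_nG P h]
  have := ldh_q P h
  linarith

theorem ldh_nU (h : P.Ok δ) : P.nU = 31 * q - 1 := by
  unfold PP.nU
  have : (nC : ℝ) = nL + q + 1 := by exact_mod_cast h.nC_eq
  rw [this]
  ring

theorem ldh_nU_pos (h : P.Ok δ) : 0 < P.nU := by
  rw [ldh_nU P h]
  have := ldh_q P h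
  linarith

theorem ldh_n (h : P.Ok δ) : 0 ≤ δ * P.n := by
  have := h.δ_pos
  positivity


theorem ldh_hs_pos (h : P.Ok δ) : 0 < P.hs := by
  have h1 := h.hs_gt
  have h2 : (0 : ℝ) ≤ P.W := Nat.cast_nonneg _
  linarith

theorem ldh_T2lo_pos (h : P.Ok δ) : 0 < P.T2lo := by
  have h1 := h.t4
  have h2 := ldh_hs_pos P h
  linarith

theorem ldh_Tlo_hs (h : P.Ok δ) : 0 < P.Tlo - P.hs := by
  have h1 := h.t4
  have h2 := ldh_hs_pos P h
  have h3 : P.T2lo ≤ P.Tlo := by
    unfold PP.T2lo PP.Tlo
    apply mul_le_mul_of_nonneg_left _ h.φ_pos.le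
    have := ldh_q P h
    linarith
  linarith

theorem ldh_Wm (h : P.Ok δ) : 0 ≤ (P.W : ℝ) - P.m := by
  have := h.m_lt
  have := ldh_n P h
  linarith

theorem ldh_ht_pos (h : P.Ok δ) : 0 < P.ht := by
  by_contra hcon
  push Not at hcon
  have h3 := h.M3
  have h0 := ldh_n P h
  have h4 : P.ht = 0 := by linarith
  have h5 := h.f1
  rw [h4, div_zero, zero_mul] at h5
  linarith [h.δ_pos]

/-- The load of a class `H` as sums over ranges. -/
theorem ldh_sum (h : P.Ok δ) (b : Fin 4) (j : JT (96 * q) nC) :
    ∑ c, P.M c * P.y (Sum.inr (Sum.inr b)) c (some j) =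
      P.m * ∑ i ∈ range (96 * q - 1), P.yMH i b (some j) +
        P.m * ∑ l ∈ range nL, P.yLH l b (some j) := by
  have hR : (R : ℝ) ≠ 0 := by
    have := h.R_two
    have : 0 < R := by omega
    exact_mod_cast this.ne'
  rw [Fintype.sum_sum_type, Fintype.sum_sum_type, Fintype.sum_prod_type]
  simp only [PP.M, PP.y, mul_zero, Finset.sum_const_zero, add_zero, Finset.sum_const,
    Finset.card_univ, Fintype.card_fin, nsmul_eq_mul]
  rw [Finset.mul_sum, Finset.mul_sum, Finset.sum_range, Finset.sum_range]
  congr 1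
  refine Finset.sum_congr rfl (fun i _ => ?_)
  field_simp

theorem ldh_one (s : Finset ℕ) (u : ℝ) (hu : 0 ≤ u) (Q : ℕ → Prop) [DecidablePred Q]
    (hQ : ∀ i ∈ s, ∀ j ∈ s, Q i → Q j → i = j) : ∑ i ∈ s, (if Q i then u else 0) ≤ u := by
  rw [← Finset.sum_filter, Finset.sum_const, nsmul_eq_mul]
  have h1 : (s.filter Q).card ≤ 1 := by
    rw [Finset.card_le_one]
    intro a ha b hb
    rw [Finset.mem_filter] at ha hb
    exact hQ a ha.1 b hb.1 ha.2 hb.2
  have h2 : ((s.filter Q).card : ℝ) ≤ 1 := by exact_mod_cast h1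
  exact mul_le_of_le_one_left hu h2

/-- The bound for all positions. -/
theorem ldh_ndsum (h : P.Ok δ) (s : Finset ℕ) (k : ℕ) (hk : k < 96 * q - 1) (c1 c2 : ℝ)
    (hc2 : 0 ≤ c2) (hs : ∀ i ∈ s, i < 96 * q - 1 ∧ i ≠ k)
    (huniq : ∀ i ∈ s, ∀ j ∈ s, P.pt i k = i → P.pt j k = j → i = j)
    (hN : (s.card : ℝ) ≤ c1) (hN2 : k < 94 * q → (s.card : ℝ) * P.g k ≤ c2) :
    ∑ i ∈ s, P.nd i k ≤ c1 * (P.W - P.m) + c2 * P.φ + P.m / R := by
  have hφ := h.φ_pos
  have hm := ldh_m_pos P h
  have hWm := ldh_Wm P h
  have hmR : 0 ≤ P.m / R := by positivity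
  have hone := ldh_one s (P.m / R) hmR (fun i => P.pt i k = i) huniq
  have hNW : (s.card : ℝ) * (P.W - P.m) ≤ c1 * (P.W - P.m) :=
    mul_le_mul_of_nonneg_right hN hWm
  by_cases hk2 : k < 94 * q
  · have h1 : ∑ i ∈ s, P.nd i k ≤ ∑ i ∈ s, (P.W - P.m + P.φ * P.g k +
        (if P.pt i k = i then P.m / R else 0)) :=
      Finset.sum_le_sum (fun i hi => nd_le P h i k (hs i hi).1 hk2 (hs i hi).2)
    rw [Finset.sum_add_distrib, Finset.sum_const, nsmul_eq_mul] at h1
    have h2 := hN2 hk2
    have h3 : P.φ * ((s.card : ℝ) * P.g k) ≤ P.φ * c2 := mul_le_mul_of_nonneg_left h2 hφ.le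
    have h4 : (s.card : ℝ) * (P.W - P.m + P.φ * P.g k) =
        s.card * (P.W - P.m) + P.φ * (s.card * P.g k) := by ring
    rw [h4] at h1
    linarith
  · have h1 : ∑ i ∈ s, P.nd i k ≤ ∑ i ∈ s, (P.W - P.m +
        (if P.pt i k = i then P.m / R else 0)) :=
      Finset.sum_le_sum (fun i hi =>
        nd_le_end P h i k hk (not_lt.1 hk2) (hs i hi).2)
    rw [Finset.sum_add_distrib, Finset.sum_const, nsmul_eq_mul] at h1
    have h5 : 0 ≤ c2 * P.φ := by positivity
    linarith

/-- Weights of the classes `2, 3`. -/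
theorem ldh_fac (h : P.Ok δ) (b : Fin 4) (hb : ¬ (b = 0 ∨ b = 1)) (i k : ℕ)
    (hi : i < 96 * q - 1) : P.wH i b k ≤ P.nd i k / (P.Tlo - P.hs) := by
  have hTlo := ldh_Tlo_hs P h
  have hT := T_lo P h i hi
  have hT2 := T_hi P h i hi
  have hT3 := T2_lo P h i hi
  have hnd := nd_ge P h i k
  have hWm := ldh_Wm P h
  have hnd0 : 0 ≤ P.nd i k := by linarith
  have hht := ldh_ht_pos P h
  have hhs := ldh_hs_pos P h
  have h4 := h.t4
  have hq1 : 0 ≤ P.hs / P.T2 i := div_nonneg hhs.le (by linarith)
  have hq2 : P.hs / P.T2 i ≤ 1 := by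
    rw [div_le_one (by linarith)]
    linarith
  have hrr0 : 0 ≤ P.rr i k := by
    unfold PP.rr
    apply mul_nonneg hnd0
    split_ifs <;> linarith
  have hrr1 : P.rr i k ≤ P.nd i k := by
    unfold PP.rr
    apply mul_le_of_le_one_right hnd0
    split_ifs <;> linarith
  have hdiv : 0 ≤ P.rr i k / (P.T i - P.hs) := div_nonneg hrr0 (by linarith)
  have hmain : P.rr i k / (P.T i - P.hs) ≤ P.nd i k / (P.Tlo - P.hs) :=
    div_le_div₀ hnd0 hrr1 hTlo (by linarith)
  unfold PP.wH
  by_cases hb3 : b = 3
  · rw [if_pos hb3]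
    exact hmain
  · have hb2 : b = 2 := by
      push Not at hb
      fin_cases b <;> simp_all
    rw [if_neg hb3, if_pos hb2]
    have hfac : (P.T i - P.hs - P.hm) / P.ht ≤ 1 := by
      rw [div_le_one hht]
      have : 0 ≤ δ * P.ht := by
        have := h.δ_pos
        positivity
      linarith
    calc (P.T i - P.hs - P.hm) / P.ht * (P.rr i k / (P.T i - P.hs))
        ≤ 1 * (P.rr i k / (P.T i - P.hs)) := mul_le_mul_of_nonneg_right hfac hdiv
      _ = P.rr i k / (P.T i - P.hs) := one_mul _
      _ ≤ _ := hmain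

/-- Weights of the classes `0, 1`. -/
theorem ldh_fac2 (h : P.Ok δ) (b : Fin 4) (hb : b = 0 ∨ b = 1) (i k : ℕ)
    (hi : i < 96 * q - 1) :
    P.wH i b k ≤ if k % 2 = i % 2 then P.nd i k / P.T2lo else 0 := by
  have hT2lo := ldh_T2lo_pos P h
  have hT3 := T2_lo P h i hi
  have hnd := nd_ge P h i k
  have hWm := ldh_Wm P h
  have hnd0 : 0 ≤ P.nd i k := by linarith
  have hb3 : b ≠ 3 := by
    rcases hb with rfl | rfl <;> decide
  have hb2 : b ≠ 2 := by
    rcases hb with rfl | rfl <;> decide
  unfold PP.wH
  rw [if_neg hb3, if_neg hb2]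
  by_cases hk : k % 2 = i % 2
  · rw [if_pos hk]
    split_ifs
    · exact div_le_div_of_nonneg_left hnd0 hT2lo hT3
    · exact div_nonneg hnd0 hT2lo.le
  · rw [if_neg hk, if_neg (fun hh => hk hh.2)]

/-- uniqueness of the self paired group on one side -/
theorem ldh_uniq (k : ℕ) (s : Finset ℕ) (hs : ∀ i ∈ s, i < 96 * q - 1)
    (hQ : (∀ i ∈ s, k < i) ∨ (∀ i ∈ s, i < k)) :
    ∀ i ∈ s, ∀ j ∈ s, P.pt i k = i → P.pt j k = j → i = j := by
  intro i hi j hj e1 e2
  have h1 := hs i hi
  have h2 := hs j hj
  rcases hQ with hQ | hQ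
  · have hi2 := hQ i hi
    have hj2 := hQ j hj
    unfold PP.pt at e1 e2
    rw [if_neg (by omega)] at e1 e2
    omega
  · have hi2 := hQ i hi
    have hj2 := hQ j hj
    unfold PP.pt at e1 e2
    rw [if_pos hi2] at e1
    rw [if_pos hj2] at e2
    omega

theorem ldh_g (k N : ℕ) (c : ℝ) (h1 : ¬ (24 * q ≤ k ∧ k < 72 * q) → (N : ℝ) ≤ c)
    (h2 : 24 * q ≤ k → k < 72 * q → (N : ℝ) * (4 / 3) ≤ c) : (N : ℝ) * P.g k ≤ c := by
  unfold PP.g
  by_cases hk : 24 * q ≤ k ∧ k < 72 * q
  · rw [if_pos hk]
    exact h2 hk.1 hk.2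
  · rw [if_neg hk, mul_one]
    exact h1 hk

/-- classes `2, 3`: sums of the weights of the groups at the position `k`, all of them on one
side of `k` -/
theorem ldh_part (h : P.Ok δ) (b : Fin 4) (hb : ¬ (b = 0 ∨ b = 1)) (k : ℕ) (hk : k < 96 * q - 1)
    (Q : ℕ → Prop) [DecidablePred Q] (hQ : (∀ i, Q i → k < i) ∨ (∀ i, Q i → i < k)) :
    P.m * ∑ i ∈ range (96 * q - 1), (if Q i then P.wH i b k else 0) ≤
      P.m * (96 * q * (P.W - P.m) + 96 * q * P.φ + P.m / R) / (P.Tlo - P.hs) := by
  have hm := ldh_m_pos P h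
  have hTlo := ldh_Tlo_hs P h
  set s := (range (96 * q - 1)).filter Q with hsdef
  have hsm : ∀ i ∈ s, i < 96 * q - 1 ∧ Q i := by
    intro i hi
    rw [hsdef, Finset.mem_filter, Finset.mem_range] at hi
    exact hi
  have h1 : ∑ i ∈ range (96 * q - 1), (if Q i then P.wH i b k else 0) ≤
      (∑ i ∈ s, P.nd i k) / (P.Tlo - P.hs) := by
    rw [← Finset.sum_filter, Finset.sum_div]
    exact Finset.sum_le_sum (fun i hi => ldh_fac P h b hb i k (hsm i hi).1)
  have hcard : s.card ≤ 96 * q := by
    refine (Finset.card_filter_le _ _).trans ?_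
    rw [Finset.card_range]
    omega
  have hcard2 : k < 72 * q → 24 * q ≤ k → s.card ≤ 72 * q := by
    intro hk2 hk1
    rcases hQ with hQ | hQ
    · have hsub : s ⊆ Ioo k (96 * q) := by
        intro i hi
        have := hsm i hi
        rw [Finset.mem_Ioo]
        exact ⟨hQ i this.2, by omega⟩
      have := Finset.card_le_card hsub
      rw [Nat.card_Ioo] at this
      omega
    · have hsub : s ⊆ range k := by
        intro i hi
        rw [Finset.mem_range]
        exact hQ i (hsm i hi).2
      have := Finset.card_le_card hsub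
      rw [Finset.card_range] at this
      omega
  have h2 : ∑ i ∈ s, P.nd i k ≤ 96 * q * (P.W - P.m) + 96 * q * P.φ + P.m / R := by
    apply ldh_ndsum P h s k hk (96 * q) (96 * q) (by positivity)
    · intro i hi
      refine ⟨(hsm i hi).1, ?_⟩
      rcases hQ with hQ | hQ
      · exact (hQ i (hsm i hi).2).ne'
      · exact (hQ i (hsm i hi).2).ne
    · apply ldh_uniq P k s (fun i hi => (hsm i hi).1)
      rcases hQ with hQ | hQ
      · exact Or.inl (fun i hi => hQ i (hsm i hi).2)
      · exact Or.inr (fun i hi => hQ i (hsm i hi).2)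
    · exact_mod_cast hcard
    · intro _
      apply ldh_g
      · intro _
        exact_mod_cast hcard
      · intro hk1 hk2
        have h3 : (s.card : ℝ) ≤ 72 * q := by exact_mod_cast hcard2 hk2 hk1
        linarith
  calc P.m * ∑ i ∈ range (96 * q - 1), (if Q i then P.wH i b k else 0)
      ≤ P.m * ((∑ i ∈ s, P.nd i k) / (P.Tlo - P.hs)) :=
        mul_le_mul_of_nonneg_left h1 hm.le
    _ ≤ P.m * ((96 * q * (P.W - P.m) + 96 * q * P.φ + P.m / R) / (P.Tlo - P.hs)) := by
        apply mul_le_mul_of_nonneg_left _ hm.le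
        exact div_le_div_of_nonneg_right h2 hTlo.le
    _ = _ := by ring

theorem ldh_par_up (k N : ℕ) (s : Finset ℕ) (hs : ∀ i ∈ s, k < i ∧ i < N ∧ k % 2 = i % 2) :
    s.card ≤ (N - k) / 2 := by
  have hsub : s ⊆ (range ((N - k) / 2)).image (fun t => k + 2 * t + 2) := by
    intro i hi
    obtain ⟨h1, h2, h3⟩ := hs i hi
    rw [Finset.mem_image]
    refine ⟨(i - k) / 2 - 1, ?_, ?_⟩
    · rw [Finset.mem_range]
      omega
    · omega
  have h1 := (Finset.card_le_card hsub).trans Finset.card_image_le
  rwa [Finset.card_range] at h1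

theorem ldh_par_dn (k : ℕ) (s : Finset ℕ) (hs : ∀ i ∈ s, i < k ∧ k % 2 = i % 2) :
    s.card ≤ k / 2 := by
  have hsub : s ⊆ (range (k / 2)).image (fun t => k % 2 + 2 * t) := by
    intro i hi
    obtain ⟨h1, h3⟩ := hs i hi
    rw [Finset.mem_image]
    refine ⟨i / 2, ?_, ?_⟩
    · rw [Finset.mem_range]
      omega
    · omega
  have h1 := (Finset.card_le_card hsub).trans Finset.card_image_le
  rwa [Finset.card_range] at h1

/-- classes `0, 1` -/
theorem ldh_part2 (h : P.Ok δ) (b : Fin 4) (hb : b = 0 ∨ b = 1) (k : ℕ) (hk : k < 96 * q - 1)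
    (Q : ℕ → Prop) [DecidablePred Q] (c : ℝ) (hc : 0 ≤ c)
    (hQ : (∀ i, Q i → k < i) ∨ (∀ i, Q i → i < k))
    (hcc : ∀ s : Finset ℕ, (∀ i ∈ s, i < 96 * q - 1 ∧ Q i ∧ k % 2 = i % 2) →
      (s.card : ℝ) * P.g k ≤ c) :
    P.m * ∑ i ∈ range (96 * q - 1), (if Q i then P.wH i b k else 0) ≤
      P.m * (48 * q * (P.W - P.m) + c * P.φ + P.m / R) / P.T2lo := by
  have hm := ldh_m_pos P h
  have hTlo := ldh_T2lo_pos P h
  set s := (range (96 * q - 1)).filter (fun i => Q i ∧ k % 2 = i % 2) with hsdef
  have hsm : ∀ i ∈ s, i < 96 * q - 1 ∧ Q i ∧ k % 2 = i % 2 := by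
    intro i hi
    rw [hsdef, Finset.mem_filter, Finset.mem_range] at hi
    exact hi
  have h1 : ∑ i ∈ range (96 * q - 1), (if Q i then P.wH i b k else 0) ≤
      (∑ i ∈ s, P.nd i k) / P.T2lo := by
    rw [Finset.sum_div, hsdef, Finset.sum_filter]
    refine Finset.sum_le_sum (fun i hi => ?_)
    have hi' := Finset.mem_range.1 hi
    by_cases hQi : Q i
    · rw [if_pos hQi]
      have := ldh_fac2 P h b hb i k hi'
      by_cases hpar : k % 2 = i % 2
      · rw [if_pos ⟨hQi, hpar⟩]
        rwa [if_pos hpar] at this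
      · rw [if_neg (fun hh => hpar hh.2)]
        rwa [if_neg hpar] at this
    · rw [if_neg hQi, if_neg (fun hh => hQi hh.1)]
  have hcard : s.card ≤ 48 * q := by
    rcases hQ with hQ | hQ
    · have := ldh_par_up k (96 * q - 1) s (fun i hi => ⟨hQ i (hsm i hi).2.1, (hsm i hi).1,
        (hsm i hi).2.2⟩)
      omega
    · have := ldh_par_dn k s (fun i hi => ⟨hQ i (hsm i hi).2.1, (hsm i hi).2.2⟩)
      omega
  have h2 : ∑ i ∈ s, P.nd i k ≤ 48 * q * (P.W - P.m) + c * P.φ + P.m / R := by
    apply ldh_ndsum P h s k hk (48 * q) c hc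
    · intro i hi
      refine ⟨(hsm i hi).1, ?_⟩
      rcases hQ with hQ | hQ
      · exact (hQ i (hsm i hi).2.1).ne'
      · exact (hQ i (hsm i hi).2.1).ne
    · apply ldh_uniq P k s (fun i hi => (hsm i hi).1)
      rcases hQ with hQ | hQ
      · exact Or.inl (fun i hi => hQ i (hsm i hi).2.1)
      · exact Or.inr (fun i hi => hQ i (hsm i hi).2.1)
    · exact_mod_cast hcard
    · intro _
      exact hcc s hsm
  calc P.m * ∑ i ∈ range (96 * q - 1), (if Q i then P.wH i b k else 0)
      ≤ P.m * ((∑ i ∈ s, P.nd i k) / P.T2lo) :=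
        mul_le_mul_of_nonneg_left h1 hm.le
    _ ≤ P.m * ((48 * q * (P.W - P.m) + c * P.φ + P.m / R) / P.T2lo) := by
        apply mul_le_mul_of_nonneg_left _ hm.le
        exact div_le_div_of_nonneg_right h2 hTlo.le
    _ = _ := by ring

/-- the last `6 q` classes `L` -/
theorem ldh_last (h : P.Ok δ) (Q : ℕ → Prop) [DecidablePred Q] (hQ : ∀ l, Q l → nL ≤ l + 6 * q)
    (G : ℝ) (hG : 0 < G) :
    P.m * ∑ l ∈ range nL, (if Q l then 1 / G else 0) ≤ 6 * q * P.m / G := by
  have hm := ldh_m_pos P h
  rw [← Finset.sum_filter, Finset.sum_const, nsmul_eq_mul]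
  have h1 : ((range nL).filter Q).card ≤ 6 * q := by
    have hsub : (range nL).filter Q ⊆ Ico (nL - 6 * q) nL := by
      intro l hl
      rw [Finset.mem_filter, Finset.mem_range] at hl
      rw [Finset.mem_Ico]
      have := hQ l hl.2
      omega
    have := Finset.card_le_card hsub
    rw [Nat.card_Ico] at this
    omega
  have h2 : (((range nL).filter Q).card : ℝ) ≤ 6 * q := by exact_mod_cast h1
  have h3 : 0 ≤ P.m * (1 / G) := by positivity
  calc P.m * ((((range nL).filter Q).card : ℝ) * (1 / G)) =
      (((range nL).filter Q).card : ℝ) * (P.m * (1 / G)) := by ring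
    _ ≤ 6 * q * (P.m * (1 / G)) := mul_le_mul_of_nonneg_right h2 h3
    _ = _ := by ring

/-- LDH. -/
theorem load_H (h : P.Ok δ) (b : Fin 4) (j : JT (96 * q) nC) :
    ∑ c, P.M c * P.y (Sum.inr (Sum.inr b)) c (some j) ≤
      (match j with
      | Sum.inr (Sum.inr _) => (P.e1 : ℝ)
      | _ => (P.W : ℝ)) - δ * P.n := by
  rw [ldh_sum P h b j]
  have hm := ldh_m_pos P h
  have hTlo := ldh_Tlo_pos P h
  have hTh := ldh_Tlo_hs P h
  have hT2 := ldh_T2lo_pos P h
  have hG := ldh_nG_pos P h
  have hU := ldh_nU_pos P h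
  have hn := ldh_n P h
  have hq := ldh_q P h
  have hφ := h.φ_pos
  have hml := h.m_lt
  have hW0 : 0 ≤ (P.W : ℝ) - δ * P.n := by linarith
  have hWm := ldh_Wm P h
  have hl2 := h.l2
  have hl2u := h.l2u
  have hl2v := h.l2v
  have hpos1 : 0 ≤ P.m * (96 * q * (P.W - P.m) + 96 * q * P.φ + P.m / R) / (P.Tlo - P.hs) := by
    positivity
  have hpos2 : 0 ≤ 6 * q * P.m / P.nG := by positivity
  have hpos3 : 0 ≤ P.m * (48 * q * (P.W - P.m) + 40 * q * P.φ + P.m / R) / P.T2lo := by
    positivity
  have hpos4 : 0 ≤ 6 * q * P.m / P.nU := by positivity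
  rcases j with (k | k) | l | u
  · -- block `A k`
    show _ ≤ (P.W : ℝ) - δ * P.n
    have hL : ∑ l ∈ range nL, P.yLH l b (some (Sum.inl (Sum.inl k) : JT (96 * q) nC)) = 0 :=
      Finset.sum_eq_zero (fun l _ => rfl)
    rw [hL, mul_zero, add_zero]
    by_cases hk : (k : ℕ) < 96 * q - 1
    · have h2 : ∑ i ∈ range (96 * q - 1),
          P.yMH i b (some (Sum.inl (Sum.inl k) : JT (96 * q) nC)) =
          ∑ i ∈ range (96 * q - 1), (if (k : ℕ) < i then P.wH i b k else 0) :=
        Finset.sum_congr rfl (fun i _ => rfl)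
      rw [h2]
      by_cases hb : b = 0 ∨ b = 1
      · have h1 := ldh_part2 P h b hb k hk (fun i => (k : ℕ) < i) (48 * q) (by positivity)
          (Or.inl (fun i hi => hi)) (by
            intro s hs
            have hcard := ldh_par_up k (96 * q - 1) s
              (fun i hi => ⟨(hs i hi).2.1, (hs i hi).1, (hs i hi).2.2⟩)
            apply ldh_g
            · intro _
              have h3 : s.card ≤ 48 * q := by omega
              exact_mod_cast h3
            · intro hk1 hk2
              have h3 : s.card ≤ 36 * q := by omega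
              have h4 : (s.card : ℝ) ≤ 36 * q := by exact_mod_cast h3
              linarith)
        linarith
      · have h1 := ldh_part P h b hb k hk (fun i => (k : ℕ) < i) (Or.inl (fun i hi => hi))
        linarith
    · have h0 : ∑ i ∈ range (96 * q - 1),
          P.yMH i b (some (Sum.inl (Sum.inl k) : JT (96 * q) nC)) = 0 := by
        refine Finset.sum_eq_zero (fun i hi => ?_)
        have hi' := Finset.mem_range.1 hi
        simp only [PP.yMH]
        rw [if_neg (by omega)]
      rw [h0, mul_zero]
      exact hW0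
  · -- block `D k`
    show _ ≤ (P.W : ℝ) - δ * P.n
    by_cases hhub : (k : ℕ) = 96 * q - 1
    · have hL : ∑ l ∈ range nL, P.yLH l b (some (Sum.inl (Sum.inr k) : JT (96 * q) nC)) = 0 := by
        refine Finset.sum_eq_zero (fun l _ => ?_)
        have := h.q_pos
        simp only [PP.yLH]
        split_ifs with h1 h2 h3 h4
        · rfl
        · omega
        · rfl
        · omega
        · rfl
      rw [hL, mul_zero, add_zero]
      have hcast : ((96 * q - 1 : ℕ) : ℝ) = 96 * q - 1 := by
        have := h.q_pos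
        rw [Nat.cast_sub (by omega)]
        push_cast
        ring
      have hyp : ∀ i, P.yMH i b (some (Sum.inl (Sum.inr k) : JT (96 * q) nC)) =
          if b = P.un i then 1 - (P.W + 1) / P.hs else if b = 2 then P.X i / P.ht else 0 := by
        intro i
        simp only [PP.yMH]
        rw [if_pos hhub]
      by_cases hb : b = 0 ∨ b = 1
      · have hb2 : b ≠ 2 := by
          rcases hb with rfl | rfl <;> decide
        have hu0 : 0 ≤ 1 - (P.W + 1) / P.hs := by
          have h1 := h.f8
          have h2 := h.δ_pos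
          linarith
        have h2 : ∑ i ∈ range (96 * q - 1),
            P.yMH i b (some (Sum.inl (Sum.inr k) : JT (96 * q) nC)) =
            ∑ i ∈ range (96 * q - 1), (if b = P.un i then 1 - (P.W + 1) / P.hs else 0) := by
          refine Finset.sum_congr rfl (fun i _ => ?_)
          rw [hyp i, if_neg hb2]
        rw [h2, ← Finset.sum_filter, Finset.sum_const, nsmul_eq_mul]
        have hcard : ((range (96 * q - 1)).filter (fun i => b = P.un i)).card ≤ 48 * q := by
          rcases hb with hb | hb
          · have hsub : (range (96 * q - 1)).filter (fun i => b = P.un i) ⊆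
                (range (48 * q)).image (fun t => 2 * t) := by
              intro i hi
              rw [Finset.mem_filter, Finset.mem_range] at hi
              have h3 : i % 2 = 0 := by
                by_contra hcon
                have h4 := hi.2
                unfold PP.un at h4
                rw [if_neg hcon, hb] at h4
                exact absurd h4 (by decide)
              rw [Finset.mem_image]
              exact ⟨i / 2, by rw [Finset.mem_range]; omega, by omega⟩
            have h3 := (Finset.card_le_card hsub).trans Finset.card_image_le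
            rwa [Finset.card_range] at h3
          · have hsub : (range (96 * q - 1)).filter (fun i => b = P.un i) ⊆
                (range (48 * q)).image (fun t => 2 * t + 1) := by
              intro i hi
              rw [Finset.mem_filter, Finset.mem_range] at hi
              have h3 : ¬ i % 2 = 0 := by
                intro hcon
                have h4 := hi.2
                unfold PP.un at h4
                rw [if_pos hcon, hb] at h4
                exact absurd h4 (by decide)
              rw [Finset.mem_image]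
              exact ⟨i / 2, by rw [Finset.mem_range]; omega, by omega⟩
            have h3 := (Finset.card_le_card hsub).trans Finset.card_image_le
            rwa [Finset.card_range] at h3
        have hcard' : (((range (96 * q - 1)).filter (fun i => b = P.un i)).card : ℝ) ≤
            48 * q := by exact_mod_cast hcard
        have h3 := h.l3
        have h4 := mul_le_mul_of_nonneg_right hcard' hu0
        calc P.m * ((((range (96 * q - 1)).filter (fun i => b = P.un i)).card : ℝ) *
            (1 - (P.W + 1) / P.hs)) ≤ P.m * (48 * q * (1 - (P.W + 1) / P.hs)) :=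
              mul_le_mul_of_nonneg_left h4 hm.le
          _ = 48 * q * P.m * (1 - (P.W + 1) / P.hs) := by ring
          _ ≤ _ := h3
      · have hun : ∀ i, b ≠ P.un i := by
          intro i hcon
          apply hb
          rw [hcon]
          unfold PP.un
          split_ifs
          · exact Or.inl rfl
          · exact Or.inr rfl
        by_cases hb1 : b = 2
        · have hht := ldh_ht_pos P h
          have h2 : ∑ i ∈ range (96 * q - 1),
              P.yMH i b (some (Sum.inl (Sum.inr k) : JT (96 * q) nC)) ≤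
              ∑ i ∈ range (96 * q - 1), P.Xhi / P.ht := by
            refine Finset.sum_le_sum (fun i hi => ?_)
            have hi' := Finset.mem_range.1 hi
            rw [hyp i, if_neg (hun i), if_pos hb1]
            apply div_le_div_of_nonneg_right _ hht.le
            unfold PP.X PP.Xhi
            have := T_lo P h i hi'
            linarith
          rw [Finset.sum_const, Finset.card_range, nsmul_eq_mul, hcast] at h2
          have h3 := h.l4
          calc P.m * ∑ i ∈ range (96 * q - 1),
              P.yMH i b (some (Sum.inl (Sum.inr k) : JT (96 * q) nC)) ≤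
              P.m * ((96 * q - 1) * (P.Xhi / P.ht)) := mul_le_mul_of_nonneg_left h2 hm.le
            _ = (96 * q - 1) * P.m * (P.Xhi / P.ht) := by ring
            _ ≤ _ := h3
        · have h2 : ∑ i ∈ range (96 * q - 1),
              P.yMH i b (some (Sum.inl (Sum.inr k) : JT (96 * q) nC)) = 0 := by
            refine Finset.sum_eq_zero (fun i _ => ?_)
            rw [hyp i, if_neg (hun i), if_neg hb1]
          rw [h2, mul_zero]
          exact hW0
    · have hkq : (k : ℕ) < 96 * q - 1 := by
        have := k.2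
        omega
      have h2 : ∑ i ∈ range (96 * q - 1),
          P.yMH i b (some (Sum.inl (Sum.inr k) : JT (96 * q) nC)) =
          ∑ i ∈ range (96 * q - 1), (if i < (k : ℕ) ∧ (k : ℕ) < 94 * q then
            P.wH i b k else 0) := by
        refine Finset.sum_congr rfl (fun i _ => ?_)
        simp only [PP.yMH]
        rw [if_neg hhub]
      rw [h2]
      by_cases hb : b = 0 ∨ b = 1
      · by_cases hk60 : (k : ℕ) < 60 * q
        · have h1 := ldh_part2 P h b hb k hkq (fun i => i < (k : ℕ) ∧ (k : ℕ) < 94 * q)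
            (40 * q) (by positivity) (Or.inr (fun i hi => hi.1)) (by
              intro s hs
              have hcard := ldh_par_dn k s (fun i hi => ⟨(hs i hi).2.1.1, (hs i hi).2.2⟩)
              apply ldh_g
              · intro _
                have h3 : s.card ≤ 40 * q := by omega
                exact_mod_cast h3
              · intro hk1 hk2
                have h3 : s.card ≤ 30 * q := by omega
                have h4 : (s.card : ℝ) ≤ 30 * q := by exact_mod_cast h3
                linarith)
          have hL : P.m * ∑ l ∈ range nL,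
              P.yLH l b (some (Sum.inl (Sum.inr k) : JT (96 * q) nC)) ≤
              6 * q * P.m / P.nU := by
            have h3 := ldh_last P h (fun l => nL ≤ l + 6 * q) (fun l hl => hl) P.nU hU
            refine le_trans (mul_le_mul_of_nonneg_left ?_ hm.le) h3
            refine Finset.sum_le_sum (fun l _ => ?_)
            simp only [PP.yLH]
            by_cases hl : l + 6 * q < nL
            · rw [if_pos hl, if_neg (show ¬ nL ≤ l + 6 * q by omega)]
            · rw [if_neg hl, if_pos hb, if_pos (show nL ≤ l + 6 * q by omega)]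
              split_ifs
              · exact le_rfl
              · positivity
          linarith
        · have h1 := ldh_part2 P h b hb k hkq (fun i => i < (k : ℕ) ∧ (k : ℕ) < 94 * q)
            (48 * q) (by positivity) (Or.inr (fun i hi => hi.1)) (by
              intro s hs
              have hcard := ldh_par_dn k s (fun i hi => ⟨(hs i hi).2.1.1, (hs i hi).2.2⟩)
              apply ldh_g
              · intro _
                have h3 : s.card ≤ 48 * q := by omega
                exact_mod_cast h3
              · intro hk1 hk2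
                have h3 : s.card ≤ 36 * q := by omega
                have h4 : (s.card : ℝ) ≤ 36 * q := by exact_mod_cast h3
                linarith)
          have hL : ∑ l ∈ range nL,
              P.yLH l b (some (Sum.inl (Sum.inr k) : JT (96 * q) nC)) = 0 := by
            refine Finset.sum_eq_zero (fun l _ => ?_)
            simp only [PP.yLH]
            by_cases hl : l + 6 * q < nL
            · rw [if_pos hl]
            · rw [if_neg hl, if_pos hb, if_neg (fun hh => hk60 hh.1)]
          rw [hL, mul_zero, add_zero]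
          linarith
      · have h1 := ldh_part P h b hb k hkq (fun i => i < (k : ℕ) ∧ (k : ℕ) < 94 * q)
          (Or.inr (fun i hi => hi.1))
        have hL : P.m * ∑ l ∈ range nL,
            P.yLH l b (some (Sum.inl (Sum.inr k) : JT (96 * q) nC)) ≤
            6 * q * P.m / P.nG := by
          have h3 := ldh_last P h (fun l => nL ≤ l + 6 * q) (fun l hl => hl) P.nG hG
          refine le_trans (mul_le_mul_of_nonneg_left ?_ hm.le) h3
          refine Finset.sum_le_sum (fun l _ => ?_)
          simp only [PP.yLH]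
          by_cases hl : l + 6 * q < nL
          · rw [if_pos hl, if_neg (show ¬ nL ≤ l + 6 * q by omega)]
          · rw [if_neg hl, if_neg hb, if_pos (show nL ≤ l + 6 * q by omega)]
            split_ifs
            · exact le_rfl
            · positivity
        linarith
  · -- block `C l`
    show _ ≤ (P.W : ℝ) - δ * P.n
    have h0 : ∑ i ∈ range (96 * q - 1),
        P.yMH i b (some (Sum.inr (Sum.inl l) : JT (96 * q) nC)) = 0 :=
      Finset.sum_eq_zero (fun i _ => rfl)
    rw [h0, mul_zero, zero_add]
    by_cases hl : nL + 2 ≤ (l : ℕ)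
    · have key : ∀ G : ℝ, 0 < G → (if b = 0 ∨ b = 1 then 1 / P.nU else 1 / P.nG) = 1 / G →
          P.m * ∑ j ∈ range nL, P.yLH j b (some (Sum.inr (Sum.inl l) : JT (96 * q) nC)) ≤
          6 * q * P.m / G := by
        intro G hG0 hGe
        have h3 := ldh_last P h (fun l => nL ≤ l + 6 * q) (fun l hl => hl) G hG0
        refine le_trans (mul_le_mul_of_nonneg_left ?_ hm.le) h3
        refine Finset.sum_le_sum (fun j _ => ?_)
        simp only [PP.yLH]
        by_cases hj : j + 6 * q < nL
        · rw [if_pos hj, if_neg (show ¬ (j + 3 * q ≤ (l : ℕ) ∧ (l : ℕ) < j + 6 * q) by omega),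
            if_neg (show ¬ nL ≤ j + 6 * q by omega)]
        · rw [if_neg hj, if_pos hl, if_pos (show nL ≤ j + 6 * q by omega), hGe]
      by_cases hb : b = 0 ∨ b = 1
      · have := key P.nU hU (if_pos hb)
        linarith
      · have := key P.nG hG (if_neg hb)
        linarith
    · have h2 : ∑ j ∈ range nL, P.yLH j b (some (Sum.inr (Sum.inl l) : JT (96 * q) nC)) ≤ 1 := by
        have h3 : ∑ j ∈ range nL, P.yLH j b (some (Sum.inr (Sum.inl l) : JT (96 * q) nC)) ≤
            ∑ j ∈ range nL, (if j + 3 * q ≤ (l : ℕ) ∧ (l : ℕ) < j + 6 * q then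
              1 / (3 * q : ℝ) else 0) := by
          refine Finset.sum_le_sum (fun j _ => ?_)
          simp only [PP.yLH]
          by_cases hj : j + 6 * q < nL
          · rw [if_pos hj]
          · rw [if_neg hj, if_neg hl]
            split_ifs <;> positivity
        refine h3.trans ?_
        rw [← Finset.sum_filter, Finset.sum_const, nsmul_eq_mul]
        have h4 : ((range nL).filter (fun j => j + 3 * q ≤ (l : ℕ) ∧ (l : ℕ) < j + 6 * q)).card ≤
            3 * q := by
          have hsub : (range nL).filter (fun j => j + 3 * q ≤ (l : ℕ) ∧ (l : ℕ) < j + 6 * q) ⊆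
              Ico ((l : ℕ) - 6 * q + 1 - (if (l : ℕ) < 6 * q then 1 else 0))
                ((l : ℕ) - 3 * q + 1) := by
            intro j hj
            rw [Finset.mem_filter, Finset.mem_range] at hj
            rw [Finset.mem_Ico]
            split_ifs <;> omega
          have h5 := Finset.card_le_card hsub
          rw [Nat.card_Ico] at h5
          by_cases h6 : ((range nL).filter
              (fun j => j + 3 * q ≤ (l : ℕ) ∧ (l : ℕ) < j + 6 * q)) = ∅
          · rw [h6]
            simp
          · obtain ⟨j, hj⟩ := Finset.nonempty_iff_ne_empty.2 h6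
            rw [Finset.mem_filter] at hj
            split_ifs at h5 <;> omega
        have h5 : (((range nL).filter
            (fun j => j + 3 * q ≤ (l : ℕ) ∧ (l : ℕ) < j + 6 * q)).card : ℝ) ≤ 3 * q := by
          exact_mod_cast h4
        rw [mul_one_div, div_le_one (by linarith)]
        exact h5
      calc P.m * ∑ j ∈ range nL, P.yLH j b (some (Sum.inr (Sum.inl l) : JT (96 * q) nC)) ≤
          P.m * 1 := mul_le_mul_of_nonneg_left h2 hm.le
        _ ≤ _ := by linarith
  · -- block `E`
    show _ ≤ (P.e1 : ℝ) - δ * P.n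
    have h0 : ∑ i ∈ range (96 * q - 1),
        P.yMH i b (some (Sum.inr (Sum.inr u) : JT (96 * q) nC)) = 0 :=
      Finset.sum_eq_zero (fun i _ => rfl)
    have hL : ∑ l ∈ range nL, P.yLH l b (some (Sum.inr (Sum.inr u) : JT (96 * q) nC)) = 0 :=
      Finset.sum_eq_zero (fun l _ => rfl)
    rw [h0, hL, mul_zero, add_zero]
    have hΛ : 0 < P.Λ := by
      unfold PP.Λ
      have h1 := h.nL_ge
      have h2 := h.q_pos
      have h3 : 0 < nL := by omega
      have h4 : (0 : ℝ) < nL := by exact_mod_cast h3
      positivity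
    have h6 := h.f6
    have h7 := h.δ_pos
    have h8 : 0 < P.e1 - P.eEhi * (P.e1 / P.E) := by
      by_contra hcon
      push Not at hcon
      have : (P.e1 - P.eEhi * (P.e1 / P.E)) / P.Λ ≤ 0 := div_nonpos_of_nonpos_of_nonneg hcon hΛ.le
      linarith
    have h9 : 0 ≤ (P.e1 : ℝ) / P.E := by
      unfold PP.E
      positivity
    have h10 : P.Tlo ≤ P.eEhi := by
      unfold PP.Tlo PP.eEhi
      nlinarith
    have h11 : 0 ≤ P.e1 - P.Tlo * (P.e1 / P.E) := by
      have := mul_le_mul_of_nonneg_right h10 h9
      linarith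
    have h12 := h.l10
    have h13 : 0 ≤ (96 * (q : ℝ) - 1) * P.m * (P.e1 - P.Tlo * (P.e1 / P.E)) / P.Λ := by
      have : 0 ≤ 96 * (q : ℝ) - 1 := by linarith
      positivity
    have h14 : 0 ≤ nL * P.m * P.bE := by
      have := h.bE_nonneg
      positivity
    linarith

end ldh

end Pool.Agent.H28.HZ
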