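import Mathlib
import Pool.Agent.H28.HZ.Base1

/-! MODULE LDL: loads of the slack classes `L`. -/

set_option autoImplicit false

namespace Pool.Agent.H28.HZ

open Finset Pool.Agent.H70.HY

section ldl

variable {q R nL nC : ℕ} (P : PP q R nL nC) {δ : ℝ}

private theorem ldl_m_pos (h : P.Ok δ) : 0 < P.m := by
  have h1 := h.φ_pos
  have h2 := h.φ_le
  linarith

private theorem ldl_Λ_pos (h : P.Ok δ) : 0 < P.Λ := by
  have h1 := ldl_m_pos P h
  have h2 : 1 ≤ nL := le_trans (by have := h.q_pos; omega) h.nL_ge
  have h3 : (1 : ℝ) ≤ nL := by exact_mod_cast h2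
  unfold PP.Λ
  positivity

private theorem ldl_n_pos (h : P.Ok δ) : (0 : ℝ) < P.n := by
  have h1 : 1 ≤ 96 * q * P.W := Nat.mul_pos (by have := h.q_pos; omega) h.W_pos
  have h2 := h.labels
  have h3 : 0 < P.n := by omega
  exact_mod_cast h3

private theorem ldl_ht_pos (h : P.Ok δ) : 0 < P.ht :=
  lt_of_lt_of_le (mul_pos h.δ_pos (ldl_n_pos P h)) h.M3

private theorem ldl_hs_pos (h : P.Ok δ) : 0 < P.hs :=
  lt_of_lt_of_le (mul_pos h.δ_pos (ldl_n_pos P h)) h.M2

private theorem ldl_s_pos (h : P.Ok δ) : 0 < P.s := by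
  have h1 := ldl_ht_pos P h
  have h2 := ldl_hs_pos P h
  have h3 := h.hm_pos
  unfold PP.s
  positivity

private theorem ldl_nU_pos (h : P.Ok δ) : 0 < P.nU := by
  have h1 : (1 : ℝ) ≤ q := by exact_mod_cast h.q_pos
  have h2 : (nC : ℝ) = nL + q + 1 := by exact_mod_cast h.nC_eq
  unfold PP.nU
  rw [h2]
  linarith

private theorem ldl_nG_pos (h : P.Ok δ) : 0 < P.nG := by
  have h1 : (1 : ℝ) ≤ q := by exact_mod_cast h.q_pos
  have h2 : (nC : ℝ) = nL + q + 1 := by exact_mod_cast h.nC_eq
  unfold PP.nG
  rw [h2]
  linarith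

private theorem ldl_sumA (h : P.Ok δ) (f : ℕ → ℝ) :
    ∑ a : AT (96 * q) R, P.m / R * f (a.1 : ℕ) = P.m * ∑ i : Fin (96 * q - 1), f i := by
  have hR : (R : ℝ) ≠ 0 := by
    have := h.R_two
    have h2 : (0 : ℝ) < R := by exact_mod_cast (by omega : 0 < R)
    exact h2.ne'
  rw [Fintype.sum_prod_type, Finset.mul_sum]
  refine Finset.sum_congr rfl fun i _ => ?_
  simp only [Finset.sum_const, Finset.card_univ, Fintype.card_fin, nsmul_eq_mul]
  field_simp

private theorem ldl_card (h : P.Ok δ) : (((96 * q - 1 : ℕ) : ℕ) : ℝ) = 96 * q - 1 := by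
  have h1 := h.q_pos
  rw [Nat.cast_sub (by omega)]
  push_cast
  ring

/-- splitting of the sum over the classes -/
private theorem ldl_split (h : P.Ok δ) (l : Fin nL) (t : Option (JT (96 * q) nC)) :
    ∑ c, P.M c * P.y (Sum.inr (Sum.inl l)) c t
      = P.m * ∑ i : Fin (96 * q - 1), P.yML (i : ℕ) t
        + ∑ j' : Fin nL, P.m * (if l = j' then 0 else P.yLL t)
        + (P.hs * P.yLH l 0 t + P.hs * P.yLH l 1 t + P.ht * P.yLH l 2 t + P.hm * P.yLH l 3 t) := by
  rw [Fintype.sum_sum_type, Fintype.sum_sum_type, ← ldl_sumA P h (fun i => P.yML i t)]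
  rw [add_assoc]
  congr 1
  congr 1
  simp only [PP.M, PP.y]
  rw [Fin.sum_univ_four]
  simp

/-- bound for the `H` part -/
private theorem ldl_H (h : P.Ok δ) (l : ℕ) (t : Option (JT (96 * q) nC)) (u v : ℝ)
    (h0 : P.yLH l 0 t ≤ u) (h1 : P.yLH l 1 t ≤ u) (h2 : P.yLH l 2 t ≤ v) (h3 : P.yLH l 3 t ≤ v) :
    P.hs * P.yLH l 0 t + P.hs * P.yLH l 1 t + P.ht * P.yLH l 2 t + P.hm * P.yLH l 3 t
      ≤ 2 * P.hs * u + (P.ht + P.hm) * v := by
  have a1 := mul_le_mul_of_nonneg_left h0 (ldl_hs_pos P h).le
  have a2 := mul_le_mul_of_nonneg_left h1 (ldl_hs_pos P h).le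
  have a3 := mul_le_mul_of_nonneg_left h2 (ldl_ht_pos P h).le
  have a4 := mul_le_mul_of_nonneg_left h3 h.hm_pos.le
  linarith

private theorem ldl_LL (h : P.Ok δ) (l : Fin nL) (w : ℝ) (hw : 0 ≤ w) :
    ∑ j' : Fin nL, P.m * (if l = j' then 0 else w) ≤ nL * P.m * w := by
  have hm := ldl_m_pos P h
  calc ∑ j' : Fin nL, P.m * (if l = j' then 0 else w) ≤ ∑ _j' : Fin nL, P.m * w := by
        refine Finset.sum_le_sum fun j' _ => mul_le_mul_of_nonneg_left ?_ hm.le
        split_ifs
        · exact hw
        · exact le_rfl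
    _ = nL * P.m * w := by
        rw [Finset.sum_const, Finset.card_univ, Fintype.card_fin, nsmul_eq_mul]
        ring

/-- at most one `i` with `k = 2 i + 1` -/
private theorem ldl_one {N : ℕ} (k : ℕ) (w : ℝ) (hw : 0 ≤ w) :
    ∑ i : Fin N, (if k = 2 * (i : ℕ) + 1 then w else 0) ≤ w := by
  by_cases hex : ∃ i0 : Fin N, k = 2 * (i0 : ℕ) + 1
  · obtain ⟨i0, hi0⟩ := hex
    have : ∀ i : Fin N, (if k = 2 * (i : ℕ) + 1 then w else 0) = if i = i0 then w else 0 := by
      intro i
      by_cases hi : i = i0
      · subst hi; simp [hi0]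
      · have : k ≠ 2 * (i : ℕ) + 1 := by
          intro hk
          apply hi
          apply Fin.ext
          omega
        simp [this, hi]
    rw [Finset.sum_congr rfl fun i _ => this i]
    simp
  · push Not at hex
    rw [Finset.sum_congr rfl fun i _ => if_neg (hex i)]
    simpa using hw

/-- LDL. -/
theorem load_L (h : P.Ok δ) (l : Fin nL) (j : JT (96 * q) nC) :
    ∑ c, P.M c * P.y (Sum.inr (Sum.inl l)) c (some j) ≤
      (match j with
      | Sum.inr (Sum.inr _) => (P.e1 : ℝ)
      | _ => (P.W : ℝ)) - δ * P.n := by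
  have hm := ldl_m_pos P h
  have hΛ := ldl_Λ_pos P h
  have hs := ldl_s_pos P h
  have hG := ldl_nG_pos P h
  have hU := ldl_nU_pos P h
  have hn := ldl_n_pos P h
  have hq := h.q_pos
  have hcard := ldl_card P h
  have hR : (0 : ℝ) < R := by
    have := h.R_two
    exact_mod_cast (by omega : 0 < R)
  have hWm : 0 ≤ P.W - P.m := by
    have := h.m_lt
    have := mul_pos h.δ_pos hn
    linarith
  rw [ldl_split P h]
  rcases j with (k | k) | (c | u)
  · -- block `A k`
    have h1 : ∀ i : Fin (96 * q - 1), P.yML (i : ℕ) (some (Sum.inl (Sum.inl k))) = 0 := fun i => rfl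
    have h2 : P.yLL (some (Sum.inl (Sum.inl k))) = 0 := rfl
    have h3 : ∀ b, P.yLH l b (some (Sum.inl (Sum.inl k))) = 0 := fun b => rfl
    simp only [h1, h2, h3, ite_self, mul_zero, Finset.sum_const_zero, add_zero]
    have := h.m_lt
    linarith
  · -- block `D k`
    show _ ≤ (P.W : ℝ) - δ * P.n
    by_cases hk : (k : ℕ) = 96 * q - 1
    · -- hub
      have h1 : ∀ i : Fin (96 * q - 1), P.yML (i : ℕ) (some (Sum.inl (Sum.inr k)))
          ≤ (P.W - P.m / 2 + P.m / R) / P.Λ := by
        intro i
        have e : P.yML (i : ℕ) (some (Sum.inl (Sum.inr k)))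
            = (P.nd i k - (P.hs - (P.W + 1)) - P.X i) / P.Λ := by
          simp only [PP.yML, if_pos hk]
        rw [e]
        apply div_le_div_of_nonneg_right _ hΛ.le
        have a1 := (nd_hub P h i i.2).2
        have a2 := h.hs_gt
        have a3 := T_hi P h i i.2
        have a4 := mul_pos h.δ_pos (ldl_ht_pos P h)
        rw [hk]
        unfold PP.X
        linarith
      have h2 : P.yLL (some (Sum.inl (Sum.inr k))) = 0 := by
        simp only [PP.yLL]
        rw [if_neg (by omega)]
      have h3 : ∀ b, P.yLH l b (some (Sum.inl (Sum.inr k))) = 0 := by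
        intro b
        simp only [PP.yLH]
        split_ifs
        · rfl
        · omega
        · rfl
        · omega
        · rfl
      simp only [h2, h3, ite_self, mul_zero, Finset.sum_const_zero, add_zero]
      calc P.m * ∑ i : Fin (96 * q - 1), P.yML (i : ℕ) (some (Sum.inl (Sum.inr k)))
          ≤ P.m * ∑ _i : Fin (96 * q - 1), (P.W - P.m / 2 + P.m / R) / P.Λ :=
            mul_le_mul_of_nonneg_left (Finset.sum_le_sum fun i _ => h1 i) hm.le
        _ = (96 * q - 1) * P.m * (P.W - P.m / 2 + P.m / R) / P.Λ := by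
            rw [Finset.sum_const, Finset.card_univ, Fintype.card_fin, nsmul_eq_mul, hcard]
            ring
        _ ≤ _ := h.l9
    · by_cases hk2 : 94 * q ≤ (k : ℕ)
      · have hklt : (k : ℕ) < 96 * q - 1 := by
          have := k.2
          omega
        have h1 : ∀ i : Fin (96 * q - 1), P.yML (i : ℕ) (some (Sum.inl (Sum.inr k)))
            ≤ ((P.W - P.m) + (if (k : ℕ) = 2 * (i : ℕ) + 1 then P.m / R else 0)) / P.Λ := by
          intro i
          have e : P.yML (i : ℕ) (some (Sum.inl (Sum.inr k)))
              = if (i : ℕ) < (k : ℕ) ∧ 94 * q ≤ (k : ℕ) then P.nd i k / P.Λ else 0 := by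
            simp only [PP.yML, if_neg hk]
          rw [e]
          split_ifs with c1 c2 c2
          · apply div_le_div_of_nonneg_right _ hΛ.le
            have a1 := nd_le_end P h i k hklt hk2 (by omega)
            refine le_trans a1 ?_
            split_ifs
            · exact le_rfl
            · have : 0 ≤ P.m / R := by positivity
              linarith
          · apply div_le_div_of_nonneg_right _ hΛ.le
            have a1 := nd_le_end P h i k hklt hk2 (by omega)
            refine le_trans a1 ?_
            rw [if_neg]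
            unfold PP.pt
            rw [if_pos c1.1]
            omega
          · apply div_nonneg _ hΛ.le
            have : 0 ≤ P.m / R := by positivity
            linarith
          · apply div_nonneg _ hΛ.le
            linarith
        have h2 : P.yLL (some (Sum.inl (Sum.inr k))) = P.bF := by
          simp only [PP.yLL]
          rw [if_pos (by omega)]
        have h3 : ∀ b, P.yLH l b (some (Sum.inl (Sum.inr k))) = 0 := by
          intro b
          simp only [PP.yLH]
          split_ifs
          · rfl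
          · omega
          · rfl
          · omega
          · rfl
        rw [h2, h3, h3, h3, h3]
        have b1 : P.m * ∑ i : Fin (96 * q - 1), P.yML (i : ℕ) (some (Sum.inl (Sum.inr k)))
            ≤ P.m * (96 * q * (P.W - P.m) + P.m / R) / P.Λ := by
          calc P.m * ∑ i : Fin (96 * q - 1), P.yML (i : ℕ) (some (Sum.inl (Sum.inr k)))
              ≤ P.m * ∑ i : Fin (96 * q - 1), ((P.W - P.m)
                + (if (k : ℕ) = 2 * (i : ℕ) + 1 then P.m / R else 0)) / P.Λ :=
                mul_le_mul_of_nonneg_left (Finset.sum_le_sum fun i _ => h1 i) hm.le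
            _ = P.m * ((96 * q - 1) * (P.W - P.m)
                + ∑ i : Fin (96 * q - 1), (if (k : ℕ) = 2 * (i : ℕ) + 1 then P.m / R else 0))
                  / P.Λ := by
                rw [← Finset.sum_div, Finset.sum_add_distrib, Finset.sum_const, Finset.card_univ,
                  Fintype.card_fin, nsmul_eq_mul, hcard]
                ring
            _ ≤ P.m * (96 * q * (P.W - P.m) + P.m / R) / P.Λ := by
                apply div_le_div_of_nonneg_right _ hΛ.le
                apply mul_le_mul_of_nonneg_left _ hm.le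
                have := ldl_one (N := 96 * q - 1) k (P.m / R) (by positivity)
                linarith
        have b2 := ldl_LL P h l P.bF h.bF_nonneg
        have b3 := h.l8
        simp only [mul_zero, add_zero]
        linarith
      · -- `k < 94 q`
        have h1 : ∀ i : Fin (96 * q - 1), P.yML (i : ℕ) (some (Sum.inl (Sum.inr k))) = 0 := by
          intro i
          simp only [PP.yML, if_neg hk]
          rw [if_neg (by omega)]
        have h2 : P.yLL (some (Sum.inl (Sum.inr k))) = P.bF := by
          simp only [PP.yLL]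
          rw [if_pos (by omega)]
        have h3u : ∀ b : Fin 4, (b = 0 ∨ b = 1) →
            P.yLH l b (some (Sum.inl (Sum.inr k))) ≤ 1 / P.nU := by
          intro b hb
          simp only [PP.yLH, if_pos hb]
          split_ifs
          · positivity
          · exact le_rfl
          · positivity
        have h3v : ∀ b : Fin 4, ¬ (b = 0 ∨ b = 1) →
            P.yLH l b (some (Sum.inl (Sum.inr k))) ≤ 1 / P.nG := by
          intro b hb
          simp only [PP.yLH, if_neg hb]
          split_ifs
          · positivity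
          · exact le_rfl
          · positivity
        rw [h2]
        simp only [h1, Finset.sum_const_zero, mul_zero, zero_add]
        have b2 := ldl_LL P h l P.bF h.bF_nonneg
        have b3 := h.l6
        have b4 := ldl_H P h l (some (Sum.inl (Sum.inr k))) (1 / P.nU) (1 / P.nG)
          (h3u 0 (by simp)) (h3u 1 (by simp)) (h3v 2 (by decide)) (h3v 3 (by decide))
        have b5 : 2 * P.hs * (1 / P.nU) + (P.ht + P.hm) * (1 / P.nG)
            = (P.ht + P.hm) / P.nG + 2 * P.hs / P.nU := by ring
        rw [b5] at b4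
        linarith
  · -- block `C c`
    show _ ≤ (P.W : ℝ) - δ * P.n
    have h1 : ∀ i : Fin (96 * q - 1), P.yML (i : ℕ) (some (Sum.inr (Sum.inl c))) = 0 :=
      fun i => rfl
    simp only [h1, Finset.sum_const_zero, mul_zero, zero_add]
    have hq' : (0 : ℝ) < 3 * q := by
      have : (0 : ℝ) < q := by exact_mod_cast hq
      linarith
    by_cases hc : nL + 2 ≤ (c : ℕ)
    · have h2 : P.yLL (some (Sum.inr (Sum.inl c))) = P.bF := by
        simp only [PP.yLL]
        rw [if_pos hc]
      have hl := l.2
      have h3u : ∀ b : Fin 4, (b = 0 ∨ b = 1) →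
          P.yLH l b (some (Sum.inr (Sum.inl c))) ≤ 1 / P.nU := by
        intro b hb
        simp only [PP.yLH, if_pos hb]
        split_ifs with c1 c2
        · omega
        · positivity
        · exact le_rfl
      have h3v : ∀ b : Fin 4, ¬ (b = 0 ∨ b = 1) →
          P.yLH l b (some (Sum.inr (Sum.inl c))) ≤ 1 / P.nG := by
        intro b hb
        simp only [PP.yLH, if_neg hb]
        split_ifs with c1 c2
        · omega
        · positivity
        · exact le_rfl
      rw [h2]
      have b2 := ldl_LL P h l P.bF h.bF_nonneg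
      have b3 := h.l6
      have b4 := ldl_H P h l (some (Sum.inr (Sum.inl c))) (1 / P.nU) (1 / P.nG)
        (h3u 0 (by simp)) (h3u 1 (by simp)) (h3v 2 (by decide)) (h3v 3 (by decide))
      have b5 : 2 * P.hs * (1 / P.nU) + (P.ht + P.hm) * (1 / P.nG)
          = (P.ht + P.hm) / P.nG + 2 * P.hs / P.nU := by ring
      rw [b5] at b4
      linarith
    · have h2 : P.yLL (some (Sum.inr (Sum.inl c))) = 0 := by
        simp only [PP.yLL]
        rw [if_neg hc]
      have h3 : ∀ b, P.yLH l b (some (Sum.inr (Sum.inl c))) ≤ 1 / (3 * q : ℝ) := by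
        intro b
        simp only [PP.yLH, if_neg hc]
        split_ifs
        · exact le_rfl
        · positivity
        · positivity
      rw [h2]
      simp only [ite_self, mul_zero, Finset.sum_const_zero, zero_add]
      have b3 := h.l7
      have b4 := ldl_H P h l (some (Sum.inr (Sum.inl c))) (1 / (3 * q : ℝ)) (1 / (3 * q : ℝ))
        (h3 0) (h3 1) (h3 2) (h3 3)
      have b5 : 2 * P.hs * (1 / (3 * q : ℝ)) + (P.ht + P.hm) * (1 / (3 * q : ℝ))
          = P.s / (3 * q) := by unfold PP.s; ring
      rw [b5] at b4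
      linarith
  · -- block `E`
    show _ ≤ (P.e1 : ℝ) - δ * P.n
    have hE : 0 ≤ P.E := by unfold PP.E; positivity
    have hr : 0 ≤ (P.e1 : ℝ) / P.E := div_nonneg (by positivity) hE
    have h1 : ∀ i : Fin (96 * q - 1), P.yML (i : ℕ) (some (Sum.inr (Sum.inr u)))
        ≤ (P.e1 - P.Tlo * (P.e1 / P.E)) / P.Λ := by
      intro i
      have e : P.yML (i : ℕ) (some (Sum.inr (Sum.inr u)))
          = (P.e1 - P.eE i * (P.e1 / P.E)) / P.Λ := rfl
      rw [e]
      apply div_le_div_of_nonneg_right _ hΛ.le
      have a1 := (eE_bounds P h i i.2).1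
      have a2 := mul_le_mul_of_nonneg_right a1 hr
      linarith
    have h2 : P.yLL (some (Sum.inr (Sum.inr u))) = P.bE := rfl
    have h3 : ∀ b, P.yLH l b (some (Sum.inr (Sum.inr u))) = 0 := fun b => rfl
    rw [h2, h3, h3, h3, h3]
    simp only [mul_zero, add_zero]
    have b2 := ldl_LL P h l P.bE h.bE_nonneg
    have b3 := h.l10
    have b1 : P.m * ∑ i : Fin (96 * q - 1), P.yML (i : ℕ) (some (Sum.inr (Sum.inr u)))
        ≤ (96 * q - 1) * P.m * (P.e1 - P.Tlo * (P.e1 / P.E)) / P.Λ := by
      calc _ ≤ P.m * ∑ _i : Fin (96 * q - 1), (P.e1 - P.Tlo * (P.e1 / P.E)) / P.Λ :=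
            mul_le_mul_of_nonneg_left (Finset.sum_le_sum fun i _ => h1 i) hm.le
        _ = _ := by
            rw [Finset.sum_const, Finset.card_univ, Fintype.card_fin, nsmul_eq_mul, hcard]
            ring
    linarith

end ldl

end Pool.Agent.H28.HZ
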