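import Mathlib
import Pool.Agent.H28.HZ.Base1

/-! MODULE LDT: loads of the slack classes in the star block. -/

set_option autoImplicit false

namespace Pool.Agent.H28.HZ

open Finset Pool.Agent.H70.HY

section ldt

variable {q R nL nC : ℕ} (P : PP q R nL nC) {δ : ℝ}

private theorem ldt_m_pos (h : P.Ok δ) : 0 < P.m := by
  have h1 := h.φ_pos
  have h2 := h.φ_le
  linarith

private theorem ldt_Λ_pos (h : P.Ok δ) : 0 < P.Λ := by
  have h1 := ldt_m_pos P h
  have h2 : 1 ≤ nL := le_trans (by have := h.q_pos; omega) h.nL_ge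
  have h3 : (1 : ℝ) ≤ nL := by exact_mod_cast h2
  unfold PP.Λ
  positivity

private theorem ldt_card (h : P.Ok δ) : (((96 * q - 1 : ℕ) : ℕ) : ℝ) = 96 * q - 1 := by
  have h1 := h.q_pos
  rw [Nat.cast_sub (by omega)]
  push_cast
  ring

/-- the bound `l11` gives that the star block is large enough -/
private theorem ldt_nonneg (h : P.Ok δ) : 0 ≤ P.st - δ * P.n := by
  have hm := ldt_m_pos P h
  have hΛ := ldt_Λ_pos P h
  have hq : (1 : ℝ) ≤ q := by exact_mod_cast h.q_pos
  have hR : (2 : ℝ) ≤ R := by exact_mod_cast h.R_two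
  have hE : 0 ≤ P.E := by unfold PP.E; positivity
  have hr : 0 ≤ (P.st : ℝ) / P.E := div_nonneg (by positivity) hE
  have h1 : 0 ≤ (P.st : ℝ) - P.Tlo * (P.st / P.E) := by
    have h0 := eE_bounds P h 0 (by have := h.q_pos; omega)
    have h2 : P.Tlo ≤ P.eEhi := le_trans h0.1 h0.2
    have h3 := h.f4
    have h4 : 0 ≤ (P.st - 1 - P.m / R - P.eEhi * (P.st / P.E)) / P.Λ := le_trans h.δ_pos.le h3
    have h5 : 0 ≤ P.st - 1 - P.m / R - P.eEhi * (P.st / P.E) := by
      by_contra hneg
      push Not at hneg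
      exact absurd (div_neg_of_neg_of_pos hneg hΛ) (not_lt.mpr h4)
    have h6 := mul_le_mul_of_nonneg_right h2 hr
    have h7 : 0 ≤ P.m / R := by positivity
    linarith
  have h8 := h.l11
  have h9 : 0 ≤ (96 * q - 1) * P.m * (P.st - P.Tlo * (P.st / P.E)) / P.Λ := by
    apply div_nonneg _ hΛ.le
    apply mul_nonneg _ h1
    apply mul_nonneg _ hm.le
    linarith
  linarith

/-- LDT. -/
theorem load_T (h : P.Ok δ) (b : BT nL) :
    ∑ c, P.M c * P.y (Sum.inr b) c none ≤ P.st - δ * P.n := by
  have hm := ldt_m_pos P h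
  have hΛ := ldt_Λ_pos P h
  have hcard := ldt_card P h
  have hR : (0 : ℝ) < R := by
    have := h.R_two
    exact_mod_cast (by omega : 0 < R)
  rcases b with l | b
  · -- `L` class
    have e : ∑ c, P.M c * P.y (Sum.inr (Sum.inl l)) c none
        = ∑ a : AT (96 * q) R, P.m / R * P.yML (nC := nC) (a.1 : ℕ) none := by
      rw [Fintype.sum_sum_type]
      have z : ∑ x : BT nL, P.M (Sum.inr x) * P.y (Sum.inr (Sum.inl l)) (Sum.inr x) none = 0 := by
        apply Finset.sum_eq_zero
        rintro (x | x) _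
        · simp [PP.y, PP.yLL]
        · simp [PP.y, PP.yLH]
      rw [z, add_zero]
      rfl
    rw [e, Fintype.sum_prod_type]
    have hE : 0 ≤ P.E := by unfold PP.E; positivity
    have hr : 0 ≤ (P.st : ℝ) / P.E := div_nonneg (by positivity) hE
    have h1 : ∀ i : Fin (96 * q - 1), P.yML (nC := nC) (i : ℕ) none
        ≤ (P.st - P.Tlo * (P.st / P.E)) / P.Λ := by
      intro i
      have e : P.yML (nC := nC) (i : ℕ) none
          = (P.st - 1 - P.m / R - P.eE i * (P.st / P.E)) / P.Λ := rfl
      rw [e]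
      apply div_le_div_of_nonneg_right _ hΛ.le
      have a1 := (eE_bounds P h i i.2).1
      have a2 := mul_le_mul_of_nonneg_right a1 hr
      have a3 : 0 ≤ P.m / R := by positivity
      linarith
    calc ∑ i : Fin (96 * q - 1), ∑ _y : Fin R, P.m / R * P.yML (nC := nC) (i : ℕ) none
        ≤ ∑ _i : Fin (96 * q - 1), ∑ _y : Fin R,
          P.m / R * ((P.st - P.Tlo * (P.st / P.E)) / P.Λ) :=
          Finset.sum_le_sum fun i _ => Finset.sum_le_sum fun y _ =>
            mul_le_mul_of_nonneg_left (h1 i) (by positivity)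
      _ = (96 * q - 1) * P.m * (P.st - P.Tlo * (P.st / P.E)) / P.Λ := by
          simp only [Finset.sum_const, Finset.card_univ, Fintype.card_fin, nsmul_eq_mul]
          rw [hcard]
          field_simp
      _ ≤ _ := h.l11
  · -- `H` class
    have e : ∑ c, P.M c * P.y (Sum.inr (Sum.inr b)) c none = 0 := by
      apply Finset.sum_eq_zero
      rintro (x | x | x) _
      · simp [PP.y, PP.yMH]
      · simp [PP.y, PP.yLH]
      · simp [PP.y]
    rw [e]
    exact ldt_nonneg P h

end ldt

end Pool.Agent.H28.HZ
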