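import Mathlib
import Pool.Agent.H28.HZ.Base1

/-! Module POS: the weights are nonnegative; fill and dump. -/

set_option autoImplicit false

namespace Pool.Agent.H28.HZ

open Finset Pool.Agent.H70.HY Pool.Agent.H28.HZ

section sched

variable {q R nL nC : ℕ} (P : PP q R nL nC) {δ : ℝ}

theorem pos_basic (h : P.Ok δ) : 0 < P.m ∧ 0 < P.Λ ∧ 0 < P.ht ∧ 0 < P.Tlo ∧
    P.hs + P.hm < P.Tlo ∧ P.m < P.W ∧ 0 ≤ (P.st : ℝ) / P.E ∧ 0 ≤ (P.e1 : ℝ) / P.E ∧ 0 < P.nG ∧
    0 < P.hs := by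
  have hq := h.q_pos
  have hR := h.R_two
  have hW := h.W_pos
  have hδ := h.δ_pos
  have hq' : (1 : ℝ) ≤ q := by exact_mod_cast hq
  have hR' : (2 : ℝ) ≤ R := by exact_mod_cast hR
  have hn : 0 < P.n := by
    have := h.labels
    have h1 : 1 ≤ 96 * q * P.W := Nat.mul_pos (by omega) hW
    omega
  have hn' : (0 : ℝ) < P.n := by exact_mod_cast hn
  have hδn : 0 < δ * P.n := by positivity
  have hm : 0 < P.m := by
    have h1 := h.M1
    have h2 : 0 < P.m / R := by linarith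
    have h3 : P.m = P.m / R * R := by field_simp
    rw [h3]
    positivity
  have hnL : (1 : ℝ) ≤ nL := by
    have := h.nL_ge
    exact_mod_cast (by omega : 1 ≤ nL)
  have hΛ : 0 < P.Λ := by
    unfold PP.Λ
    positivity
  have hht : 0 < P.ht := by
    have := h.M3
    linarith
  have hT : 0 < P.Tlo := by
    unfold PP.Tlo
    have := h.φ_pos
    have : (0 : ℝ) < 110 * q - 4 / 3 := by linarith
    positivity
  have hmT : P.hs + P.hm < P.Tlo := by
    have := h.t3
    unfold PP.Xhi at this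
    linarith
  have hmW : P.m < P.W := by
    have := h.m_lt
    linarith
  have hE : 0 ≤ P.E := by unfold PP.E; positivity
  have hG : 0 < P.nG := by
    unfold PP.nG
    have := h.nC_eq
    have h1 : (nC : ℝ) = nL + q + 1 := by exact_mod_cast this
    rw [h1]
    linarith
  have hhs : 0 < P.hs := by
    have := h.hs_gt
    have h2 : (0 : ℝ) ≤ P.W := by positivity
    linarith
  exact ⟨hm, hΛ, hht, hT, hmT, hmW, by positivity, by positivity, hG, hhs⟩

theorem pos_T2lo (h : P.Ok δ) : 0 < P.T2lo ∧ 0 ≤ 1 - P.hs / P.T2lo := by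
  have hs := (pos_basic P h).2.2.2.2.2.2.2.2.2
  have h1 : 0 < P.T2lo := by
    have := h.t4
    linarith
  refine ⟨h1, ?_⟩
  have h2 : P.hs / P.T2lo ≤ 1 := by
    rw [div_le_one h1]
    have := h.t4
    linarith
  linarith

theorem pos_rr (h : P.Ok δ) (i k : ℕ) (hi : i < 96 * q - 1) :
    (P.W - P.m) * (1 - P.hs / P.T2lo) ≤ P.rr i k ∧ 0 ≤ P.rr i k := by
  obtain ⟨hm, hΛ, hht, hTlo, hmT, hmW, _, _, _, hhs⟩ := pos_basic P h
  obtain ⟨h1, h2⟩ := pos_T2lo P h
  have h3 := T2_lo P h i hi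
  have h4 := nd_ge P h i k
  have h5 : P.hs / P.T2 i ≤ P.hs / P.T2lo := div_le_div_of_nonneg_left hhs.le h1 h3
  have h6 : 1 - P.hs / P.T2lo ≤ 1 - (if k % 2 = i % 2 then P.hs / P.T2 i else 0) := by
    split_ifs
    · linarith
    · have : 0 ≤ P.hs / P.T2lo := div_nonneg hhs.le h1.le
      linarith
  have h7 : (P.W - P.m) * (1 - P.hs / P.T2lo) ≤ P.rr i k := by
    unfold PP.rr
    exact mul_le_mul h4 h6 h2 (by linarith)
  exact ⟨h7, le_trans (mul_nonneg (by linarith) h2) h7⟩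

/-- POS: fill and dump. -/
theorem fill_A (h : P.Ok δ) (i k : ℕ) (hi : i < 96 * q - 1) :
    δ ≤ (P.T i - P.hs - P.hm) / P.ht * (P.rr i k / (P.T i - P.hs)) := by
  obtain ⟨hm, hΛ, hht, hTlo, hmT, hmW, _, _, _, _⟩ := pos_basic P h
  have h1 := T_lo P h i hi
  have h2 := T_hi P h i hi
  obtain ⟨h3, h3'⟩ := pos_rr P h i k hi
  have h4 := h.f1
  have h7 := h.hm_pos
  have h5 : 0 < P.ht + P.hm := by linarith
  have hδ := h.δ_pos
  have hT : 0 < P.T i - P.hs := by linarith
  refine h4.trans ?_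
  have e1 : (P.ht - P.Xhi) / P.ht ≤ (P.T i - P.hs - P.hm) / P.ht := by
    apply div_le_div_of_nonneg_right _ hht.le
    unfold PP.Xhi
    linarith
  have e2 : (P.W - P.m) * (1 - P.hs / P.T2lo) / (P.ht + P.hm) ≤ P.rr i k / (P.T i - P.hs) := by
    apply div_le_div₀ h3' h3 hT
    have : 0 < δ * P.ht := by positivity
    linarith
  have e3 : 0 ≤ (P.W - P.m) * (1 - P.hs / P.T2lo) / (P.ht + P.hm) :=
    div_nonneg (mul_nonneg (by linarith) (pos_T2lo P h).2) h5.le
  have e4 : 0 ≤ (P.T i - P.hs - P.hm) / P.ht := div_nonneg (by linarith) hht.le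
  exact mul_le_mul e1 e2 e3 e4

/-- POS. -/
theorem fill_hubL (h : P.Ok δ) (i : ℕ) (hi : i < 96 * q - 1) :
    δ ≤ (P.nd i (96 * q - 1) - (P.hs - (P.W + 1)) - P.X i) / P.Λ ∧ δ ≤ P.X i / P.ht := by
  obtain ⟨hm, hΛ, hht, hTlo, hmT, hmW, _, _, _, _⟩ := pos_basic P h
  have h1 := T_lo P h i hi
  have h2 := T_hi P h i hi
  have h3 := (nd_hub P h i hi).1
  constructor
  · refine h.f5.trans ?_
    apply div_le_div_of_nonneg_right _ hΛ.le
    unfold PP.X PP.Xhi
    linarith
  · rw [le_div_iff₀ hht]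
    unfold PP.X
    linarith

/-- POS. -/
theorem fill_E (h : P.Ok δ) (i : ℕ) (hi : i < 96 * q - 1) :
    δ ≤ (P.e1 - P.eE i * (P.e1 / P.E)) / P.Λ ∧
    δ ≤ (P.st - 1 - P.m / R - P.eE i * (P.st / P.E)) / P.Λ := by
  obtain ⟨hm, hΛ, hht, hTlo, hmT, hmW, hs, he, _, _⟩ := pos_basic P h
  have h1 := (eE_bounds P h i hi).2
  constructor
  · refine h.f6.trans ?_
    apply div_le_div_of_nonneg_right _ hΛ.le
    have := mul_le_mul_of_nonneg_right h1 he
    linarith
  · refine h.f4.trans ?_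
    apply div_le_div_of_nonneg_right _ hΛ.le
    have := mul_le_mul_of_nonneg_right h1 hs
    linarith

theorem pos_yMM (h : P.Ok δ) (a a' : AT (96 * q) R) (t : Option (JT (96 * q) nC)) :
    0 ≤ P.yMM a a' t := by
  obtain ⟨hm, hΛ, hht, hTlo, hmT, hmW, hs, he, _, _⟩ := pos_basic P h
  have hb := e_bounds P h a.1 a'.1
  have h1 : 0 ≤ P.e a.1 a'.1 / P.m := div_nonneg hb.1 hm.le
  have h2 : 0 ≤ 1 - P.e a.1 a'.1 / P.m := by
    have : P.e a.1 a'.1 / P.m ≤ 1 := by
      rw [div_le_one hm]; linarith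
    linarith
  rcases t with _ | (k | k) | l | u <;> simp only [PP.yMM]
  · split_ifs
    · exact le_rfl
    · exact mul_nonneg h1 hs
  · split_ifs
    · exact h2
    · exact le_rfl
  · split_ifs
    · exact h2
    · exact le_rfl
  · exact le_rfl
  · split_ifs
    · exact le_rfl
    · exact mul_nonneg h1 he

theorem pos_yML (h : P.Ok δ) (a : AT (96 * q) R) (t : Option (JT (96 * q) nC)) :
    0 ≤ P.yML a.1 t := by
  obtain ⟨hm, hΛ, hht, hTlo, hmT, hmW, hs, he, _, _⟩ := pos_basic P h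
  have hi : (a.1 : ℕ) < 96 * q - 1 := a.1.2
  have hδ := h.δ_pos
  have hE := fill_E P h a.1 hi
  have hH := fill_hubL P h a.1 hi
  rcases t with _ | (k | k) | l | u <;> simp only [PP.yML]
  · linarith
  · exact le_rfl
  · split_ifs with h1 h2
    · rw [h1]; linarith
    · have := nd_ge P h a.1 k
      exact div_nonneg (by linarith) hΛ.le
    · exact le_rfl
  · exact le_rfl
  · linarith

theorem pos_wH (h : P.Ok δ) (i k : ℕ) (hi : i < 96 * q - 1) (b : Fin 4) : 0 ≤ P.wH i b k := by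
  obtain ⟨hm, hΛ, hht, hTlo, hmT, hmW, hs, he, _, hhs⟩ := pos_basic P h
  have hT := T_lo P h i hi
  have hT2 := T2_lo P h i hi
  have hT2p := (pos_T2lo P h).1
  have hmp := h.hm_pos
  have hrr : 0 ≤ P.rr i k / (P.T i - P.hs) := div_nonneg (pos_rr P h i k hi).2 (by linarith)
  have hnd := nd_ge P h i k
  unfold PP.wH
  split_ifs with h1 h2 h3
  · exact hrr
  · exact mul_nonneg (div_nonneg (by linarith) hht.le) hrr
  · exact div_nonneg (by linarith) (by linarith)
  · exact le_rfl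

theorem pos_yMH (h : P.Ok δ) (a : AT (96 * q) R) (b : Fin 4) (t : Option (JT (96 * q) nC)) :
    0 ≤ P.yMH a.1 b t := by
  obtain ⟨hm, hΛ, hht, hTlo, hmT, hmW, hs, he, _, _⟩ := pos_basic P h
  have hi : (a.1 : ℕ) < 96 * q - 1 := a.1.2
  have hδ := h.δ_pos
  have hH := fill_hubL P h a.1 hi
  have hw : ∀ k : ℕ, 0 ≤ P.wH a.1 b k := fun k => pos_wH P h a.1 k hi b
  rcases t with _ | (k | k) | l | u <;> simp only [PP.yMH]
  · exact le_rfl
  · split_ifs with h1
    · exact hw k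
    · exact le_rfl
  · by_cases h0 : (k : ℕ) = 96 * q - 1
    · rw [if_pos h0]
      split_ifs with h1 h2
      · have := h.f8
        linarith
      · linarith
      · exact le_rfl
    · rw [if_neg h0]
      by_cases h2 : (a.1 : ℕ) < (k : ℕ) ∧ (k : ℕ) < 94 * q
      · rw [if_pos h2]
        exact hw k
      · rw [if_neg h2]
  · exact le_rfl
  · exact le_rfl

theorem pos_yLL (h : P.Ok δ) (t : Option (JT (96 * q) nC)) :
    0 ≤ P.yLL t := by
  have h1 := h.bE_nonneg
  have h2 := h.bF_nonneg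
  rcases t with _ | (k | k) | l | u <;> simp only [PP.yLL]
  · exact le_rfl
  · exact le_rfl
  · split_ifs
    · exact h2
    · exact le_rfl
  · split_ifs
    · exact h2
    · exact le_rfl
  · exact h1

theorem pos_yLH (h : P.Ok δ) (j : Fin nL) (b : Fin 4) (t : Option (JT (96 * q) nC)) :
    0 ≤ P.yLH j b t := by
  obtain ⟨hm, hΛ, hht, hTlo, hmT, hmW, hs, he, hG, _⟩ := pos_basic P h
  have h1 : 0 ≤ 1 / P.nG := by positivity
  have h2 : (0 : ℝ) ≤ 1 / (3 * q) := by positivity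
  have h3 : 0 ≤ 1 / P.nU := by
    have hU : 0 ≤ P.nU := by
      unfold PP.nU
      have h4 : (nC : ℝ) = nL + q + 1 := by exact_mod_cast h.nC_eq
      have h5 : (1 : ℝ) ≤ q := by exact_mod_cast h.q_pos
      rw [h4]
      linarith
    positivity
  rcases t with _ | (k | k) | l | u <;> simp only [PP.yLH]
  · exact le_rfl
  · exact le_rfl
  · split_ifs
    all_goals first | exact le_rfl | exact h1 | exact h3
  · split_ifs
    all_goals first | exact le_rfl | exact h1 | exact h2 | exact h3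
  · exact le_rfl

/-- POS: the weights are nonnegative. -/
theorem y_nonneg (h : P.Ok δ) (c c' : AT (96 * q) R ⊕ BT nL) (t : Option (JT (96 * q) nC)) :
    0 ≤ P.y c c' t := by
  rcases c with a | j | b <;> rcases c' with a' | j' | b' <;> simp only [PP.y]
  · exact pos_yMM P h a a' t
  · exact pos_yML P h a t
  · exact pos_yMH P h a b' t
  · exact pos_yML P h a' t
  · split_ifs
    · exact le_rfl
    · exact pos_yLL P h t
  · exact pos_yLH P h j b' t
  · exact pos_yMH P h a' b t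
  · exact pos_yLH P h j' b t
  · exact le_rfl

end sched

end Pool.Agent.H28.HZ
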