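import Mathlib
import Pool.Agent.H28.HZ.Sched

/-! Geometry conditions and the statement of the parameter module. -/

set_option autoImplicit false

namespace Pool.Agent.H28.HZ

open Finset Pool.Agent.H70.HY

/-- Numerical conditions of the geometry; `w0 .. w3` are the numbers of vertex labels of the four
classes `H`. -/
structure PP.GeoOk {q R nL nC : ℕ} (P : PP q R nL nC) (η : ℝ) (w0 w1 w2 w3 : ℕ) : Prop where
  KW_le : 96 * q * P.W ≤ P.p
  CW_le : nC * P.W ≤ P.p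
  p_le : P.p ≤ P.n
  fit_hub : 96 * q * P.W + w0 + w1 + w2 ≤ P.n - P.p
  fit_D : 94 * q * P.W + w0 + w1 + w2 + w3 ≤ P.n - P.p
  size_0 : P.hs + η * P.n + 1 ≤ w0
  size_1 : P.hs + η * P.n + 1 ≤ w1
  size_2 : P.ht + η * P.n + 1 ≤ w2
  size_3 : P.hm + η * P.n + 1 ≤ w3
  size_HH : 2 * P.hs + P.ht + P.hm + 4 * (η * P.n) + 1 ≤ (3 * q * P.W : ℕ)
  size_M : P.m + R * (η * P.n) + 1 ≤ P.W
  size_L : P.m + η * P.n + 1 ≤ P.W

end Pool.Agent.H28.HZ
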