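import Mathlib
import Pool.Agent.H28.HZ.Base1

/-! TIGHT: the tight classes see all the labels of their blocks. -/

set_option autoImplicit false
set_option linter.unusedSimpArgs false

namespace Pool.Agent.H28.HZ

open Finset Pool.Agent.H70.HY

section sched

variable {q R nL nC : ℕ} (P : PP q R nL nC) {δ : ℝ}

/-- TIGHT. -/
theorem tight (h : P.Ok δ) (a : AT (96 * q) R) (j : JT (96 * q) nC)
    (hj : match j with
      | Sum.inl (Sum.inl k) => (k : ℕ) < a.1
      | Sum.inl (Sum.inr k) => (a.1 : ℕ) < k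
      | Sum.inr (Sum.inl _) => False
      | Sum.inr (Sum.inr _) => True) :
    ∑ c, P.M c * P.y (Sum.inl a) c (some j) =
      (match j with
      | Sum.inr (Sum.inr _) => (P.e1 : ℝ)
      | _ => (P.W : ℝ)) := by
  have hq : (1 : ℝ) ≤ q := by exact_mod_cast h.q_pos
  have hi : (a.1 : ℕ) < 96 * q - 1 := a.1.2
  have hn : (0 : ℝ) < P.n := by
    have h1 := h.labels
    have h2 := h.W_pos
    have h3 := h.q_pos
    have : 0 < 96 * q * P.W := by positivity
    exact_mod_cast (by omega : 0 < P.n)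
  have hδn : 0 < δ * P.n := mul_pos h.δ_pos hn
  have hht : P.ht ≠ 0 := (lt_of_lt_of_le hδn h.M3).ne'
  have hhs0 : 0 < P.hs := lt_of_lt_of_le hδn h.M2
  have hhs : P.hs ≠ 0 := hhs0.ne'
  have hφ := h.φ_pos
  have hT2 : P.T2 a.1 ≠ 0 := by
    refine (lt_of_lt_of_le ?_ (T2_lo P h a.1 hi)).ne'
    exact mul_pos h.φ_pos (by linarith)
  have hT : P.T a.1 - P.hs ≠ 0 := by
    have h1 := T_lo P h a.1 hi
    have h2 := h.t4
    have h3 : P.T2lo < P.Tlo := by
      unfold PP.T2lo PP.Tlo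
      exact mul_lt_mul_of_pos_left (by linarith) hφ
    have : 0 < P.T a.1 - P.hs := by linarith
    exact this.ne'
  have hm : 0 < P.m := by
    have h2 := h.φ_le
    linarith
  have hnL : (0 : ℝ) < nL := by
    have h1 := h.nL_ge
    have h3 := h.q_pos
    exact_mod_cast (by omega : 0 < nL)
  have hΛ0 : (nL : ℝ) * P.m ≠ 0 := (mul_pos hnL hm).ne'
  have hLsum : ∀ z : ℝ, (nL : ℝ) * (P.m * (z / P.Λ)) = z := by
    intro z
    unfold PP.Λ
    field_simp
  have hHsum : ∀ k : ℕ, P.hs * P.wH a.1 0 k + P.hs * P.wH a.1 1 k + P.ht * P.wH a.1 2 k +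
      P.hm * P.wH a.1 3 k = P.nd a.1 k := by
    intro k
    have e2 : P.ht * P.wH a.1 2 k + P.hm * P.wH a.1 3 k = P.rr a.1 k := by
      have h1 : P.wH a.1 2 k =
          (P.T a.1 - P.hs - P.hm) / P.ht * (P.rr a.1 k / (P.T a.1 - P.hs)) := by
        simp [PP.wH]
      have h2 : P.wH a.1 3 k = P.rr a.1 k / (P.T a.1 - P.hs) := by simp [PP.wH]
      rw [h1, h2]
      field_simp
      ring
    have e1 : P.hs * P.wH a.1 0 k + P.hs * P.wH a.1 1 k =
        P.nd a.1 k * (if k % 2 = (a.1 : ℕ) % 2 then P.hs / P.T2 a.1 else 0) := by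
      by_cases hk : k % 2 = (a.1 : ℕ) % 2 <;> by_cases hi2 : (a.1 : ℕ) % 2 = 0 <;>
        simp [PP.wH, PP.un, hk, hi2] <;> field_simp
    have e3 : P.rr a.1 k = P.nd a.1 k -
        P.nd a.1 k * (if k % 2 = (a.1 : ℕ) % 2 then P.hs / P.T2 a.1 else 0) := by
      unfold PP.rr; ring
    linarith
  have hM : P.M (Sum.inr (Sum.inr 0)) = P.hs ∧ P.M (Sum.inr (Sum.inr 1)) = P.hs ∧
      P.M (Sum.inr (Sum.inr 2)) = P.ht ∧ P.M (Sum.inr (Sum.inr 3)) = P.hm := by
    simp [PP.M]
  obtain ⟨hM0, hM1, hM2, hM3⟩ := hM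
  rw [Fintype.sum_sum_type, Fintype.sum_sum_type, Fin.sum_univ_four, hM0, hM1, hM2, hM3]
  rcases j with (k | k) | (l | u)
  · simp only at hj
    have e1 : ∑ x : AT (96 * q) R, P.M (Sum.inl x) * P.y (Sum.inl a) (Sum.inl x)
        (some (Sum.inl (Sum.inl k))) = P.W - P.nd a.1 k := by
      have := msum_A P h a k
      rw [if_pos hj] at this
      exact this
    rw [e1]
    have e2 := hHsum k
    simp only [PP.M, PP.y, PP.yML, PP.yMH, hj, if_true, mul_zero, Finset.sum_const_zero]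
    linarith
  · simp only at hj
    have e1 : ∑ x : AT (96 * q) R, P.M (Sum.inl x) * P.y (Sum.inl a) (Sum.inl x)
        (some (Sum.inl (Sum.inr k))) = P.W - P.nd a.1 k := by
      have := msum_D P h a k
      rw [if_pos hj] at this
      exact this
    rw [e1]
    by_cases hk : (k : ℕ) = 96 * q - 1
    · have e2 := hLsum (P.nd a.1 k - (P.hs - (P.W + 1)) - P.X a.1)
      have e3 : P.hs * (1 - (P.W + 1) / P.hs) = P.hs - (P.W + 1) := by field_simp
      have e4 : P.ht * (P.X a.1 / P.ht) = P.X a.1 := by field_simp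
      simp only [PP.M, PP.y, PP.yML, PP.yMH, hk, if_true, mul_zero, Finset.sum_const, card_univ,
        Fintype.card_fin, nsmul_eq_mul] at e2 e3 e4 ⊢
      rw [e2]
      by_cases hi2 : (a.1 : ℕ) % 2 = 0
      · simp [PP.un, hi2, e3, e4]
      · simp [PP.un, hi2, e3, e4]
    · by_cases hk' : (k : ℕ) < 94 * q
      · have hk'' : ¬ (94 * q ≤ (k : ℕ)) := by omega
        have e2 := hHsum k
        simp only [PP.M, PP.y, PP.yML, PP.yMH, hk, hk', hk'', hj, if_true, if_false, and_false,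
          and_self, mul_zero, Finset.sum_const_zero]
        linarith
      · have hk'' : 94 * q ≤ (k : ℕ) := by omega
        have e2 := hLsum (P.nd a.1 k)
        simp only [PP.M, PP.y, PP.yML, PP.yMH, hk, hk', hk'', hj, if_true, if_false, and_false,
          and_self, mul_zero, Finset.sum_const, card_univ, Fintype.card_fin, nsmul_eq_mul]
        rw [e2]
        ring
  · exact absurd hj id
  · have e1 : ∑ x : AT (96 * q) R, P.M (Sum.inl x) * P.y (Sum.inl a) (Sum.inl x)
        (some (Sum.inr (Sum.inr u))) = P.eE a.1 * (P.e1 / P.E) := msum_E P h a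
    rw [e1]
    have e2 := hLsum (P.e1 - P.eE a.1 * (P.e1 / P.E))
    simp only [PP.M, PP.y, PP.yML, PP.yMH, mul_zero, Finset.sum_const, card_univ, Fintype.card_fin,
      nsmul_eq_mul]
    rw [e2]
    ring

end sched

end Pool.Agent.H28.HZ
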