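import Mathlib
import Pool.Agent.H28.HZ.Base1

/-! Module YAH: the weights tight - `H` sum to one. -/

set_option autoImplicit false

namespace Pool.Agent.H28.HZ

open Finset Pool.Agent.H70.HY

section yah

variable {q R nL nC : ℕ} (P : PP q R nL nC) {δ : ℝ}

theorem yah_n_pos (h : P.Ok δ) : (0 : ℝ) < P.n := by
  have hq := h.q_pos
  have hW := h.W_pos
  have hl := h.labels
  have h1 : 1 * 1 ≤ q * P.W := Nat.mul_le_mul hq hW
  have h2 : 0 < P.n := by nlinarith
  exact_mod_cast h2

theorem yah_ht_pos (h : P.Ok δ) : 0 < P.ht :=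
  lt_of_lt_of_le (mul_pos h.δ_pos (yah_n_pos P h)) h.M3

theorem yah_hs_pos (h : P.Ok δ) : 0 < P.hs :=
  lt_of_lt_of_le (mul_pos h.δ_pos (yah_n_pos P h)) h.M2

theorem yah_T2lo_pos (h : P.Ok δ) : 0 < P.T2lo := by
  have := yah_hs_pos P h
  have h4 := h.t4
  linarith

theorem yah_T2_pos (h : P.Ok δ) (i : ℕ) (hi : i < 96 * q - 1) : 0 < P.T2 i :=
  lt_of_lt_of_le (yah_T2lo_pos P h) (T2_lo P h i hi)

theorem yah_Ths_pos (h : P.Ok δ) (i : ℕ) (hi : i < 96 * q - 1) : 0 < P.T i - P.hs := by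
  have h1 := T_lo P h i hi
  have h2 : P.T2lo ≤ P.Tlo := by
    unfold PP.T2lo PP.Tlo
    have hq : (0 : ℝ) ≤ q := Nat.cast_nonneg q
    refine mul_le_mul_of_nonneg_left ?_ h.φ_pos.le
    linarith
  have h3 := yah_hs_pos P h
  have h4 := h.t4
  linarith

/-- Splitting of the sum over all the blocks. -/
theorem yah_split (f : Option (JT (96 * q) nC) → ℝ) (h0 : f none = 0)
    (hC : ∀ l : Fin nC, f (some (jC l)) = 0) (hE : f (some jE) = 0) :
    ∑ t, f t = ∑ k : Fin (96 * q), f (some (jA k)) + ∑ k : Fin (96 * q), f (some (jD k)) := by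
  rw [Fintype.sum_option, h0, zero_add, Fintype.sum_sum_type, Fintype.sum_sum_type,
    Fintype.sum_sum_type]
  have h1 : ∑ l : Fin nC, f (some (Sum.inr (Sum.inl l))) = 0 :=
    Finset.sum_eq_zero fun l _ => hC l
  have h2 : ∑ l : Unit, f (some (Sum.inr (Sum.inr l))) = 0 :=
    Finset.sum_eq_zero fun l _ => hE
  rw [h1, h2, add_zero, add_zero]

/-- The index of the hub. -/
theorem yah_hub (hq : 1 ≤ q) (x : ℝ) :
    ∑ k : Fin (96 * q), (if (k : ℕ) = 96 * q - 1 then x else 0) = x := by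
  have hk : 96 * q - 1 < 96 * q := by omega
  rw [Finset.sum_eq_single (⟨96 * q - 1, hk⟩ : Fin (96 * q))]
  · rw [if_pos rfl]
  · intro k _ hne
    rw [if_neg]
    intro h2
    exact hne (Fin.ext h2)
  · intro h2
    exact absurd (Finset.mem_univ _) h2

/-- The sum of the weights as a sum over the `H` positions. -/
theorem yah_sum (h : P.Ok δ) (i : ℕ) (b : Fin 4) :
    ∑ t, P.yMH (nC := nC) i b t =
      (∑ k ∈ range (96 * q), if P.hc i k then P.wH i b k else 0) +
        (if b = P.un i then 1 - (P.W + 1) / P.hs else if b = 2 then P.X i / P.ht else 0) := by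
  have hq := h.q_pos
  rw [yah_split (f := fun t => P.yMH i b t) rfl (fun _ => rfl) rfl, Finset.sum_range]
  set x : ℝ := if b = P.un i then 1 - (P.W + 1) / P.hs else if b = 2 then P.X i / P.ht else 0
    with hx
  have e2 : (x : ℝ) = ∑ k : Fin (96 * q), (if (k : ℕ) = 96 * q - 1 then x else 0) :=
    (yah_hub hq x).symm
  rw [e2, ← Finset.sum_add_distrib, ← Finset.sum_add_distrib]
  refine Finset.sum_congr rfl fun k _ => ?_
  show (if (k : ℕ) < i then P.wH i b k else 0) +
      (if (k : ℕ) = 96 * q - 1 then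
        (if b = P.un i then 1 - (P.W + 1) / P.hs else if b = 2 then P.X i / P.ht else 0)
      else if i < (k : ℕ) ∧ (k : ℕ) < 94 * q then P.wH i b k
      else 0) = _
  rw [← hx]
  have hcd : P.hc i k ↔ ((k : ℕ) < i ∨ (i < (k : ℕ) ∧ (k : ℕ) < 94 * q)) := Iff.rfl
  by_cases h1 : (k : ℕ) < i
  · have h2 : ¬ (i < (k : ℕ) ∧ (k : ℕ) < 94 * q) := by omega
    rw [if_pos (hcd.2 (Or.inl h1)), if_pos h1, if_neg h2]
  · by_cases h2 : i < (k : ℕ) ∧ (k : ℕ) < 94 * q
    · have h3 : ¬ ((k : ℕ) = 96 * q - 1) := by omega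
      rw [if_pos (hcd.2 (Or.inr h2)), if_neg h1, if_neg h3, if_pos h2, if_neg h3]
      ring
    · have h3 : ¬ ((k : ℕ) < i ∨ (i < (k : ℕ) ∧ (k : ℕ) < 94 * q)) := by omega
      rw [if_neg (fun h4 => h3 (hcd.1 h4)), if_neg h1, if_neg h2]

/-- The sum of the `rr`. -/
theorem yah_rr (h : P.Ok δ) (i : ℕ) (hi : i < 96 * q - 1) :
    (∑ k ∈ range (96 * q), if P.hc i k then P.rr i k else 0) = P.T i - P.hs := by
  have hT2 := yah_T2_pos P h i hi
  have e1 : ∀ k : ℕ, (if P.hc i k then P.rr i k else 0) =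
      (if P.hc i k then P.nd i k else 0) -
        P.hs / P.T2 i * (if P.hc i k ∧ k % 2 = i % 2 then P.nd i k else 0) := by
    intro k
    unfold PP.rr
    by_cases h1 : P.hc i k
    · by_cases h2 : k % 2 = i % 2
      · have h3 : P.hc i k ∧ k % 2 = i % 2 := ⟨h1, h2⟩
        rw [if_pos h1, if_pos h1, if_pos h2, if_pos h3]
        ring
      · have h3 : ¬ (P.hc i k ∧ k % 2 = i % 2) := fun h4 => h2 h4.2
        rw [if_pos h1, if_pos h1, if_neg h2, if_neg h3]
        ring
    · have h3 : ¬ (P.hc i k ∧ k % 2 = i % 2) := fun h4 => h1 h4.1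
      rw [if_neg h1, if_neg h1, if_neg h3]
      ring
  rw [Finset.sum_congr rfl (fun k _ => e1 k), Finset.sum_sub_distrib, ← Finset.mul_sum]
  have e2 : (∑ k ∈ range (96 * q), if P.hc i k then P.nd i k else 0) = P.T i := rfl
  have e3 : (∑ k ∈ range (96 * q), if P.hc i k ∧ k % 2 = i % 2 then P.nd i k else 0) = P.T2 i :=
    rfl
  rw [e2, e3, div_mul_cancel₀ _ hT2.ne']

/-- YAH. -/
theorem y_sum_AH (h : P.Ok δ) (a : AT (96 * q) R) (b : Fin 4) :
    ∑ t, P.yMH (nC := nC) a.1 b t + (if b = P.un a.1 then (P.W + 1) / P.hs else 0) = 1 := by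
  have hi : (a.1 : ℕ) < 96 * q - 1 := a.1.2
  generalize (a.1 : ℕ) = i at hi ⊢
  have hT2 := yah_T2_pos P h i hi
  have hTs := yah_Ths_pos P h i hi
  have htp := yah_ht_pos P h
  have hrr := yah_rr P h i hi
  rw [yah_sum P h i b]
  have hun : P.un i = 0 ∨ P.un i = 1 := by
    unfold PP.un
    split_ifs
    · exact Or.inl rfl
    · exact Or.inr rfl
  have hu2 : (2 : Fin 4) ≠ P.un i := by
    rcases hun with h1 | h1 <;> rw [h1] <;> decide
  have hu3 : (3 : Fin 4) ≠ P.un i := by
    rcases hun with h1 | h1 <;> rw [h1] <;> decide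
  by_cases hb3 : b = 3
  · subst hb3
    rw [if_neg hu3, if_neg (by decide : ¬ ((3 : Fin 4) = 2)), if_neg hu3, add_zero, add_zero]
    have e1 : ∀ k : ℕ, (if P.hc i k then P.wH i 3 k else 0) =
        (if P.hc i k then P.rr i k else 0) / (P.T i - P.hs) := by
      intro k
      have e2 : P.wH i 3 k = P.rr i k / (P.T i - P.hs) := by
        unfold PP.wH
        rw [if_pos rfl]
      rw [e2]
      by_cases h1 : P.hc i k
      · rw [if_pos h1, if_pos h1]
      · rw [if_neg h1, if_neg h1, zero_div]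
    rw [Finset.sum_congr rfl (fun k _ => e1 k), ← Finset.sum_div, hrr, div_self hTs.ne']
  · by_cases hb2 : b = 2
    · subst hb2
      rw [if_neg hu2, if_pos rfl, if_neg hu2, add_zero]
      have e1 : ∀ k : ℕ, (if P.hc i k then P.wH i 2 k else 0) =
          (P.T i - P.hs - P.hm) / P.ht * ((if P.hc i k then P.rr i k else 0) / (P.T i - P.hs)) := by
        intro k
        have e2 : P.wH i 2 k = (P.T i - P.hs - P.hm) / P.ht * (P.rr i k / (P.T i - P.hs)) := by
          unfold PP.wH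
          rw [if_neg (by decide : ¬ ((2 : Fin 4) = 3)), if_pos rfl]
        rw [e2]
        by_cases h1 : P.hc i k
        · rw [if_pos h1, if_pos h1]
        · rw [if_neg h1, if_neg h1, zero_div, mul_zero]
      rw [Finset.sum_congr rfl (fun k _ => e1 k), ← Finset.mul_sum, ← Finset.sum_div, hrr,
        div_self hTs.ne', mul_one]
      unfold PP.X
      rw [← add_div, div_eq_one_iff_eq htp.ne']
      ring
    · rw [if_neg hb2]
      have e2 : ∀ k : ℕ, P.wH i b k =
          if b ≠ P.un i ∧ k % 2 = i % 2 then P.nd i k / P.T2 i else 0 := by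
        intro k
        unfold PP.wH
        rw [if_neg hb3, if_neg hb2]
      by_cases hbu : b = P.un i
      · rw [if_pos hbu, if_pos hbu]
        have e3 : (∑ k ∈ range (96 * q), if P.hc i k then P.wH i b k else 0) = 0 := by
          refine Finset.sum_eq_zero fun k _ => ?_
          have h4 : ¬ (b ≠ P.un i ∧ k % 2 = i % 2) := fun h3 => h3.1 hbu
          rw [e2 k, if_neg h4, ite_self]
        rw [e3]
        ring
      · rw [if_neg hbu, if_neg hbu, add_zero, add_zero]
        have e3 : ∀ k : ℕ, (if P.hc i k then P.wH i b k else 0) =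
            (if P.hc i k ∧ k % 2 = i % 2 then P.nd i k else 0) / P.T2 i := by
          intro k
          rw [e2 k]
          by_cases h1 : P.hc i k
          · by_cases h2 : k % 2 = i % 2
            · have h4 : b ≠ P.un i ∧ k % 2 = i % 2 := ⟨hbu, h2⟩
              have h5 : P.hc i k ∧ k % 2 = i % 2 := ⟨h1, h2⟩
              rw [if_pos h1, if_pos h4, if_pos h5]
            · have h4 : ¬ (b ≠ P.un i ∧ k % 2 = i % 2) := fun h3 => h2 h3.2
              have h5 : ¬ (P.hc i k ∧ k % 2 = i % 2) := fun h3 => h2 h3.2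
              rw [if_pos h1, if_neg h4, if_neg h5, zero_div]
          · have h5 : ¬ (P.hc i k ∧ k % 2 = i % 2) := fun h3 => h1 h3.1
            rw [if_neg h1, if_neg h5, zero_div]
        have e4 : (∑ k ∈ range (96 * q), if P.hc i k ∧ k % 2 = i % 2 then P.nd i k else 0) =
            P.T2 i := rfl
        rw [Finset.sum_congr rfl (fun k _ => e3 k), ← Finset.sum_div, e4, div_self hT2.ne']

end yah

end Pool.Agent.H28.HZ
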