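import Mathlib
import Pool.Agent.H28.HZ.Base1

/-! Module YAL: the counting identity (helper93). -/

set_option autoImplicit false

namespace Pool.Agent.H28.HZ

open Finset Pool.Agent.H70.HY

variable {q R nL nC : ℕ} (P : PP q R nL nC) {δ : ℝ}

/-- reindexing of the positions different from `i` by the partner -/
private lemma yal_reindex (K i : ℕ) (hi : i + 1 < K) (F : ℕ → ℝ) :
    ∑ k ∈ (range K).erase i, F (if i < k then k - i - 1 else k + K - i - 1) =
      ∑ j ∈ range (K - 1), F j := by
  classical
  refine Finset.sum_nbij' (fun k => if i < k then k - i - 1 else k + K - i - 1)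
    (fun j => if j + i + 1 < K then j + i + 1 else j + i + 1 - K) ?_ ?_ ?_ ?_ ?_
  · intro k hk
    rw [Finset.mem_erase, Finset.mem_range] at hk
    rw [Finset.mem_range]
    by_cases h : i < k
    · simp only [h, if_true]; omega
    · simp only [h, if_false]; omega
  · intro j hj
    rw [Finset.mem_range] at hj
    rw [Finset.mem_erase, Finset.mem_range]
    show (if j + i + 1 < K then j + i + 1 else j + i + 1 - K) ≠ i ∧
      (if j + i + 1 < K then j + i + 1 else j + i + 1 - K) < K
    by_cases h : j + i + 1 < K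
    · rw [if_pos h]; constructor <;> omega
    · rw [if_neg h]; constructor <;> omega
  · intro k hk
    rw [Finset.mem_erase, Finset.mem_range] at hk
    by_cases h : i < k
    · simp only [h, if_true]
      have h1 : k - i - 1 + i + 1 < K := by omega
      rw [if_pos h1]; omega
    · simp only [h, if_false]
      have h1 : ¬ (k + K - i - 1 + i + 1 < K) := by omega
      rw [if_neg h1]; omega
  · intro j hj
    rw [Finset.mem_range] at hj
    by_cases h : j + i + 1 < K
    · simp only [h, if_true]
      have h1 : i < j + i + 1 := by omega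
      rw [if_pos h1]; omega
    · simp only [h, if_false]
      have h1 : ¬ (i < j + i + 1 - K) := by omega
      rw [if_neg h1]; omega
  · intro k _
    rfl

/-- the sum of all needs -/
private lemma yal_nd_sum (i : ℕ) (hi : i < 96 * q - 1) :
    ∑ k ∈ (range (96 * q)).erase i, P.nd i k =
      (96 * q - 1) * P.W - (96 * q - 1) * P.m + P.m / R + P.eE i := by
  classical
  have h1 : ∑ k ∈ (range (96 * q)).erase i, P.nd i k =
      ∑ j ∈ range (96 * q - 1), ((P.W : ℝ) - (P.m - P.e i j) *
        (if j = i then 1 - 1 / (R : ℝ) else 1)) :=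
    yal_reindex (96 * q) i (by omega) (fun j => (P.W : ℝ) - (P.m - P.e i j) *
        (if j = i then 1 - 1 / (R : ℝ) else 1))
  rw [h1]
  have h2 : ∀ j ∈ range (96 * q - 1), ((P.W : ℝ) - (P.m - P.e i j) *
        (if j = i then 1 - 1 / (R : ℝ) else 1)) =
      ((P.W : ℝ) - P.m) + P.e i j + (if j = i then (P.m - P.e i i) / R else 0) := by
    intro j _
    by_cases h : j = i
    · subst h
      rw [if_pos rfl, if_pos rfl]
      ring
    · rw [if_neg h, if_neg h]
      ring
  rw [Finset.sum_congr rfl h2, Finset.sum_add_distrib, Finset.sum_add_distrib, Finset.sum_const,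
    Finset.card_range, nsmul_eq_mul, Finset.sum_ite_eq', if_pos (Finset.mem_range.2 hi)]
  have h3 : ((96 * q - 1 : ℕ) : ℝ) = 96 * q - 1 := by
    rw [Nat.cast_sub (by omega)]
    push_cast
    ring
  rw [h3]
  unfold PP.eE
  ring

/-- YAL: the counting identity. -/
theorem y_sum_AL (h : P.Ok δ) (a : AT (96 * q) R) : ∑ t, P.yML (nC := nC) a.1 t = 1 := by
  classical
  have hi : (a.1 : ℕ) < 96 * q - 1 := a.1.2
  set i : ℕ := (a.1 : ℕ) with hidef
  have hm : 0 < P.m := by
    have := h.φ_pos
    have := h.φ_le
    linarith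
  have hnL : 6 ≤ nL := by
    have := h.nL_ge
    have := h.q_pos
    omega
  have hΛ : 0 < P.Λ := by
    unfold PP.Λ
    have : (0 : ℝ) < nL := by exact_mod_cast (by omega : 0 < nL)
    positivity
  have hE : P.E ≠ 0 := by
    intro h0
    have h1 := h.f4
    have h2 : (P.e1 : ℝ) + P.st = 0 := h0
    have h3 : (0 : ℝ) ≤ P.e1 := Nat.cast_nonneg _
    have h4 : (0 : ℝ) ≤ P.st := Nat.cast_nonneg _
    have h5 : (P.st : ℝ) = 0 := by linarith
    rw [h5] at h1
    have h6 : 0 ≤ P.m / R := by positivity
    have h7 : ((0 : ℝ) - 1 - P.m / R - P.eEhi * (0 / P.E)) / P.Λ ≤ 0 := by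
      rw [zero_div, mul_zero, sub_zero]
      exact div_nonpos_of_nonpos_of_nonneg (by linarith) hΛ.le
    linarith [h.δ_pos]
  -- the D sum
  have hD : ∑ k : Fin (96 * q), P.yML (nC := nC) i (some (Sum.inl (Sum.inr k))) =
      (∑ k ∈ (range (96 * q)).erase i, P.nd i k - P.T i - (P.hs - (P.W + 1)) - P.X i) / P.Λ := by
    have h1 : ∑ k : Fin (96 * q), P.yML (nC := nC) i (some (Sum.inl (Sum.inr k))) =
        ∑ k ∈ range (96 * q), (if k = 96 * q - 1 then
          (P.nd i k - (P.hs - (P.W + 1)) - P.X i) / P.Λ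
          else if i < k ∧ 94 * q ≤ k then P.nd i k / P.Λ else 0) :=
      (Finset.sum_range (fun k => (if k = 96 * q - 1 then
          (P.nd i k - (P.hs - (P.W + 1)) - P.X i) / P.Λ
          else if i < k ∧ 94 * q ≤ k then P.nd i k / P.Λ else 0))).symm
    rw [h1]
    have h2 : ∀ k ∈ range (96 * q), (if k = 96 * q - 1 then
          (P.nd i k - (P.hs - (P.W + 1)) - P.X i) / P.Λ
          else if i < k ∧ 94 * q ≤ k then P.nd i k / P.Λ else 0) =
        (if i < k ∧ 94 * q ≤ k then P.nd i k else 0) / P.Λ +
          (if k = 96 * q - 1 then (-(P.hs - (P.W + 1)) - P.X i) / P.Λ else 0) := by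
      intro k _
      by_cases hk : k = 96 * q - 1
      · have h3 : i < k ∧ 94 * q ≤ k := by
          have := h.q_pos
          constructor <;> omega
        rw [if_pos hk, if_pos hk, if_pos h3]
        ring
      · rw [if_neg hk, if_neg hk, add_zero]
        split_ifs
        · rfl
        · rw [zero_div]
    rw [Finset.sum_congr rfl h2, Finset.sum_add_distrib, ← Finset.sum_div, Finset.sum_ite_eq',
      if_pos (Finset.mem_range.2 (by omega)), ← add_div]
    congr 1
    have h3 : ∑ k ∈ (range (96 * q)).erase i, P.nd i k =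
        P.T i + ∑ k ∈ range (96 * q), (if i < k ∧ 94 * q ≤ k then P.nd i k else 0) := by
      unfold PP.T
      rw [← Finset.sum_add_distrib, ← Finset.add_sum_erase (range (96 * q)) _
        (Finset.mem_range.2 (show i < 96 * q by omega))]
      have e0 : (if P.hc i i then P.nd i i else 0) +
          (if i < i ∧ 94 * q ≤ i then P.nd i i else 0) = 0 := by
        have e1 : ¬ P.hc i i := by
          unfold PP.hc
          omega
        rw [if_neg e1, if_neg (by omega), add_zero]
      rw [e0, zero_add]
      refine Finset.sum_congr rfl fun k hk => ?_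
      have hne := (Finset.mem_erase.1 hk).1
      by_cases hh : P.hc i k
      · have e2 : ¬ (i < k ∧ 94 * q ≤ k) := by
          unfold PP.hc at hh
          omega
        rw [if_pos hh, if_neg e2, add_zero]
      · have e2 : i < k ∧ 94 * q ≤ k := by
          unfold PP.hc at hh
          omega
        rw [if_neg hh, if_pos e2, zero_add]
    rw [h3]
    ring
  have hsum : ∑ t, P.yML (nC := nC) i t =
      P.yML (nC := nC) i none + (∑ k : Fin (96 * q), P.yML (nC := nC) i (some (Sum.inl (Sum.inr k)))
        + (P.e1 - P.eE i * (P.e1 / P.E)) / P.Λ) := by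
    rw [Fintype.sum_option]
    congr 1
    rw [Fintype.sum_sum_type, Fintype.sum_sum_type, Fintype.sum_sum_type]
    have z1 : ∑ x : Fin (96 * q), P.yML (nC := nC) i (some (Sum.inl (Sum.inl x))) = 0 :=
      Finset.sum_eq_zero fun _ _ => rfl
    have z2 : ∑ x : Fin nC, P.yML (nC := nC) i (some (Sum.inr (Sum.inl x))) = 0 :=
      Finset.sum_eq_zero fun _ _ => rfl
    rw [z1, z2, zero_add, zero_add]
    congr 1
    simp [PP.yML]
  rw [hsum, hD, yal_nd_sum P i hi]
  have hn : P.yML (nC := nC) i none = (P.st - 1 - P.m / R - P.eE i * (P.st / P.E)) / P.Λ := rfl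
  rw [hn, ← add_div, ← add_div, div_eq_one_iff_eq hΛ.ne']
  have hs : P.eE i * (P.st / P.E) + P.eE i * (P.e1 / P.E) = P.eE i := by
    rw [← mul_add, ← add_div]
    have : (P.st : ℝ) + P.e1 = P.E := by unfold PP.E; ring
    rw [this, div_self hE, mul_one]
  have hl : (96 : ℝ) * q * P.W + P.st + P.e1 = P.n := by exact_mod_cast h.labels
  have hM := h.masses
  have hX : P.X i = P.ht + P.hm - (P.T i - P.hs) := rfl
  have hΛ' : P.Λ = nL * P.m := rfl
  rw [hX, hΛ']
  linarith

end Pool.Agent.H28.HZ
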