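import Mathlib
import Pool.Agent.H28.HZ.LDH
import Pool.Agent.H28.HZ.LDL
import Pool.Agent.H28.HZ.LDT
import Pool.Agent.H28.HZ.POS
import Pool.Agent.H28.HZ.TIGHT
import Pool.Agent.H28.HZ.YAH
import Pool.Agent.H28.HZ.YAL
import Pool.Agent.H28.HZ.Base1
import Pool.Agent.H28.HZ.Spec2

/-! MK: the schedule as a `GS`, and its geometry. -/

set_option autoImplicit false

namespace Pool.Agent.H28.HZ

open Finset Pool.Agent.H70.HY

variable {q R nL nC : ℕ} (P : PP q R nL nC) {δ : ℝ}

/-- number of labels of the blocks -/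
def PP.len : JT (96 * q) nC → ℕ
  | Sum.inr (Sum.inr _) => P.e1
  | _ => P.W

/-- tight blocks -/
def PP.el (_P : PP q R nL nC) (a : AT (96 * q) R) : JT (96 * q) nC → Prop
  | Sum.inl (Sum.inl k) => (k : ℕ) < a.1
  | Sum.inl (Sum.inr k) => (a.1 : ℕ) < k
  | Sum.inr (Sum.inl _) => False
  | Sum.inr (Sum.inr _) => True

/-- handled pairs -/
def PP.hd (_P : PP q R nL nC) : BT nL → BT nL → Prop
  | Sum.inl j, Sum.inl j' => j ≠ j'
  | Sum.inr _, Sum.inr _ => False
  | _, _ => True

theorem PP.e_symm (i j : ℕ) : P.e i j = P.e j i := by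
  unfold PP.e
  rw [show j + i + 1 = i + j + 1 by omega]

theorem PP.yMM_symm (a a' : AT (96 * q) R) (t : Option (JT (96 * q) nC)) :
    P.yMM a a' t = P.yMM a' a t := by
  have h1 : (a = a') ↔ (a' = a) := eq_comm
  have h2 : (a.1 : ℕ) + a'.1 = a'.1 + a.1 := by omega
  rcases t with _ | (k | k) | l | u <;> simp only [PP.yMM, P.e_symm a.1 a'.1, h2, ne_eq, h1]

theorem PP.y_symm (c c' : AT (96 * q) R ⊕ BT nL) (t : Option (JT (96 * q) nC)) :
    P.y c c' t = P.y c' c t := by
  rcases c with a | j | b <;> rcases c' with a' | j' | b' <;> simp only [PP.y]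
  · exact P.yMM_symm a a' t
  · by_cases h : j = j'
    · subst h; rfl
    · rw [if_neg h, if_neg (Ne.symm h)]

theorem PP.y_self (c : AT (96 * q) R ⊕ BT nL) (t : Option (JT (96 * q) nC)) :
    P.y c c t = 0 := by
  rcases c with a | j | b <;> rcases t with _ | (k | k) | l | u <;> simp [PP.y, PP.yMM]

theorem PP.sum_M (h : P.Ok δ) : ∑ c, P.M c = P.n := by
  have hq := h.q_pos
  have hR := h.R_two
  have hR0 : (R : ℝ) ≠ 0 := by
    have : 0 < R := by omega
    exact_mod_cast this.ne'
  rw [Fintype.sum_sum_type, Fintype.sum_sum_type]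
  have h1 : ∑ x : AT (96 * q) R, P.M (Sum.inl x) = (96 * q - 1) * P.m := by
    simp only [PP.M, Finset.sum_const, Finset.card_univ, Fintype.card_prod, Fintype.card_fin,
      nsmul_eq_mul]
    rw [Nat.cast_mul, Nat.cast_sub (by omega)]
    push_cast
    field_simp
  have h2 : ∑ x : Fin nL, P.M (Sum.inr (Sum.inl x)) = nL * P.m := by
    simp [PP.M]
  have h3 : ∑ x : Fin 4, P.M (Sum.inr (Sum.inr x)) = 2 * P.hs + P.ht + P.hm := by
    simp [PP.M, Fin.sum_univ_four]
    ring
  rw [h1, h2, h3, ← h.masses]
  ring

theorem PP.total (h : P.Ok δ) (a : AT (96 * q) R) :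
    (∑ j ∈ (Set.toFinite {j | P.el a j}).toFinset, P.len j) + (P.W + 1) + P.st = P.n + 1 := by
  classical
  have hq := h.q_pos
  have ha := a.1.2
  have h1 : ∑ j ∈ (Set.toFinite {j | P.el a j}).toFinset, P.len j =
      ∑ j, (if P.el a j then P.len j else 0) := by
    rw [← Finset.sum_filter]
    apply Finset.sum_congr
    · ext j; simp
    · intro _ _; rfl
  have h2 : ∑ k : Fin (96 * q), (if (k : ℕ) < a.1 then P.W else 0) = (a.1 : ℕ) * P.W := by
    rw [Fin.sum_univ_eq_sum_range (fun k => if k < (a.1 : ℕ) then P.W else 0) (96 * q),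
      ← Finset.sum_filter, Finset.sum_const, smul_eq_mul]
    congr 1
    have : (range (96 * q)).filter (fun k => k < (a.1 : ℕ)) = range (a.1 : ℕ) := by
      ext k; simp; omega
    rw [this, card_range]
  have h3 : ∑ k : Fin (96 * q), (if (a.1 : ℕ) < (k : ℕ) then P.W else 0) =
      (96 * q - 1 - (a.1 : ℕ)) * P.W := by
    rw [Fin.sum_univ_eq_sum_range (fun k => if (a.1 : ℕ) < k then P.W else 0) (96 * q),
      ← Finset.sum_filter, Finset.sum_const, smul_eq_mul]
    congr 1
    have : (range (96 * q)).filter (fun k => (a.1 : ℕ) < k) = Finset.Ico ((a.1 : ℕ) + 1) (96 * q) := by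
      ext k; simp; omega
    rw [this, Nat.card_Ico]
    omega
  have h4 : (a.1 : ℕ) * P.W + (96 * q - 1 - (a.1 : ℕ)) * P.W + P.W = 96 * q * P.W := by
    rw [← Nat.add_mul, ← Nat.succ_mul]
    congr 1
    omega
  rw [h1, Fintype.sum_sum_type, Fintype.sum_sum_type, Fintype.sum_sum_type]
  simp only [PP.el, PP.len, if_false, if_true, Finset.sum_const_zero]
  rw [h2, h3]
  simp only [Finset.univ_unique, Finset.sum_singleton]
  have := h.labels
  omega

/-- the hub `D (96q-1)` -/
def PP.hub (_P : PP q R nL nC) (hq : 1 ≤ q) : JT (96 * q) nC := jD ⟨96 * q - 1, by omega⟩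

/-- fill -/
def PP.fill (_P : PP q R nL nC) (hL : 0 < nL) : JT (96 * q) nC → BT nL
  | Sum.inl (Sum.inl _) => Sum.inr 2
  | Sum.inl (Sum.inr k) => if (k : ℕ) < 94 * q then Sum.inr 2 else Sum.inl ⟨0, hL⟩
  | Sum.inr _ => Sum.inl ⟨0, hL⟩

/-- dump -/
def PP.dmp (hq : 1 ≤ q) : JT (96 * q) nC → Option (JT (96 * q) nC)
  | Sum.inl (Sum.inl _) => some (P.hub hq)
  | Sum.inl (Sum.inr k) => if (k : ℕ) < 94 * q then some (P.hub hq) else none
  | Sum.inr _ => none

theorem PP.y_el (h : P.Ok δ) (a : AT (96 * q) R) (c : AT (96 * q) R ⊕ BT nL) (j : JT (96 * q) nC)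
    (hy : 0 < P.y (Sum.inl a) c (some j)) : P.el a j := by
  have hq := h.q_pos
  have ha := a.1.2
  rcases c with a' | j' | b' <;> rcases j with (k | k) | l | u <;> simp only [PP.y, PP.yMM,
    PP.yML, PP.yMH, PP.el, lt_self_iff_false] at hy ⊢
  · have ha' := a'.1.2
    split_ifs at hy with h1
    · omega
    · exact absurd hy (lt_irrefl _)
  · have ha' := a'.1.2
    split_ifs at hy with h1
    · omega
    · exact absurd hy (lt_irrefl _)
  · split_ifs at hy with h1 h2
    · omega
    · exact h2.1
    · exact absurd hy (lt_irrefl _)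
  · split_ifs at hy with h1
    · exact h1
    · exact absurd hy (lt_irrefl _)
  · split_ifs at hy with h1 h2 h3 h4
    · omega
    · omega
    · omega
    · exact h4.1
    · exact absurd hy (lt_irrefl _)

/-- The schedule. -/
noncomputable def mkGS (h : P.Ok δ) (w e' : ℕ) (hw : P.W = n2 (AT (96 * q) R) (BT nL) * w)
    (he : P.e1 = n2 (AT (96 * q) R) (BT nL) * e') :
    GS P.n δ (AT (96 * q) R) (BT nL) (JT (96 * q) nC) (Fin (96 * q - 1)) where
  M := P.M
  len := P.len
  l := fun j => match j with
    | Sum.inr (Sum.inr _) => e'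
    | _ => w
  z := P.W + 1
  star := P.st
  el := P.el
  zi := fun a => a.1
  unit := fun a => Sum.inr (P.un a.1)
  y := P.y
  yz := fun _ => (P.W + 1) / P.hs
  hd := P.hd
  fill := fun _ => P.fill (by have := h.nL_ge; have := h.q_pos; omega)
  dmp := fun _ => P.dmp h.q_pos
  hub := fun _ => P.hub h.q_pos
  len_eq := by
    rintro ((k | k) | l | u) <;> simp only [PP.len, hw, he]
  M_ge := by
    have hn : (0 : ℝ) ≤ P.n := Nat.cast_nonneg _
    have hR2 : (1 : ℝ) ≤ R := by
      have := h.R_two
      exact_mod_cast (by omega : 1 ≤ R)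
    have hm : 0 ≤ P.m := by
      have := h.φ_le; have := h.φ_pos; linarith
    rintro (a | j | b) <;> simp only [PP.M]
    · exact h.M1
    · exact h.M1.trans (div_le_self hm hR2)
    · split_ifs
      · exact h.M2
      · exact h.M3
      · exact h.M4
  M_sum := P.sum_M h
  hd_symm := by
    rintro (j | b) (j' | b') hh
    · exact Ne.symm hh
    · trivial
    · trivial
    · exact hh.elim
  hd_irrefl := by
    rintro (j | b) hh
    · exact hh rfl
    · exact hh
  y_nonneg := y_nonneg P h
  y_symm := P.y_symm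
  y_self := P.y_self
  y_sum_AA := fun a a' haa => y_sum_AA P h a a' haa
  y_sum_AB := by
    rintro a (j | b)
    · simp only [PP.y]
      rw [if_neg (by simp), add_zero]
      exact y_sum_AL P h a
    · simp only [PP.y, Sum.inr.injEq]
      exact y_sum_AH P h a b
  y_sum_BB := by
    rintro (j | b) (j' | b') hh
    · simp only [PP.y]
      rw [← y_sum_LL P h]
      exact Finset.sum_congr rfl (fun t _ => if_neg hh)
    · exact y_sum_LH P h j b'
    · exact y_sum_LH P h j' b
    · exact hh.elim
  y_not_hd := by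
    rintro (j | b) (j' | b') t hh
    · simp only [PP.hd, ne_eq, not_not] at hh
      simp only [PP.y, hh, if_true]
    · exact (hh trivial).elim
    · exact (hh trivial).elim
    · simp only [PP.y]
  y_el := P.y_el h
  tight := by
    rintro a ((k | k) | l | u) hj
    · have := tight P h a (Sum.inl (Sum.inl k)) hj
      simpa only [PP.len] using this
    · have := tight P h a (Sum.inl (Sum.inr k)) hj
      simpa only [PP.len] using this
    · exact hj.elim
    · have := tight P h a (Sum.inr (Sum.inr u)) hj
      simpa only [PP.len] using this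
  tightz := by
    intro a
    have hs : P.hs ≠ 0 := by
      have h1 := h.hs_gt
      have h2 : (0 : ℝ) ≤ P.W := Nat.cast_nonneg _
      intro h3
      rw [h3] at h1
      linarith
    have hun : P.un a.1 = 0 ∨ P.un a.1 = 1 := by
      unfold PP.un
      split_ifs
      · exact Or.inl rfl
      · exact Or.inr rfl
    simp only [PP.M, if_pos hun]
    push_cast
    field_simp
  total := P.total h
  load := by
    rintro (l | b) ((k | k) | c | u)
    · simpa only [PP.len] using load_L P h l (Sum.inl (Sum.inl k))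
    · simpa only [PP.len] using load_L P h l (Sum.inl (Sum.inr k))
    · simpa only [PP.len] using load_L P h l (Sum.inr (Sum.inl c))
    · simpa only [PP.len] using load_L P h l (Sum.inr (Sum.inr u))
    · simpa only [PP.len] using load_H P h b (Sum.inl (Sum.inl k))
    · simpa only [PP.len] using load_H P h b (Sum.inl (Sum.inr k))
    · simpa only [PP.len] using load_H P h b (Sum.inr (Sum.inl c))
    · simpa only [PP.len] using load_H P h b (Sum.inr (Sum.inr u))
  loadz := by
    intro b i
    have hR0 : (R : ℝ) ≠ 0 := by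
      have := h.R_two
      have : 0 < R := by omega
      exact_mod_cast this.ne'
    have hm : 0 ≤ P.m := by
      have := h.φ_le; have := h.φ_pos; linarith
    have hhs : 0 < P.hs := by
      have h1 := h.hs_gt
      have h2 : (0 : ℝ) ≤ P.W := Nat.cast_nonneg _
      linarith
    have hw0 : 0 ≤ ((P.W : ℝ) + 1) / P.hs := by positivity
    have h1 : ∑ a : AT (96 * q) R, (open Classical in if a.1 = i then
        P.M (Sum.inl a) * ((P.W + 1) / P.hs) else 0) = P.m * ((P.W + 1) / P.hs) := by
      rw [Fintype.sum_prod_type, Finset.sum_eq_single i]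
      · simp only [if_true, PP.M, Finset.sum_const, Finset.card_univ, Fintype.card_fin,
          nsmul_eq_mul]
        field_simp
      · intro b _ hb
        simp [hb]
      · intro hi
        exact absurd (Finset.mem_univ i) hi
    have h2 := h.l12
    rw [← h1] at h2
    refine le_trans (Finset.sum_le_sum (fun a _ => ?_)) (h2.trans (by push_cast; exact le_refl _))
    by_cases ha : a.1 = i
    · by_cases hb : (Sum.inr (P.un a.1) : BT nL) = b
      · rw [if_pos ⟨ha, hb⟩, if_pos ha]
      · rw [if_neg (fun hh => hb hh.2), if_pos ha]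
        exact mul_nonneg (div_nonneg hm (Nat.cast_nonneg _)) hw0
    · rw [if_neg (fun hh => ha hh.1), if_neg ha]
  loadT := fun b => load_T P h b
  fill_ge := by
    rintro a ((k | k) | l | u) hj
    · have h1 : (k : ℕ) < a.1 := hj
      simp only [PP.fill, PP.y, PP.yMH, PP.wH]
      rw [if_pos h1, if_neg (by decide), if_pos trivial]
      exact fill_A P h a.1 k a.1.2
    · have h1 : (a.1 : ℕ) < k := hj
      have hq := h.q_pos
      simp only [PP.fill]
      split_ifs with h2
      · simp only [PP.y, PP.yMH, PP.wH]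
        rw [if_neg (by omega), if_pos ⟨h1, h2⟩, if_neg (by decide), if_pos trivial]
        exact fill_A P h a.1 k a.1.2
      · simp only [PP.y, PP.yML]
        split_ifs with h3 h4
        · rw [h3]
          exact (fill_hubL P h a.1 a.1.2).1
        · refine h.f3.trans ?_
          have hΛ : 0 ≤ P.Λ := by
            have := h.φ_le; have := h.φ_pos
            unfold PP.Λ
            exact mul_nonneg (Nat.cast_nonneg _) (by linarith)
          exact div_le_div_of_nonneg_right (nd_ge P h a.1 k) hΛ
        · exact absurd ⟨h1, by omega⟩ h4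
    · exact hj.elim
    · simp only [PP.fill, PP.y, PP.yML]
      exact (fill_E P h a.1 a.1.2).1
  dmp_ge := by
    have hun2 : ∀ a : AT (96 * q) R, ¬ (2 : Fin 4) = P.un a.1 := by
      intro a
      unfold PP.un
      split_ifs <;> decide
    rintro a ((k | k) | l | u) hj
    · simp only [PP.fill, PP.dmp, PP.hub, PP.y, PP.yMH]
      rw [if_pos trivial, if_neg (hun2 a), if_pos trivial]
      exact (fill_hubL P h a.1 a.1.2).2
    · simp only [PP.fill, PP.dmp]
      split_ifs with h2
      · simp only [PP.hub, PP.y, PP.yMH]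
        rw [if_pos trivial, if_neg (hun2 a), if_pos trivial]
        exact (fill_hubL P h a.1 a.1.2).2
      · simp only [PP.y, PP.yML]
        exact (fill_E P h a.1 a.1.2).2
    · exact hj.elim
    · simp only [PP.fill, PP.dmp, PP.y, PP.yML]
      exact (fill_E P h a.1 a.1.2).2
  dmp_el := by
    have hq := h.q_pos
    have key : ∀ a : AT (96 * q) R, P.el a (P.hub h.q_pos) ∧ P.dmp h.q_pos (P.hub h.q_pos) = none := by
      intro a
      have ha := a.1.2
      constructor
      · show (a.1 : ℕ) < 96 * q - 1
        exact ha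
      · simp only [PP.hub, PP.dmp]
        rw [if_neg (by omega)]
    rintro a ((k | k) | l | u) j' hj hd
    · simp only [PP.dmp, Option.some.injEq] at hd
      rw [← hd]
      exact key a
    · simp only [PP.dmp] at hd
      split_ifs at hd with h2
      · simp only [Option.some.injEq] at hd
        rw [← hd]
        exact key a
    · exact hj.elim
    · simp [PP.dmp] at hd
  yz_ge := fun _ => h.f7
  hub_el := by
    have hq := h.q_pos
    intro a
    have ha := a.1.2
    constructor
    · show (a.1 : ℕ) < 96 * q - 1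
      exact ha
    · simp only [PP.hub, PP.dmp]
      rw [if_neg (by omega)]
  hub_ge := by
    intro a
    simp only [PP.hub, PP.y, PP.yMH]
    rw [if_pos trivial, if_pos trivial]
    exact h.f8

end Pool.Agent.H28.HZ
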