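import Mathlib
import Pool.Agent.H28.HZ.MK

/-! GEO: the geometry of the explicit schedule. -/

set_option autoImplicit false

namespace Pool.Agent.H28.HZ

open Finset Pool.Agent.H70.HY

variable {q R nL nC : ℕ} (P : PP q R nL nC) {δ : ℝ}

/-- The geometry. -/
theorem mkGeo (h : P.Ok δ) (w e' : ℕ) (hw : P.W = n2 (AT (96 * q) R) (BT nL) * w)
    (he : P.e1 = n2 (AT (96 * q) R) (BT nL) * e') (η : ℝ) (hη : 0 ≤ η) (w0 w1 w2 w3 : ℕ)
    (hg : P.GeoOk η w0 w1 w2 w3) : Nonempty (Geo2 (mkGS P h w e' hw he) P.p η) := by
  have hq := h.q_pos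
  have hnC := h.nC_eq
  have hnL := h.nL_ge
  have hn : (0 : ℝ) ≤ η * P.n := mul_nonneg hη (Nat.cast_nonneg _)
  have hR0 : (R : ℝ) ≠ 0 := by
    have := h.R_two
    have : 0 < R := by omega
    exact_mod_cast this.ne'
  have hfD := hg.fit_D
  have hfh := hg.fit_hub
  have hKW := hg.KW_le
  have hple := hg.p_le
  refine ⟨{
    W := P.W
    o := 3 * q
    off := fun b => if b = 0 then 0 else if b = 1 then w0 else if b = 2 then w0 + w1 else w0 + w1 + w2
    wid := fun b => if b = 0 then w0 else if b = 1 then w1 else if b = 2 then w2 else w3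
    W_pos := h.W_pos
    K_two := by omega
    zi_eq := fun a => rfl
    unit_eq := fun a => rfl
    z_eq := rfl
    len_A := fun k => rfl
    len_D := fun k => rfl
    len_C := fun l => rfl
    tot := by
      have := h.labels
      show 96 * q * P.W + P.st + P.e1 = P.n
      exact this
    KW_le := hg.KW_le
    CW_le := hg.CW_le
    p_le := hg.p_le
    nL_le := by omega
    o_le := by omega
    hd_LL := fun j j' => Iff.rfl
    hd_LH := fun j b => trivial
    hd_HH := fun b b' hh => hh
    el_A := fun a k hk => hk
    el_D := fun a k hk => hk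
    el_C := fun a l hl => hl
    use_LA := ?_
    use_LC := ?_
    use_UA0 := ?_
    use_UA1 := ?_
    use_UD0 := ?_
    use_UD1 := ?_
    use_HD := ?_
    use_HC := ?_
    use_HE := ?_
    use_HT := ?_
    H_fit := ?_
    H_fit0 := ?_
    off_0 := rfl
    off_1 := rfl
    off_2 := rfl
    off_3 := rfl
    size_M := ?_
    size_L := ?_
    size_H := ?_
    size_HH := ?_
    top := ?_ }⟩
  · -- use_LA
    intro j c k
    show P.y (Sum.inr (Sum.inl j)) c (some (jA k)) = 0
    rcases c with a | j' | b <;> simp [PP.y, PP.yML, PP.yLL, PP.yLH]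
  · -- use_LC
    intro j c l hy
    have hj := j.2
    change 0 < P.y (Sum.inr (Sum.inl j)) c (some (jC l)) at hy
    rcases c with a | j' | b
    · simp [PP.y, PP.yML] at hy
    · simp only [PP.y, PP.yLL] at hy
      split_ifs at hy with h1 h2
      · exact absurd hy (lt_irrefl _)
      · omega
      · exact absurd hy (lt_irrefl _)
    · simp only [PP.y, PP.yLH] at hy
      split_ifs at hy with h1 h2 h3 h4
      all_goals first | omega | exact absurd hy (lt_irrefl _)
  · -- use_UA0
    intro c k hy
    change 0 < P.y (Sum.inr (Sum.inr 0)) c (some (jA k)) at hy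
    rcases c with a | j' | b
    · simp only [PP.y, PP.yMH, PP.wH] at hy
      rw [if_neg (by decide : ¬ (0 : Fin 4) = 3), if_neg (by decide : ¬ (0 : Fin 4) = 2)] at hy
      split_ifs at hy with h1 h2
      · have h3 : (a.1 : ℕ) % 2 = 1 := by
          by_contra h4
          exact h2.1 (by unfold PP.un; rw [if_pos (by omega)])
        omega
      · exact absurd hy (lt_irrefl _)
      · exact absurd hy (lt_irrefl _)
    · simp [PP.y, PP.yLH] at hy
    · simp [PP.y] at hy
  · -- use_UA1
    intro c k hy
    change 0 < P.y (Sum.inr (Sum.inr 1)) c (some (jA k)) at hy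
    rcases c with a | j' | b
    · simp only [PP.y, PP.yMH, PP.wH] at hy
      rw [if_neg (by decide : ¬ (1 : Fin 4) = 3), if_neg (by decide : ¬ (1 : Fin 4) = 2)] at hy
      split_ifs at hy with h1 h2
      · have h3 : (a.1 : ℕ) % 2 = 0 := by
          by_contra h4
          exact h2.1 (by unfold PP.un; rw [if_neg h4])
        omega
      · exact absurd hy (lt_irrefl _)
      · exact absurd hy (lt_irrefl _)
    · simp [PP.y, PP.yLH] at hy
    · simp [PP.y] at hy
  · -- use_UD0
    intro c k hy
    change 0 < P.y (Sum.inr (Sum.inr 0)) c (some (jD k)) at hy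
    rcases c with a | j' | b
    · simp only [PP.y, PP.yMH, PP.wH] at hy
      by_cases hk : (k : ℕ) = 96 * q - 1
      · exact Or.inr hk
      left
      rw [if_neg hk, if_neg (by decide : ¬ (0 : Fin 4) = 3),
        if_neg (by decide : ¬ (0 : Fin 4) = 2)] at hy
      split_ifs at hy with h1 h2
      · have h3 : (a.1 : ℕ) % 2 = 1 := by
          by_contra h4
          exact h2.1 (by unfold PP.un; rw [if_pos (by omega)])
        omega
      · exact absurd hy (lt_irrefl _)
      · exact absurd hy (lt_irrefl _)
    · simp only [PP.y, PP.yLH] at hy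
      left
      split_ifs at hy with h1 h2 h3
      · exact absurd hy (lt_irrefl _)
      · have h4 := h3.2
        simp at h4
        omega
      · exact absurd hy (lt_irrefl _)
      · simp at h2
      · simp at h2
    · simp [PP.y] at hy
  · -- use_UD1
    intro c k hy
    change 0 < P.y (Sum.inr (Sum.inr 1)) c (some (jD k)) at hy
    rcases c with a | j' | b
    · simp only [PP.y, PP.yMH, PP.wH] at hy
      by_cases hk : (k : ℕ) = 96 * q - 1
      · exact Or.inr hk
      left
      rw [if_neg hk, if_neg (by decide : ¬ (1 : Fin 4) = 3),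
        if_neg (by decide : ¬ (1 : Fin 4) = 2)] at hy
      split_ifs at hy with h1 h2
      · have h3 : (a.1 : ℕ) % 2 = 0 := by
          by_contra h4
          exact h2.1 (by unfold PP.un; rw [if_neg h4])
        omega
      · exact absurd hy (lt_irrefl _)
      · exact absurd hy (lt_irrefl _)
    · simp only [PP.y, PP.yLH] at hy
      left
      split_ifs at hy with h1 h2 h3
      · exact absurd hy (lt_irrefl _)
      · have h4 := h3.2
        simp at h4
        omega
      · exact absurd hy (lt_irrefl _)
      · simp at h2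
      · simp at h2
    · simp [PP.y] at hy
  · -- use_HD
    intro b c k hy
    change 0 < P.y (Sum.inr (Sum.inr b)) c (some (jD k)) at hy
    show ((k : ℕ) + 1) * P.W + (if b = 0 then 0 else if b = 1 then w0 else if b = 2 then w0 + w1
      else w0 + w1 + w2) + (if b = 0 then w0 else if b = 1 then w1 else if b = 2 then w2 else w3)
      ≤ P.n - P.p
    have key : (k : ℕ) < 94 * q ∨ ((k : ℕ) = 96 * q - 1 ∧ b ≠ 3) := by
      rcases c with a | j' | b'
      · simp only [PP.y, PP.yMH] at hy
        split_ifs at hy with h1 h2 h3 h4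
        · refine Or.inr ⟨h1, ?_⟩
          rw [h2]
          unfold PP.un
          split_ifs <;> decide
        · refine Or.inr ⟨h1, ?_⟩
          rw [h3]
          decide
        · exact absurd hy (lt_irrefl _)
        · exact Or.inl h4.2
        · exact absurd hy (lt_irrefl _)
      · simp only [PP.y, PP.yLH] at hy
        split_ifs at hy with h1 h2 h3 h4
        · exact absurd hy (lt_irrefl _)
        · left; omega
        · exact absurd hy (lt_irrefl _)
        · exact Or.inl h4
        · exact absurd hy (lt_irrefl _)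
      · simp [PP.y] at hy
    have hoff : (if b = 0 then 0 else if b = 1 then w0 else if b = 2 then w0 + w1
        else w0 + w1 + w2) + (if b = 0 then w0 else if b = 1 then w1 else if b = 2 then w2 else w3)
        ≤ w0 + w1 + w2 + w3 ∧ (b ≠ 3 → (if b = 0 then 0 else if b = 1 then w0 else if b = 2 then
          w0 + w1 else w0 + w1 + w2) + (if b = 0 then w0 else if b = 1 then w1 else if b = 2 then w2
          else w3) ≤ w0 + w1 + w2) := by
      fin_cases b <;> simp <;> omega
    rcases key with hk | ⟨hk, hb⟩
    · have h1 : ((k : ℕ) + 1) * P.W ≤ 94 * q * P.W := Nat.mul_le_mul_right _ (by omega)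
      have := hoff.1
      omega
    · have h1 : ((k : ℕ) + 1) * P.W ≤ 96 * q * P.W := Nat.mul_le_mul_right _ (by omega)
      have := hoff.2 hb
      omega
  · -- use_HC
    intro b c l hy
    change 0 < P.y (Sum.inr (Sum.inr b)) c (some (jC l)) at hy
    rcases c with a | j' | b'
    · simp [PP.y, PP.yMH] at hy
    · simp only [PP.y, PP.yLH] at hy
      split_ifs at hy with h1 h2 h3 h4
      all_goals first | omega | exact absurd hy (lt_irrefl _)
    · simp [PP.y] at hy
  · -- use_HE
    intro b c
    show P.y (Sum.inr (Sum.inr b)) c (some jE) = 0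
    rcases c with a | j' | b' <;> simp [PP.y, PP.yMH, PP.yLH]
  · intro b c
    show P.y (Sum.inr (Sum.inr b)) c none = 0
    rcases c with a | j' | b' <;> simp [PP.y, PP.yMH, PP.yLH]
  · -- H_fit
    intro b
    show (if b = 0 then 0 else if b = 1 then w0 else if b = 2 then w0 + w1 else w0 + w1 + w2) +
      (if b = 0 then w0 else if b = 1 then w1 else if b = 2 then w2 else w3) ≤ P.n - P.p
    have h1 : (if b = 0 then 0 else if b = 1 then w0 else if b = 2 then w0 + w1
        else w0 + w1 + w2) + (if b = 0 then w0 else if b = 1 then w1 else if b = 2 then w2 else w3)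
        ≤ w0 + w1 + w2 + w3 := by
      fin_cases b <;> simp <;> omega
    omega
  · -- H_fit0
    show 96 * q * P.W + w0 + w1 ≤ P.n - P.p
    omega
  · -- size_M
    intro i
    show ∑ ρ : Fin R, (P.M (Sum.inl (i, ρ)) + η * P.n) + 1 ≤ (P.W : ℝ)
    have h1 : ∑ ρ : Fin R, (P.M (Sum.inl (i, ρ)) + η * P.n) = P.m + R * (η * P.n) := by
      rw [Finset.sum_add_distrib]
      simp only [PP.M, Finset.sum_const, Finset.card_univ, Fintype.card_fin, nsmul_eq_mul]
      field_simp
    rw [h1]
    exact hg.size_M
  · -- size_L
    intro j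
    exact hg.size_L
  · -- size_H
    intro b
    show P.M (Sum.inr (Sum.inr b)) + η * P.n + 1 ≤
      ((if b = 0 then w0 else if b = 1 then w1 else if b = 2 then w2 else w3 : ℕ) : ℝ)
    have h0 := hg.size_0
    have h1 := hg.size_1
    have h2 := hg.size_2
    have h3 := hg.size_3
    fin_cases b
    · simpa [PP.M] using h0
    · simpa [PP.M] using h1
    · simpa [PP.M] using h2
    · simpa [PP.M] using h3
  · -- size_HH
    show ∑ b, (P.M (Sum.inr (Sum.inr b)) + η * P.n) + 1 ≤ ((3 * q * P.W : ℕ) : ℝ)
    refine le_trans (le_of_eq ?_) hg.size_HH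
    rw [Fin.sum_univ_four]
    simp [PP.M]
    ring
  · -- top
    show P.p + 96 * q * P.W + (w0 + w1 + w2) + w3 ≤ P.n + 2 * P.p
    have h1 : 96 * q * P.W = 94 * q * P.W + 2 * q * P.W := by ring
    have h2 : 2 * q * P.W ≤ 96 * q * P.W := Nat.mul_le_mul_right _ (by omega)
    omega

end Pool.Agent.H28.HZ
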