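import Mathlib
import Pool.Agent.H28.HZ.Spec2

/-! Module PAR2: the parameters. -/

set_option autoImplicit false

namespace Pool.Agent.H28.HZ

open Finset Pool.Agent.H70.HY

/-! ### normalised quantities (all lengths divided by `W`) -/

/-- the normalised `hs + hm` -/
noncomputable def nHm (c ρ w : ℝ) : ℝ := 2499975 / 100000 + ρ - w + (c + 1898) / 10000000

/-- the normalised `hm` -/
noncomputable def nHn (c ρ w : ℝ) : ℝ := nHm c ρ w - 4001 / 4000 - w

/-- the normalised `φ` -/
noncomputable def nPh (c ρ w : ℝ) : ℝ :=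
  (16 + nHm c ρ w - 1920 / 10000000 - (9999999 / 10000000) / 2000 - 1 / 2000) / 2199

/-- the normalised `Tlo` -/
noncomputable def nTl (c ρ w : ℝ) : ℝ := nPh c ρ w * (2200 - 4 / 3)

/-- the load of `E` by tight groups -/
noncomputable def nMl (c ρ w r : ℝ) : ℝ :=
  1919 * ((c + 18 + ρ - r) - nTl c ρ w * ((c + 18 + ρ - r) / (c + 20 + ρ))) / (c - 21)

/-- ranges of the normalised parameters -/
structure NR (c ρ w r : ℝ) : Prop where
  c1 : 1924 ≤ c
  c2 : c ≤ 17480
  ρ1 : 0 ≤ ρ
  ρ2 : ρ ≤ 1001 / 1000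
  w1 : 0 < w
  w2 : w ≤ 1 / 1000000000
  r1 : 0 ≤ r
  r2 : r ≤ 1 / 1000000000

variable {c ρ w r : ℝ}

theorem nHm_bd (h : NR c ρ w r) : 25 ≤ nHm c ρ w ∧ nHm c ρ w ≤ 26.01 := by
  obtain ⟨c1, c2, ρ1, ρ2, w1, w2, r1, r2⟩ := h
  unfold nHm
  constructor <;> linarith

theorem nPh_bd (h : NR c ρ w r) : 0.0186 ≤ nPh c ρ w ∧ nPh c ρ w ≤ 0.01911 := by
  obtain ⟨c1, c2, ρ1, ρ2, w1, w2, r1, r2⟩ := h
  unfold nPh nHm
  constructor <;> linarith

theorem nTl_bd (h : NR c ρ w r) : 40.99 + ρ ≤ nTl c ρ w ∧ nTl c ρ w ≤ 41 + ρ := by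
  obtain ⟨c1, c2, ρ1, ρ2, w1, w2, r1, r2⟩ := h
  unfold nTl nPh nHm
  constructor <;> linarith

theorem nXh_bd (h : NR c ρ w r) : 16 + nHm c ρ w - nTl c ρ w ≤ 0.0077 ∧
    0 ≤ 16 + nHm c ρ w - nTl c ρ w := by
  obtain ⟨c1, c2, ρ1, ρ2, w1, w2, r1, r2⟩ := h
  unfold nTl nPh nHm
  constructor <;> linarith

/-- `(E - Tlo) / nL` is almost one -/
theorem nQ_bd (h : NR c ρ w r) : 1 ≤ (c + 20 + ρ - nTl c ρ w) / (c - 21) ∧
    (c + 20 + ρ - nTl c ρ w) / (c - 21) ≤ 1.00001 := by
  have hT := nTl_bd h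
  obtain ⟨c1, c2, ρ1, ρ2, w1, w2, r1, r2⟩ := h
  have hc : 0 < c - 21 := by linarith
  constructor
  · rw [le_div_iff₀ hc]; linarith
  · rw [div_le_iff₀ hc]; linarith

theorem nMl_eq (h : NR c ρ w r) : nMl c ρ w r =
    1919 * ((c + 18 + ρ - r) / (c + 20 + ρ)) * ((c + 20 + ρ - nTl c ρ w) / (c - 21)) := by
  obtain ⟨c1, c2, ρ1, ρ2, w1, w2, r1, r2⟩ := h
  have hc : c - 21 ≠ 0 := by
    have : 0 < c - 21 := by linarith
    exact this.ne'
  have hE : c + 20 + ρ ≠ 0 := by
    have : 0 < c + 20 + ρ := by linarith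
    exact this.ne'
  unfold nMl
  field_simp

theorem nratio_bd (h : NR c ρ w r) : 0.9989 ≤ (c + 18 + ρ - r) / (c + 20 + ρ) ∧
    (c + 18 + ρ - r) / (c + 20 + ρ) ≤ 1 := by
  obtain ⟨c1, c2, ρ1, ρ2, w1, w2, r1, r2⟩ := h
  have hE : 0 < c + 20 + ρ := by linarith
  constructor
  · rw [le_div_iff₀ hE]; linarith
  · rw [div_le_iff₀ hE]; linarith

theorem nMl_bd (h : NR c ρ w r) : 1916 ≤ nMl c ρ w r ∧ nMl c ρ w r ≤ 1919.02 ∧
    nMl c ρ w r ≤ 0.9872 * (c + 18 + ρ - r) := by
  have hq := nQ_bd h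
  have hr := nratio_bd h
  rw [nMl_eq h]
  refine ⟨?_, ?_, ?_⟩
  · have h1 : (1919 * 0.9989 : ℝ) ≤ 1919 * ((c + 18 + ρ - r) / (c + 20 + ρ)) := by linarith [hr.1]
    have h2 := mul_le_mul h1 hq.1 zero_le_one (by linarith [hr.1])
    linarith
  · have h1 : 1919 * ((c + 18 + ρ - r) / (c + 20 + ρ)) ≤ 1919 := by linarith [hr.2]
    have h2 := mul_le_mul h1 hq.2 (by linarith [hq.1]) (by norm_num)
    linarith
  · obtain ⟨c1, c2, ρ1, ρ2, w1, w2, r1, r2⟩ := h
    have hE : 0 < c + 20 + ρ := by linarith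
    have he1 : 0 < c + 18 + ρ - r := by linarith
    have h3 : 1919 / (c + 20 + ρ) ≤ 0.98715 := by
      rw [div_le_iff₀ hE]; linarith
    have h4 : 1919 * ((c + 18 + ρ - r) / (c + 20 + ρ)) ≤ 0.98715 * (c + 18 + ρ - r) := by
      have := mul_le_mul_of_nonneg_right h3 he1.le
      calc 1919 * ((c + 18 + ρ - r) / (c + 20 + ρ)) = 1919 / (c + 20 + ρ) * (c + 18 + ρ - r) := by
            ring
        _ ≤ _ := this
    have h2 := mul_le_mul h4 hq.2 (by linarith [hq.1]) (by linarith)
    calc _ ≤ 0.98715 * (c + 18 + ρ - r) * 1.00001 := h2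
      _ = (0.98715 * 1.00001) * (c + 18 + ρ - r) := by ring
      _ ≤ 0.9872 * (c + 18 + ρ - r) := mul_le_mul_of_nonneg_right (by norm_num) he1.le

/-- the normalised `Λ` -/
noncomputable def nLa (c : ℝ) : ℝ := (c - 21) * (9999999 / 10000000)

/-- `bE` -/
noncomputable def nbE (c ρ w r : ℝ) : ℝ := ((c + 18 + ρ - r) - 1 / 20 - nMl c ρ w r) / nLa c

/-- `bF` -/
noncomputable def nbF (c ρ w r : ℝ) : ℝ := (1 - nbE c ρ w r) / 1938

theorem nLa_bd (h : NR c ρ w r) : 1900 ≤ nLa c ∧ nLa c ≤ 17460 := by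
  obtain ⟨c1, c2, ρ1, ρ2, w1, w2, r1, r2⟩ := h
  unfold nLa
  constructor <;> linarith

theorem nbE_nonneg (h : NR c ρ w r) : 0 ≤ nbE c ρ w r := by
  have hM := (nMl_bd h).2.2
  have hL := (nLa_bd h).1
  obtain ⟨c1, c2, ρ1, ρ2, w1, w2, r1, r2⟩ := h
  unfold nbE
  apply div_nonneg _ (by linarith)
  linarith

theorem nbE_le (h : NR c ρ w r) : nbE c ρ w r ≤ 1 := by
  have hM := (nMl_bd h).1
  have hL := (nLa_bd h).1
  obtain ⟨c1, c2, ρ1, ρ2, w1, w2, r1, r2⟩ := h
  unfold nbE
  rw [div_le_one (by linarith)]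
  unfold nLa
  linarith

theorem nbF_nonneg (h : NR c ρ w r) : 0 ≤ nbF c ρ w r := by
  unfold nbF
  exact div_nonneg (by linarith [nbE_le h]) (by norm_num)

theorem nbF_le (h : NR c ρ w r) : nLa c * nbF c ρ w r ≤ 0.9705 := by
  have hM := (nMl_bd h).2.1
  have hL := (nLa_bd h).1
  have hL0 : nLa c ≠ 0 := by
    have : 0 < nLa c := by linarith
    exact this.ne'
  have e : nLa c * nbF c ρ w r = (nLa c - ((c + 18 + ρ - r) - 1 / 20 - nMl c ρ w r)) / 1938 := by
    unfold nbF nbE
    field_simp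
  rw [e]
  obtain ⟨c1, c2, ρ1, ρ2, w1, w2, r1, r2⟩ := h
  have : nLa c ≤ c - 21 := by unfold nLa; linarith
  linarith

/-- normalised `l2` -/
theorem n_l2 (h : NR c ρ w r) : (9999999 / 10000000) * (1920 * (1 / 10000000) +
    1920 * nPh c ρ w + (9999999 / 10000000) / 2000) / (nTl c ρ w - 4001 / 4000 - w) +
    120 * (9999999 / 10000000) / 1899 ≤ 0.99 := by
  have hT := (nTl_bd h).1
  have hP := (nPh_bd h).2
  have hρ := h.ρ1
  have hw := h.w2
  have h1 : (9999999 / 10000000) * (1920 * (1 / 10000000) +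
    1920 * nPh c ρ w + (9999999 / 10000000) / 2000) / (nTl c ρ w - 4001 / 4000 - w) ≤ 0.92 := by
    rw [div_le_iff₀ (by linarith)]
    linarith
  have h2 : (120 * (9999999 / 10000000) / 1899 : ℝ) ≤ 0.07 := by norm_num
  linarith

/-- normalised `l2u` -/
theorem n_l2u (h : NR c ρ w r) : (9999999 / 10000000) * (960 * (1 / 10000000) +
    960 * nPh c ρ w + (9999999 / 10000000) / 2000) / (nPh c ρ w * (1100 - 4 / 3)) ≤ 0.9 := by
  have hP := (nPh_bd h).1
  rw [div_le_iff₀ (by linarith)]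
  linarith

/-- normalised `l2v` -/
theorem n_l2v (h : NR c ρ w r) : (9999999 / 10000000) * (960 * (1 / 10000000) +
    800 * nPh c ρ w + (9999999 / 10000000) / 2000) / (nPh c ρ w * (1100 - 4 / 3)) +
    120 * (9999999 / 10000000) / 619 ≤ 0.96 := by
  have hP := (nPh_bd h).1
  have h1 : (9999999 / 10000000) * (960 * (1 / 10000000) +
    800 * nPh c ρ w + (9999999 / 10000000) / 2000) / (nPh c ρ w * (1100 - 4 / 3)) ≤ 0.76 := by
    rw [div_le_iff₀ (by linarith)]
    linarith
  have h2 : (120 * (9999999 / 10000000) / 619 : ℝ) ≤ 0.2 := by norm_num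
  linarith

/-- normalised `l11` -/
theorem n_l11 (h : NR c ρ w r) : 1919 * ((2 + r) - nTl c ρ w * ((2 + r) / (c + 20 + ρ))) / (c - 21)
    ≤ 0.9872 * (2 + r) := by
  have hq := nQ_bd h
  obtain ⟨c1, c2, ρ1, ρ2, w1, w2, r1, r2⟩ := h
  have hc : 0 < c - 21 := by linarith
  have hE : 0 < c + 20 + ρ := by linarith
  have h3 : 1919 / (c + 20 + ρ) ≤ 0.98715 := by
    rw [div_le_iff₀ hE]; linarith
  have e : 1919 * ((2 + r) - nTl c ρ w * ((2 + r) / (c + 20 + ρ))) / (c - 21) =
      1919 / (c + 20 + ρ) * ((c + 20 + ρ - nTl c ρ w) / (c - 21)) * (2 + r) := by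
    field_simp
  rw [e]
  apply mul_le_mul_of_nonneg_right _ (by linarith)
  have h2 := mul_le_mul h3 hq.2 (by linarith [hq.1]) (by norm_num)
  linarith

/-- normalised `eEhi / E` -/
theorem n_eE (h : NR c ρ w r) : nPh c ρ w * 2200 + (9999999 / 10000000) / 2 ≤
    0.03 * (c + 20 + ρ) := by
  have hP := (nPh_bd h).2
  obtain ⟨c1, c2, ρ1, ρ2, w1, w2, r1, r2⟩ := h
  linarith

/-! ### the parameters -/

/-- the parameters -/
noncomputable def par2P (n p W st e1 nC nL : ℕ) (bE bF : ℝ) : PP 20 2000 nL nC where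
  n := n
  p := p
  W := W
  st := st
  e1 := e1
  m := 9999999 / 10000000 * W
  hs := 4001 / 4000 * W + 1
  ht := 16 * W
  hm := n - 1919 * (9999999 / 10000000 * W) - nL * (9999999 / 10000000 * W) -
    2 * (4001 / 4000 * W + 1) - 16 * W
  φ := (4001 / 4000 * W + 1 + 16 * W +
    (n - 1919 * (9999999 / 10000000 * W) - nL * (9999999 / 10000000 * W) -
    2 * (4001 / 4000 * W + 1) - 16 * W) - (W - 9999999 / 10000000 * W) * 1920 -
    (9999999 / 10000000 * W) / 2000 - W / 2000) / 2199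
  bE := bE
  bF := bF

section Ok

variable {n p W st e1 nC nL : ℕ}

/-- hypotheses on the integers -/
structure NI (n p W st e1 nC nL : ℕ) (c ρ w r : ℝ) : Prop where
  nr : NR c ρ w r
  hc : (nC : ℝ) = c
  hL : nC = nL + 21
  hL2 : 120 ≤ nL
  hW : 1000000000 ≤ W
  hw : w * W = 1
  hn : (n : ℝ) = (c + 1940 + ρ) * W
  hst : (st : ℝ) = (2 + r) * W
  he1 : (e1 : ℝ) = (c + 18 + ρ - r) * W
  lab : 1920 * W + st + e1 = n

theorem NI.nL_eq (h : NI n p W st e1 nC nL c ρ w r) : (nL : ℝ) = c - 21 := by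
  have h1 := h.hL
  have h2 : (nC : ℝ) = nL + 21 := by exact_mod_cast h1
  rw [← h.hc, h2]; ring

theorem NI.Wpos (h : NI n p W st e1 nC nL c ρ w r) : (0 : ℝ) < W := by
  have : (1000000000 : ℝ) ≤ W := by exact_mod_cast h.hW
  linarith

theorem NI.dn (h : NI n p W st e1 nC nL c ρ w r) :
    1 / 10000000000000 * (n : ℝ) ≤ 1 / 500000000 * W := by
  have hW := h.Wpos
  rw [h.hn]
  have h1 : c + 1940 + ρ ≤ 20000 := by linarith [h.nr.c2, h.nr.ρ2]
  have h2 := mul_le_mul_of_nonneg_right h1 hW.le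
  linarith

theorem NI.hm_eq (h : NI n p W st e1 nC nL c ρ w r) (bE bF : ℝ) :
    (par2P n p W st e1 nC nL bE bF).hm = nHn c ρ w * W := by
  simp only [par2P]
  rw [h.nL_eq, h.hn]
  unfold nHn nHm
  linear_combination 2 * h.hw

theorem NI.φ_eq (h : NI n p W st e1 nC nL c ρ w r) (bE bF : ℝ) :
    (par2P n p W st e1 nC nL bE bF).φ = nPh c ρ w * W := by
  simp only [par2P]
  rw [h.nL_eq, h.hn]
  unfold nPh nHm
  linear_combination (1 / 2199) * h.hw

theorem NI.Tlo_eq (h : NI n p W st e1 nC nL c ρ w r) (bE bF : ℝ) :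
    (par2P n p W st e1 nC nL bE bF).Tlo = nTl c ρ w * W := by
  unfold PP.Tlo
  rw [h.φ_eq]
  unfold nTl
  push_cast
  ring

theorem NI.T2lo_eq (h : NI n p W st e1 nC nL c ρ w r) (bE bF : ℝ) :
    (par2P n p W st e1 nC nL bE bF).T2lo = nPh c ρ w * (1100 - 4 / 3) * W := by
  unfold PP.T2lo
  rw [h.φ_eq]
  push_cast
  ring

theorem NI.Xhi_eq (h : NI n p W st e1 nC nL c ρ w r) (bE bF : ℝ) :
    (par2P n p W st e1 nC nL bE bF).Xhi = (16 + nHm c ρ w - nTl c ρ w) * W := by
  unfold PP.Xhi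
  rw [h.hm_eq, h.Tlo_eq]
  simp only [par2P]
  unfold nHn
  linear_combination -h.hw

theorem NI.Λ_eq (h : NI n p W st e1 nC nL c ρ w r) (bE bF : ℝ) :
    (par2P n p W st e1 nC nL bE bF).Λ = nLa c * W := by
  unfold PP.Λ
  simp only [par2P]
  rw [h.nL_eq]
  unfold nLa
  ring

theorem NI.E_eq (h : NI n p W st e1 nC nL c ρ w r) (bE bF : ℝ) :
    (par2P n p W st e1 nC nL bE bF).E = (c + 20 + ρ) * W := by
  unfold PP.E
  simp only [par2P]
  rw [h.hst, h.he1]
  ring

theorem NI.nG_eq (h : NI n p W st e1 nC nL c ρ w r) (bE bF : ℝ) :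
    (par2P n p W st e1 nC nL bE bF).nG = 1899 := by
  unfold PP.nG
  rw [h.hc, h.nL_eq]
  push_cast
  ring

theorem NI.nU_eq (h : NI n p W st e1 nC nL c ρ w r) (bE bF : ℝ) :
    (par2P n p W st e1 nC nL bE bF).nU = 619 := by
  unfold PP.nU
  rw [h.hc, h.nL_eq]
  push_cast
  ring

theorem NI.s_le (h : NI n p W st e1 nC nL c ρ w r) (bE bF : ℝ) :
    (par2P n p W st e1 nC nL bE bF).s ≤ 43.02 * W := by
  have hW := h.Wpos
  unfold PP.s
  rw [h.hm_eq]
  simp only [par2P]
  have h1 := mul_le_mul_of_nonneg_right (nHm_bd h.nr).2 hW.le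
  have h2 := mul_le_mul_of_nonneg_right h.nr.w2 hW.le
  have e : nHn c ρ w * (W : ℝ) = nHm c ρ w * W - 4001 / 4000 * W - 1 := by
    unfold nHn
    linear_combination -h.hw
  rw [h.hw] at h2
  rw [e]
  linarith

theorem NI.ok (h : NI n p W st e1 nC nL c ρ w r) :
    (par2P n p W st e1 nC nL (nbE c ρ w r) (nbF c ρ w r)).Ok (1 / 10000000000000) := by
  have hW := h.Wpos
  have hW0 : (W : ℝ) ≠ 0 := hW.ne'
  have hdn := h.dn
  have hW9 : (1000000000 : ℝ) ≤ W := by exact_mod_cast h.hW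
  have hnr := h.nr
  obtain ⟨hH1, hH2⟩ := nHm_bd hnr
  obtain ⟨hP1, hP2⟩ := nPh_bd hnr
  obtain ⟨hT1, hT2⟩ := nTl_bd hnr
  obtain ⟨hX1, hX2⟩ := nXh_bd hnr
  obtain ⟨hL1, hL2⟩ := nLa_bd hnr
  have hLpos : 0 < nLa c := by linarith
  have hTpos : 0 < nTl c ρ w := by linarith [hnr.ρ1]
  have hc21 : 0 < c - 21 := by linarith [hnr.c1]
  have hEpos : 0 < c + 20 + ρ := by linarith [hnr.c1, hnr.ρ1]
  have e0 : ∀ P : PP 20 2000 nL nC, P = par2P n p W st e1 nC nL (nbE c ρ w r) (nbF c ρ w r) →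
      P.Ok (1 / 10000000000000) := by
    intro P hP
    have en : (P.n : ℝ) = n := by rw [hP]; rfl
    have eW : (P.W : ℝ) = W := by rw [hP]; rfl
    have est : (P.st : ℝ) = (2 + r) * W := by rw [hP]; exact h.hst
    have ee1 : (P.e1 : ℝ) = (c + 18 + ρ - r) * W := by rw [hP]; exact h.he1
    have em : P.m = 9999999 / 10000000 * W := by rw [hP]; rfl
    have ehs : P.hs = 4001 / 4000 * W + 1 := by rw [hP]; rfl
    have eht : P.ht = 16 * W := by rw [hP]; rfl
    have ehm : P.hm = nHn c ρ w * W := by rw [hP]; exact h.hm_eq _ _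
    have eHn : nHn c ρ w * (W : ℝ) = nHm c ρ w * W - 4001 / 4000 * W - 1 := by
      unfold nHn
      linear_combination -h.hw
    have eT2 : P.T2lo = nPh c ρ w * (1100 - 4 / 3) * W := by rw [hP]; exact h.T2lo_eq _ _
    have eU : P.nU = 619 := by rw [hP]; exact h.nU_eq _ _
    have eφ : P.φ = nPh c ρ w * W := by rw [hP]; exact h.φ_eq _ _
    have ebE : P.bE = nbE c ρ w r := by rw [hP]; rfl
    have ebF : P.bF = nbF c ρ w r := by rw [hP]; rfl
    have eT : P.Tlo = nTl c ρ w * W := by rw [hP]; exact h.Tlo_eq _ _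
    have eX : P.Xhi = (16 + nHm c ρ w - nTl c ρ w) * W := by rw [hP]; exact h.Xhi_eq _ _
    have eL : P.Λ = nLa c * W := by rw [hP]; exact h.Λ_eq _ _
    have eE : P.E = (c + 20 + ρ) * W := by rw [hP]; exact h.E_eq _ _
    have eG : P.nG = 1899 := by rw [hP]; exact h.nG_eq _ _
    have es : P.s ≤ 43.02 * W := by rw [hP]; exact h.s_le _ _
    have hmass : (96 * ((20 : ℕ) : ℝ) - 1) * P.m + nL * P.m + 2 * P.hs + P.ht + P.hm = P.n := by
      rw [hP]
      simp only [par2P]
      push_cast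
      ring
    have hφdef : P.φ * 2199 =
        P.hs + P.ht + P.hm - (W - P.m) * 1920 - P.m / 2000 - W / 2000 := by
      rw [hP]
      simp only [par2P]
      ring
    have eLm : (nL : ℝ) * P.m = nLa c * W := by
      rw [h.nL_eq, em]; unfold nLa; ring
    -- products with `W`
    have pH1 := mul_le_mul_of_nonneg_right hH1 hW.le
    have pH2 := mul_le_mul_of_nonneg_right hH2 hW.le
    have pP1 := mul_le_mul_of_nonneg_right hP1 hW.le
    have pP2 := mul_le_mul_of_nonneg_right hP2 hW.le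
    have pX1 := mul_le_mul_of_nonneg_right hX1 hW.le
    have pX2 := mul_nonneg hX2 hW.le
    have pw2 : (1 : ℝ) ≤ 1 / 1000000000 * W := by linarith
    refine
      { δ_pos := by norm_num
        q_pos := by norm_num
        R_two := by norm_num
        nC_eq := by have := h.hL; omega
        nL_ge := by have := h.hL2; omega
        W_pos := by rw [hP]; have := h.hW; simp only [par2P]; omega
        labels := by rw [hP]; have := h.lab; simp only [par2P]; omega
        masses := hmass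
        φ_pos := by rw [eφ]; exact mul_pos (by linarith) hW
        φ_le := by rw [eφ, em]; linarith
        m_lt := by rw [em, en, eW]; linarith
        hs_gt := by rw [eW, ehs]; linarith
        hm_pos := by rw [ehm, eHn]; linarith
        t1 := ?_
        t3 := by rw [eX, eht]; linarith
        t4 := by rw [ehs, eT2]; linarith
        l2 := ?_
        l2u := ?_
        l2v := ?_
        l3 := ?_
        l4 := ?_
        l6 := ?_
        l7 := ?_
        l8 := ?_
        l9 := ?_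
        l10 := ?_
        l11 := ?_
        l12 := ?_
        bE_nonneg := by rw [ebE]; exact nbE_nonneg hnr
        bF_nonneg := by rw [ebF]; exact nbF_nonneg hnr
        b_sum := ?_
        M1 := by rw [em, en]; push_cast; linarith
        M2 := by rw [ehs, en]; linarith
        M3 := by rw [eht, en]; linarith
        M4 := by rw [ehm, eHn, en]; linarith
        f1 := ?_
        f3 := ?_
        f4 := ?_
        f5 := ?_
        f6 := ?_
        f7 := ?_
        f8 := ?_ }
    · -- t1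
      rw [eW]
      have e1 : (W - P.m) * (96 * ((20 : ℕ) : ℝ)) + P.φ * (110 * ((20 : ℕ) : ℝ) - 1) +
          P.m / ((2000 : ℕ) : ℝ) + 1 / 10000000000000 * P.ht =
          (W - P.m) * 1920 + P.φ * 2199 + P.m / 2000 + 1 / 10000000000000 * P.ht := by
        push_cast; ring
      rw [e1, hφdef, eht]
      linarith
    · -- l2
      rw [eW, en, eT, eG, eφ, em, ehs]
      have key := n_l2 hnr
      have eden : nTl c ρ w * (W : ℝ) - (4001 / 4000 * W + 1) =
          (nTl c ρ w - 4001 / 4000 - w) * W := by linear_combination h.hw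
      have hden : nTl c ρ w - 4001 / 4000 - w ≠ 0 := by
        have : 0 < nTl c ρ w - 4001 / 4000 - w := by linarith [hnr.w2, hnr.ρ1]
        exact this.ne'
      rw [eden]
      have e1 : 9999999 / 10000000 * (W : ℝ) * (96 * ((20 : ℕ) : ℝ) * (W - 9999999 / 10000000 * W)
          + 96 * ((20 : ℕ) : ℝ) * (nPh c ρ w * W) + 9999999 / 10000000 * W / ((2000 : ℕ) : ℝ)) /
          ((nTl c ρ w - 4001 / 4000 - w) * W) +
          6 * ((20 : ℕ) : ℝ) * (9999999 / 10000000 * W) / 1899 =
          ((9999999 / 10000000) * (1920 * (1 / 10000000) +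
            1920 * nPh c ρ w + (9999999 / 10000000) / 2000) / (nTl c ρ w - 4001 / 4000 - w) +
            120 * (9999999 / 10000000) / 1899) * W := by
        generalize nTl c ρ w - 4001 / 4000 - w = D at hden ⊢
        push_cast
        field_simp
        ring
      rw [e1]
      have := mul_le_mul_of_nonneg_right key hW.le
      linarith
    · -- l2u
      rw [eW, en, eT2, eφ, em]
      have key := n_l2u hnr
      have hPh0 : nPh c ρ w * (1100 - 4 / 3) ≠ 0 := by
        have : 0 < nPh c ρ w * (1100 - 4 / 3) := mul_pos (by linarith) (by norm_num)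
        exact this.ne'
      have e1 : 9999999 / 10000000 * (W : ℝ) * (48 * ((20 : ℕ) : ℝ) * (W - 9999999 / 10000000 * W)
          + 48 * ((20 : ℕ) : ℝ) * (nPh c ρ w * W) + 9999999 / 10000000 * W / ((2000 : ℕ) : ℝ)) /
          (nPh c ρ w * (1100 - 4 / 3) * W) =
          ((9999999 / 10000000) * (960 * (1 / 10000000) +
            960 * nPh c ρ w + (9999999 / 10000000) / 2000) / (nPh c ρ w * (1100 - 4 / 3))) * W := by
        rw [div_eq_iff (mul_ne_zero hPh0 hW0)]
        generalize hD : nPh c ρ w * (1100 - 4 / 3) = D at hPh0 ⊢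
        push_cast
        field_simp
        ring
      rw [e1]
      have := mul_le_mul_of_nonneg_right key hW.le
      linarith
    · -- l2v
      rw [eW, en, eT2, eφ, em, eU]
      have key := n_l2v hnr
      have hPh0 : nPh c ρ w * (1100 - 4 / 3) ≠ 0 := by
        have : 0 < nPh c ρ w * (1100 - 4 / 3) := mul_pos (by linarith) (by norm_num)
        exact this.ne'
      have e1 : 9999999 / 10000000 * (W : ℝ) * (48 * ((20 : ℕ) : ℝ) * (W - 9999999 / 10000000 * W)
          + 40 * ((20 : ℕ) : ℝ) * (nPh c ρ w * W) + 9999999 / 10000000 * W / ((2000 : ℕ) : ℝ)) /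
          (nPh c ρ w * (1100 - 4 / 3) * W) =
          ((9999999 / 10000000) * (960 * (1 / 10000000) +
            800 * nPh c ρ w + (9999999 / 10000000) / 2000) / (nPh c ρ w * (1100 - 4 / 3))) * W := by
        rw [div_eq_iff (mul_ne_zero hPh0 hW0)]
        generalize hD : nPh c ρ w * (1100 - 4 / 3) = D at hPh0 ⊢
        push_cast
        field_simp
        ring
      rw [e1]
      have := mul_le_mul_of_nonneg_right key hW.le
      push_cast
      linarith
    · -- l3
      rw [eW, en, em, ehs]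
      have hhs : (0 : ℝ) < 4001 / 4000 * W + 1 := by positivity
      have h1 : 1 - ((W : ℝ) + 1) / (4001 / 4000 * W + 1) ≤ 1 / 4001 := by
        have : (4000 / 4001 : ℝ) ≤ ((W : ℝ) + 1) / (4001 / 4000 * W + 1) := by
          rw [le_div_iff₀ hhs]; linarith
        linarith
      have h2 : 48 * ((20 : ℕ) : ℝ) * (9999999 / 10000000 * W) *
          (1 - ((W : ℝ) + 1) / (4001 / 4000 * W + 1)) ≤
          48 * ((20 : ℕ) : ℝ) * (9999999 / 10000000 * W) * (1 / 4001) := by
        apply mul_le_mul_of_nonneg_left h1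
        push_cast
        positivity
      refine le_trans h2 ?_
      push_cast
      linarith
    · -- l4
      rw [eW, en, em, eX, eht]
      have e1 : (96 * ((20 : ℕ) : ℝ) - 1) * (9999999 / 10000000 * W) *
          ((16 + nHm c ρ w - nTl c ρ w) * W / (16 * W)) =
          1919 * (9999999 / 10000000) / 16 * ((16 + nHm c ρ w - nTl c ρ w) * W) := by
        push_cast
        field_simp
        ring
      rw [e1]
      linarith
    · -- l6
      rw [eW, en, eLm, ebF, eG, eU, eht, ehm, ehs, eHn]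
      have h1 := mul_le_mul_of_nonneg_right (nbF_le hnr) hW.le
      have e1 : nLa c * W * nbF c ρ w r = nLa c * nbF c ρ w r * W := by ring
      rw [e1]
      linarith
    · -- l7
      rw [eW, en]
      have h2 : P.s / (3 * ((20 : ℕ) : ℝ)) ≤ 43.02 * W / (3 * ((20 : ℕ) : ℝ)) :=
        div_le_div_of_nonneg_right es (by positivity)
      refine le_trans h2 ?_
      push_cast
      linarith
    · -- l8
      rw [eW, en, eLm, ebF, eL, em]
      have h1 := mul_le_mul_of_nonneg_right (nbF_le hnr) hW.le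
      have e1 : nLa c * W * nbF c ρ w r = nLa c * nbF c ρ w r * W := by ring
      rw [e1]
      have h2 : 9999999 / 10000000 * (W : ℝ) * (96 * ((20 : ℕ) : ℝ) * (W - 9999999 / 10000000 * W) +
          9999999 / 10000000 * W / ((2000 : ℕ) : ℝ)) / (nLa c * W) ≤ 0.001 * W := by
        rw [div_le_iff₀ (mul_pos hLpos hW)]
        push_cast
        have h3 : 1900 * ((W : ℝ) * W) ≤ nLa c * (W * W) :=
          mul_le_mul_of_nonneg_right hL1 (by positivity)
        have h4 : (0 : ℝ) ≤ W * W := by positivity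
        linarith
      linarith
    · -- l9
      rw [eW, en, eL, em]
      have h2 : (96 * ((20 : ℕ) : ℝ) - 1) * (9999999 / 10000000 * W) *
          (W - 9999999 / 10000000 * W / 2 + 9999999 / 10000000 * W / ((2000 : ℕ) : ℝ)) /
          (nLa c * W) ≤ 0.9 * W := by
        rw [div_le_iff₀ (mul_pos hLpos hW)]
        push_cast
        have h3 : 1900 * ((W : ℝ) * W) ≤ nLa c * (W * W) :=
          mul_le_mul_of_nonneg_right hL1 (by positivity)
        have h4 : (0 : ℝ) ≤ W * W := by positivity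
        linarith
      linarith
    · -- l10
      rw [en, eLm, ebE, eL, em, eT, eE, ee1]
      have e1 : nLa c * W * nbE c ρ w r = ((c + 18 + ρ - r) - 1 / 20 - nMl c ρ w r) * W := by
        unfold nbE
        field_simp
      have e2 : (96 * ((20 : ℕ) : ℝ) - 1) * (9999999 / 10000000 * W) * ((c + 18 + ρ - r) * W -
          nTl c ρ w * W * ((c + 18 + ρ - r) * W / ((c + 20 + ρ) * W))) / (nLa c * W) =
          nMl c ρ w r * W := by
        unfold nMl nLa
        push_cast
        field_simp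
        ring
      rw [e1, e2]
      linarith
    · -- l11
      rw [en, eL, em, eT, eE, est]
      have key := n_l11 hnr
      have e2 : (96 * ((20 : ℕ) : ℝ) - 1) * (9999999 / 10000000 * W) * ((2 + r) * W -
          nTl c ρ w * W * ((2 + r) * W / ((c + 20 + ρ) * W))) / (nLa c * W) =
          1919 * ((2 + r) - nTl c ρ w * ((2 + r) / (c + 20 + ρ))) / (c - 21) * W := by
        unfold nLa
        push_cast
        field_simp
        ring
      rw [e2]
      have h1 := mul_le_mul_of_nonneg_right key hW.le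
      have h2 : 0 ≤ r * W := mul_nonneg hnr.r1 hW.le
      linarith
    · -- l12
      rw [eW, en, em, ehs]
      have hhs : (0 : ℝ) < 4001 / 4000 * W + 1 := by positivity
      have h1 : ((W : ℝ) + 1) / (4001 / 4000 * W + 1) ≤ 1 := by
        rw [div_le_one hhs]; linarith
      have h2 : 9999999 / 10000000 * (W : ℝ) * (((W : ℝ) + 1) / (4001 / 4000 * W + 1)) ≤
          9999999 / 10000000 * (W : ℝ) * 1 := mul_le_mul_of_nonneg_left h1 (by positivity)
      linarith
    · -- b_sum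
      rw [ebE, ebF, h.hc, h.nL_eq]
      unfold nbF
      push_cast
      ring
    · -- f1
      have hT2pos : 0 < P.T2lo := by rw [eT2]; exact mul_pos (by linarith) hW
      have h8 : P.hs / P.T2lo ≤ 0.5 := by
        rw [div_le_iff₀ hT2pos, ehs, eT2]; linarith
      rw [eX, eht, eW, em, ehm, eHn]
      have h1 : (16 * (W : ℝ) - (16 + nHm c ρ w - nTl c ρ w) * W) / (16 * W) =
          (16 - (16 + nHm c ρ w - nTl c ρ w)) / 16 := by
        field_simp
      have h5 : (0.9 : ℝ) ≤ (16 - (16 + nHm c ρ w - nTl c ρ w)) / 16 := by linarith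
      have h6 : (1 / 1000000000 : ℝ) ≤ (W - 9999999 / 10000000 * W) * (1 - P.hs / P.T2lo) /
          (16 * W + (nHm c ρ w * W - 4001 / 4000 * W - 1)) := by
        rw [le_div_iff₀ (by linarith)]
        have h9 : (W - 9999999 / 10000000 * (W : ℝ)) * 0.5 ≤
            (W - 9999999 / 10000000 * W) * (1 - P.hs / P.T2lo) :=
          mul_le_mul_of_nonneg_left (by linarith) (by linarith)
        linarith
      rw [h1]
      have h7 := mul_le_mul h5 h6 (by norm_num) (by linarith)
      refine le_trans ?_ h7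
      norm_num
    · -- f3
      rw [eW, em, eL]
      rw [le_div_iff₀ (mul_pos hLpos hW)]
      have := mul_le_mul_of_nonneg_right hL2 hW.le
      linarith
    · -- f4
      have hEE : P.eEhi * (P.st / P.E) ≤ 0.03 * ((2 + r) * W) := by
        unfold PP.eEhi
        rw [eφ, em, est, eE]
        have key := n_eE hnr
        have e1 : (nPh c ρ w * W * (110 * ((20 : ℕ) : ℝ)) + 9999999 / 10000000 * W / 2) *
            ((2 + r) * W / ((c + 20 + ρ) * W)) =
            (nPh c ρ w * 2200 + (9999999 / 10000000) / 2) / (c + 20 + ρ) * ((2 + r) * W) := by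
          push_cast
          field_simp
          ring
        rw [e1]
        apply mul_le_mul_of_nonneg_right
        · rw [div_le_iff₀ hEpos]; exact key
        · exact mul_nonneg (by linarith [hnr.r1]) hW.le
      rw [eL, le_div_iff₀ (mul_pos hLpos hW), est, em] at *
      have h1 := mul_le_mul_of_nonneg_right hL2 hW.le
      have h2 : 0 ≤ r * W := mul_nonneg hnr.r1 hW.le
      push_cast
      linarith
    · -- f5
      rw [eL, le_div_iff₀ (mul_pos hLpos hW), em, ehs, eW, eX]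
      have h1 := mul_le_mul_of_nonneg_right hL2 hW.le
      linarith
    · -- f6
      have hEE : P.eEhi * (P.e1 / P.E) ≤ 0.03 * ((c + 18 + ρ - r) * W) := by
        unfold PP.eEhi
        rw [eφ, em, ee1, eE]
        have key := n_eE hnr
        have e1 : (nPh c ρ w * W * (110 * ((20 : ℕ) : ℝ)) + 9999999 / 10000000 * W / 2) *
            ((c + 18 + ρ - r) * W / ((c + 20 + ρ) * W)) =
            (nPh c ρ w * 2200 + (9999999 / 10000000) / 2) / (c + 20 + ρ) *
              ((c + 18 + ρ - r) * W) := by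
          push_cast
          field_simp
          ring
        rw [e1]
        apply mul_le_mul_of_nonneg_right
        · rw [div_le_iff₀ hEpos]; exact key
        · exact mul_nonneg (by linarith [hnr.r2, hnr.c1, hnr.ρ1]) hW.le
      rw [eL, le_div_iff₀ (mul_pos hLpos hW)]
      have h1 := mul_le_mul_of_nonneg_right hL2 hW.le
      have h2 : 1900 * (W : ℝ) ≤ (c + 18 + ρ - r) * W :=
        mul_le_mul_of_nonneg_right (by linarith [hnr.r2, hnr.c1, hnr.ρ1]) hW.le
      rw [ee1] at *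
      linarith
    · -- f7
      rw [eW, ehs, le_div_iff₀ (by positivity)]
      linarith
    · -- f8
      rw [eW, ehs]
      have hhs : (0 : ℝ) < 4001 / 4000 * W + 1 := by positivity
      have : ((W : ℝ) + 1) / (4001 / 4000 * W + 1) ≤ 1 - 1 / 10000000000000 := by
        rw [div_le_iff₀ hhs]; linarith
      linarith
  exact e0 _ rfl

theorem NI.geo (h : NI n p W st e1 nC nL c ρ w r) (hp1 : 1920 * W ≤ p) (hp2 : nC * W ≤ p)
    (hp3 : p ≤ n) (hp4 : 1940 * W ≤ n - p) (bE bF : ℝ) :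
    (par2P n p W st e1 nC nL bE bF).GeoOk (1 / 1000000000000000) (W + W / 2) (W + W / 2)
      (17 * W) (27 * W) := by
  have hW := h.Wpos
  have hW9 : (1000000000 : ℝ) ≤ W := by exact_mod_cast h.hW
  have hnr := h.nr
  obtain ⟨hH1, hH2⟩ := nHm_bd hnr
  have pH2 := mul_le_mul_of_nonneg_right hH2 hW.le
  have hn : 1 / 1000000000000000 * (n : ℝ) ≤ 1 / 50000000000 * W := by
    have := h.dn
    linarith
  have ehm := h.hm_eq bE bF
  have eHn : nHn c ρ w * (W : ℝ) = nHm c ρ w * W - 4001 / 4000 * W - 1 := by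
    unfold nHn
    linear_combination -h.hw
  have hhalf : (W : ℝ) / 2 - 1 ≤ ((W / 2 : ℕ) : ℝ) := by
    have h1 : W < 2 * (W / 2) + 2 := by omega
    have h2 : (W : ℝ) < 2 * ((W / 2 : ℕ) : ℝ) + 2 := by exact_mod_cast h1
    linarith
  refine
    { KW_le := by simp only [par2P]; omega
      CW_le := by simp only [par2P]; exact hp2
      p_le := by simp only [par2P]; exact hp3
      fit_hub := by simp only [par2P]; omega
      fit_D := by simp only [par2P]; omega
      size_0 := ?_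
      size_1 := ?_
      size_2 := ?_
      size_3 := ?_
      size_HH := ?_
      size_M := ?_
      size_L := ?_ }
  · simp only [par2P]
    rw [Nat.cast_add]
    linarith
  · simp only [par2P]
    rw [Nat.cast_add]
    linarith
  · simp only [par2P]
    push_cast
    linarith
  · rw [ehm, eHn]
    simp only [par2P]
    push_cast
    linarith
  · rw [ehm, eHn]
    simp only [par2P]
    push_cast
    linarith
  · simp only [par2P]
    push_cast
    linarith
  · simp only [par2P]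
    linarith

end Ok

/-- PAR2: the parameters. -/
theorem par2 : ∃ (q R nLmax : ℕ) (δ η : ℝ), 0 < δ ∧ 0 < η ∧ ∀ N2 : ℕ, 1 ≤ N2 →
    ∃ N1 : ℕ, ∀ n p : ℕ, N1 ≤ n → 0.498 * (n : ℝ) ≤ p → (p : ℝ) ≤ 0.9 * n →
      ∃ (nL nC : ℕ) (P : PP q R nL nC) (w0 w1 w2 w3 : ℕ), nL ≤ nLmax ∧ P.n = n ∧ P.p = p ∧
        N2 ∣ P.W ∧ N2 ∣ P.e1 ∧ P.Ok δ ∧ P.GeoOk η w0 w1 w2 w3 := by
  refine ⟨20, 2000, 20000, 1 / 10000000000000, 1 / 1000000000000000, by norm_num, by norm_num, ?_⟩
  intro N2 hN2
  refine ⟨1000000000000000 * N2, ?_⟩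
  intro n p hn hp1 hp2
  have hpn : p ≤ n := by
    have : (p : ℝ) ≤ n := by
      have : (0 : ℝ) ≤ n := Nat.cast_nonneg n
      linarith
    exact_mod_cast this
  obtain ⟨d, hd⟩ : ∃ d, d = n - p := ⟨_, rfl⟩
  have hnd : n = p + d := by omega
  have hdR : (d : ℝ) = n - p := by rw [hnd]; push_cast; ring
  have hd10 : n ≤ 10 * d := by
    have : (n : ℝ) ≤ 10 * d := by rw [hdR]; linarith
    exact_mod_cast this
  obtain ⟨u, hu⟩ : ∃ u, u = d / (1940 * N2) := ⟨_, rfl⟩
  have hN2' : 0 < 1940 * N2 := by omega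
  have hu1 : 1940 * N2 * u ≤ d := by rw [hu]; exact Nat.mul_div_le _ _
  have hu2 : d < 1940 * N2 * (u + 1) := by rw [hu]; exact Nat.lt_mul_div_succ _ hN2'
  have hu3 : 1000000000 ≤ u := by
    rw [hu, Nat.le_div_iff_mul_le hN2']
    omega
  obtain ⟨W, hW⟩ : ∃ W, W = N2 * u := ⟨_, rfl⟩
  have hWd1 : 1940 * W ≤ d := by rw [hW]; linarith
  have hWd2 : d < 1940 * (W + N2) := by rw [hW]; linarith
  have hWN : 1000000000 * N2 ≤ W := by rw [hW]; linarith [Nat.mul_le_mul_left N2 hu3]
  have hW9 : 1000000000 ≤ W := by omega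
  have hWpos : 0 < W := by omega
  have hWR : (0 : ℝ) < W := by exact_mod_cast hWpos
  obtain ⟨nC, hnC⟩ : ∃ nC, nC = p / W := ⟨_, rfl⟩
  have hC1 : W * nC ≤ p := by rw [hnC]; exact Nat.mul_div_le _ _
  have hC2 : p < W * (nC + 1) := by rw [hnC]; exact Nat.lt_mul_div_succ _ hWpos
  have hC3 : 1924 ≤ nC := by
    rw [hnC, Nat.le_div_iff_mul_le hWpos]
    have h1 : (1940 : ℝ) * W ≤ d := by exact_mod_cast hWd1
    have : (1924 : ℝ) * W ≤ p := by
      have h2 : (n : ℝ) = p + d := by rw [hdR]; ring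
      rw [h2] at hp1
      linarith
    exact_mod_cast this
  have hC4 : nC ≤ 17480 := by
    have h1 : (d : ℝ) < 1940 * (W + N2) := by exact_mod_cast hWd2
    have h2 : (1000000000 : ℝ) * N2 ≤ W := by exact_mod_cast hWN
    have h3 : (n : ℝ) = p + d := by rw [hdR]; ring
    have h4 : (p : ℝ) ≤ 9 * d := by rw [h3] at hp2; linarith
    have h5 : (W : ℝ) * nC ≤ p := by exact_mod_cast hC1
    have h6 : (W : ℝ) * nC ≤ W * 17480 := by linarith
    have h7 := le_of_mul_le_mul_left h6 hWR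
    exact_mod_cast h7
  obtain ⟨rr, hrr⟩ : ∃ rr, rr = (n - 1922 * W) % N2 := ⟨_, rfl⟩
  have hrr1 : rr < N2 := by rw [hrr]; exact Nat.mod_lt _ (by omega)
  have hrr2 : N2 * ((n - 1922 * W) / N2) + rr = n - 1922 * W := by
    rw [hrr]; exact Nat.div_add_mod _ _
  have hn1922 : 1922 * W ≤ n := by
    have : 1940 * W ≤ n := by omega
    omega
  obtain ⟨e1, he1⟩ : ∃ e1, e1 = N2 * ((n - 1922 * W) / N2) := ⟨_, rfl⟩
  have hlab : 1920 * W + (2 * W + rr) + e1 = n := by
    rw [← he1] at hrr2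
    omega
  have hlabR : 1920 * (W : ℝ) + (2 * W + rr) + e1 = n := by exact_mod_cast hlab
  have hrrR : (rr : ℝ) / W ≤ 1 / 1000000000 := by
    rw [div_le_iff₀ hWR]
    have h1 : (rr : ℝ) < N2 := by exact_mod_cast hrr1
    have h2 : (1000000000 : ℝ) * N2 ≤ W := by exact_mod_cast hWN
    linarith
  have hNI : NI n p W (2 * W + rr) e1 nC (nC - 21) nC ((n : ℝ) / W - nC - 1940) (1 / W)
      ((rr : ℝ) / W) := by
    have hnW : (n : ℝ) / W * W = n := by field_simp
    refine ⟨⟨?_, ?_, ?_, ?_, ?_, ?_, ?_, ?_⟩, rfl, ?_, ?_, hW9, ?_, ?_, ?_, ?_, hlab⟩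
    · exact_mod_cast hC3
    · exact_mod_cast hC4
    · have h1 : (nC : ℝ) + 1940 ≤ n / W := by
        rw [le_div_iff₀ hWR]
        have h2 : (W : ℝ) * nC ≤ p := by exact_mod_cast hC1
        have h3 : (1940 : ℝ) * W ≤ d := by exact_mod_cast hWd1
        rw [hdR] at h3
        linarith
      linarith
    · have h1 : (n : ℝ) / W ≤ nC + 1940 + 1001 / 1000 := by
        rw [div_le_iff₀ hWR]
        have h2 : (p : ℝ) < W * (nC + 1) := by exact_mod_cast hC2
        have h3 : (d : ℝ) < 1940 * (W + N2) := by exact_mod_cast hWd2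
        have h4 : (1000000000 : ℝ) * N2 ≤ W := by exact_mod_cast hWN
        rw [hdR] at h3
        linarith
      linarith
    · positivity
    · rw [div_le_div_iff₀ hWR (by norm_num)]
      have : (1000000000 : ℝ) ≤ W := by exact_mod_cast hW9
      linarith
    · positivity
    · exact hrrR
    · omega
    · omega
    · field_simp
    · linarith
    · push_cast
      field_simp
    · have h1 : (e1 : ℝ) = n - 1922 * W - rr := by linarith
      have h2 : (rr : ℝ) / W * W = rr := by field_simp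
      linear_combination h1 - hnW + h2
  refine ⟨nC - 21, nC, par2P n p W (2 * W + rr) e1 nC (nC - 21)
    (nbE nC ((n : ℝ) / W - nC - 1940) (1 / W) ((rr : ℝ) / W))
    (nbF nC ((n : ℝ) / W - nC - 1940) (1 / W) ((rr : ℝ) / W)), W + W / 2, W + W / 2,
    17 * W, 27 * W, by omega, rfl, rfl, ?_, ?_, hNI.ok, ?_⟩
  · exact ⟨u, hW⟩
  · exact ⟨_, he1⟩
  · apply hNI.geo
    · have : 1920 * W ≤ W * nC := by linarith [Nat.mul_le_mul_left W (show 1920 ≤ nC by omega)]
      omega
    · rw [mul_comm]; exact hC1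
    · exact hpn
    · omega

end Pool.Agent.H28.HZ
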