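import Mathlib
import Pool.Agent.H28.HZ.Defs
import Pool.Agent.H70.HY.COL
import Pool.Agent.H70.HY.RTS

/-! Module RGS: every general schedule is realised (reduction to sided schedules). -/

set_option autoImplicit false
set_option linter.unusedSectionVars false

namespace Pool.Agent.H28.HZ

open Finset Pool.Agent.H70.HY

/-- Halved classes. -/
abbrev RgsC (A B : Type) := (A × Bool) ⊕ (B × Bool)

/-- Blocks of the sided schedule. -/
abbrev RgsT (A B J I : Type) := (J × ((A ⊕ B) → Bool)) ⊕ I

/-- The class of a half class. -/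
def rgs_p {A B : Type} : RgsC A B → A ⊕ B
  | Sum.inl a => Sum.inl a.1
  | Sum.inr b => Sum.inr b.1

/-- The half. -/
def rgs_bit {A B : Type} : RgsC A B → Bool
  | Sum.inl a => a.2
  | Sum.inr b => b.2

section defs

variable {n : ℕ} {δ : ℝ} {A B J I : Type} [Fintype A] [DecidableEq A] [Fintype B] [DecidableEq B]
    [Fintype J] [DecidableEq J] [Fintype I] [DecidableEq I] (S : GS n δ A B J I)

/-- Weights of the zones. -/
noncomputable def rgs_Z : A ⊕ B → A ⊕ B → I → ℝ
  | Sum.inl a, Sum.inr b, i => if S.zi a = i ∧ b = S.unit a then S.yz a else 0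
  | Sum.inr b, Sum.inl a, i => if S.zi a = i ∧ b = S.unit a then S.yz a else 0
  | _, _, _ => 0

/-- Sides in the sided schedule. -/
def rgs_side (c : RgsC A B) : RgsT A B J I → Bool
  | Sum.inl θ => xor (rgs_bit c) (θ.2 (rgs_p c))
  | Sum.inr _ => (match c with | Sum.inl _ => true | Sum.inr _ => false)

/-- Weights in the sided schedule. -/
noncomputable def rgs_y (c c' : RgsC A B) : Option (RgsT A B J I) → ℝ
  | none => S.y (rgs_p c) (rgs_p c') none
  | some (Sum.inl θ) =>
      if xor (rgs_bit c) (θ.2 (rgs_p c)) ≠ xor (rgs_bit c') (θ.2 (rgs_p c')) then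
        2 / (n2 A B : ℝ) * S.y (rgs_p c) (rgs_p c') (some θ.1) else 0
  | some (Sum.inr i) => rgs_Z S (rgs_p c) (rgs_p c') i

/-- Filling class. -/
def rgs_F (a : A × Bool) : RgsT A B J I → B × Bool
  | Sum.inl θ => (S.fill a.1 θ.1,
      xor (!(xor a.2 (θ.2 (Sum.inl a.1)))) (θ.2 (Sum.inr (S.fill a.1 θ.1))))
  | Sum.inr _ => (S.unit a.1, true)

/-- Dump. -/
def rgs_dump (a : A × Bool) : RgsT A B J I → Option (RgsT A B J I)
  | Sum.inl θ => (S.dmp a.1 θ.1).map (fun j => Sum.inl (j, θ.2))
  | Sum.inr _ => some (Sum.inl (S.hub a.1, fun c => if c = Sum.inl a.1 then a.2 else false))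

/-- Tight blocks. -/
def rgs_el (a : A × Bool) : RgsT A B J I → Prop
  | Sum.inl θ => S.el a.1 θ.1
  | Sum.inr i => S.zi a.1 = i

/-- Lengths. -/
def rgs_len : RgsT A B J I → ℕ
  | Sum.inl θ => S.l θ.1
  | Sum.inr _ => S.z

end defs

section lem

theorem n2_pos (A B : Type) [Fintype A] [DecidableEq A] [Fintype B] [DecidableEq B] :
    0 < n2 A B := by
  unfold n2
  exact Fintype.card_pos

/-- Flip a coordinate. -/
def rgs_flip {C : Type} [DecidableEq C] (c : C) (β : C → Bool) : C → Bool :=
  Function.update β c (!(β c))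

theorem rgs_flip_flip {C : Type} [DecidableEq C] (c : C) (β : C → Bool) :
    rgs_flip c (rgs_flip c β) = β := by
  unfold rgs_flip
  simp

/-- Half of the patterns have opposite sides. -/
theorem rgs_opp {C : Type} [Fintype C] [DecidableEq C] (c c' : C) (h : c ≠ c') (e e' : Bool) :
    ∑ β : C → Bool, (if xor e (β c) ≠ xor e' (β c') then (1 : ℝ) else 0) =
      (Fintype.card (C → Bool) : ℝ) / 2 := by
  have h1 : ∑ β : C → Bool, (if xor e (β c) ≠ xor e' (β c') then (1 : ℝ) else 0) =
      ∑ β : C → Bool, (if xor e ((rgs_flip c β) c) ≠ xor e' ((rgs_flip c β) c') then (1 : ℝ) else 0) := by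
    exact (Function.Involutive.bijective (rgs_flip_flip c)).sum_comp
      (fun β : C → Bool => (if xor e (β c) ≠ xor e' (β c') then (1 : ℝ) else 0)) |>.symm
  have h2 : ∀ β : C → Bool, (if xor e ((rgs_flip c β) c) ≠ xor e' ((rgs_flip c β) c') then (1 : ℝ) else 0) =
      1 - (if xor e (β c) ≠ xor e' (β c') then (1 : ℝ) else 0) := by
    intro β
    have h3 : (rgs_flip c β) c = !(β c) := by simp [rgs_flip]
    have h4 : (rgs_flip c β) c' = β c' := by
      unfold rgs_flip
      rw [Function.update_of_ne h.symm]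
    rw [h3, h4]
    generalize β c = u
    generalize β c' = v
    cases e <;> cases e' <;> cases u <;> cases v <;> norm_num
  have h5 : ∑ β : C → Bool, (if xor e (β c) ≠ xor e' (β c') then (1 : ℝ) else 0) =
      (Fintype.card (C → Bool) : ℝ) -
        ∑ β : C → Bool, (if xor e (β c) ≠ xor e' (β c') then (1 : ℝ) else 0) := by
    conv_lhs => rw [h1, Finset.sum_congr rfl (fun β _ => h2 β)]
    rw [Finset.sum_sub_distrib]
    simp
  linarith

theorem rgs_opp1 (f g : Bool) (t : ℝ) :
    ∑ e : Bool, (if f ≠ xor e g then t else 0) = t := by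
  cases f <;> cases g <;> simp

variable {n : ℕ} {δ : ℝ} {A B J I : Type} [Fintype A] [DecidableEq A] [Fintype B] [DecidableEq B]
    [Fintype J] [DecidableEq J] [Fintype I] [DecidableEq I] (S : GS n δ A B J I)

theorem rgs_y_symm (c c' : RgsC A B) (t : Option (RgsT A B J I)) : rgs_y S c c' t = rgs_y S c' c t := by
  rcases t with _ | (θ | i)
  · simp only [rgs_y]
    exact S.y_symm _ _ _
  · simp only [rgs_y]
    rw [S.y_symm]
    by_cases h : xor (rgs_bit c) (θ.2 (rgs_p c)) = xor (rgs_bit c') (θ.2 (rgs_p c'))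
    · rw [if_neg (by simpa using h), if_neg (by simpa using h.symm)]
    · rw [if_pos h, if_pos (fun h2 => h h2.symm)]
  · rcases c with a | b <;> rcases c' with a' | b' <;> rfl

theorem rgs_y_nonneg (hδ : 0 < δ) (c c' : RgsC A B) (t : Option (RgsT A B J I)) :
    0 ≤ rgs_y S c c' t := by
  rcases t with _ | (θ | i)
  · exact S.y_nonneg _ _ _
  · simp only [rgs_y]
    have := S.y_nonneg (rgs_p c) (rgs_p c') (some θ.1)
    have h2 : (0 : ℝ) ≤ 2 / (n2 A B : ℝ) := by positivity
    split_ifs
    · exact mul_nonneg h2 this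
    · exact le_refl _
  · have hz : ∀ a, 0 ≤ S.yz a := fun a => hδ.le.trans (S.yz_ge a)
    rcases c with a | b <;> rcases c' with a' | b' <;> simp only [rgs_y, rgs_p, rgs_Z]
    · exact le_refl _
    · split_ifs
      · exact hz _
      · exact le_refl _
    · split_ifs
      · exact hz _
      · exact le_refl _
    · exact le_refl _

theorem rgs_y_sum (c c' : RgsC A B) :
    ∑ t, rgs_y S c c' t = ∑ t, S.y (rgs_p c) (rgs_p c') t + ∑ i, rgs_Z S (rgs_p c) (rgs_p c') i := by
  rw [Fintype.sum_option, Fintype.sum_option, Fintype.sum_sum_type, add_assoc]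
  have h0 : ∑ θ : J × ((A ⊕ B) → Bool), rgs_y S c c' (some (Sum.inl θ)) =
      ∑ j, S.y (rgs_p c) (rgs_p c') (some j) := by
    rw [Fintype.sum_prod_type]
    refine Finset.sum_congr rfl (fun j _ => ?_)
    by_cases h : rgs_p c = rgs_p c'
    · have h1 : S.y (rgs_p c) (rgs_p c') (some j) = 0 := by
        rw [h]
        exact S.y_self _ _
      rw [h1]
      refine Finset.sum_eq_zero (fun s _ => ?_)
      simp only [rgs_y, h1]
      simp
    · have h8 := rgs_opp (rgs_p c) (rgs_p c') h (rgs_bit c) (rgs_bit c')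
      have : ∀ β : (A ⊕ B) → Bool, rgs_y S c c' (some (Sum.inl (j, β))) =
          (if xor (rgs_bit c) (β (rgs_p c)) ≠ xor (rgs_bit c') (β (rgs_p c'))
            then (1 : ℝ) else 0) * (2 / (n2 A B : ℝ) * S.y (rgs_p c) (rgs_p c') (some j)) := by
        intro β
        simp only [rgs_y, ite_mul, one_mul, zero_mul]
      rw [Finset.sum_congr rfl (fun s _ => this s), ← Finset.sum_mul, h8]
      have hn : (0 : ℝ) < (n2 A B : ℝ) := by exact_mod_cast n2_pos A B
      have hn' : (Fintype.card ((A ⊕ B) → Bool) : ℝ) = (n2 A B : ℝ) := rfl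
      rw [hn']
      field_simp
  rw [h0]
  rfl

/-- Sums over the half classes. -/
theorem rgs_sum_half (f : A ⊕ B → ℝ) :
    ∑ c : RgsC A B, S.M (rgs_p c) / 2 * f (rgs_p c) = ∑ x, S.M x * f x := by
  rw [Fintype.sum_sum_type, Fintype.sum_sum_type, Fintype.sum_prod_type, Fintype.sum_prod_type]
  congr 1
  · refine Finset.sum_congr rfl (fun a _ => ?_)
    simp only [Fintype.sum_bool, rgs_p]
    ring
  · refine Finset.sum_congr rfl (fun a _ => ?_)
    simp only [Fintype.sum_bool, rgs_p]
    ring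

theorem rgs_sum_blk (c : RgsC A B) (j : J) (β : (A ⊕ B) → Bool) :
    ∑ c' : RgsC A B, S.M (rgs_p c') / 2 * rgs_y S c c' (some (Sum.inl (j, β))) =
      (∑ x, S.M x * S.y (rgs_p c) x (some j)) / (n2 A B : ℝ) := by
  have hn : (0 : ℝ) < (n2 A B : ℝ) := by exact_mod_cast n2_pos A B
  have key : ∀ x : A ⊕ B, ∑ e : Bool, S.M x / 2 * (if xor (rgs_bit c) (β (rgs_p c)) ≠
      xor e (β x) then 2 / (n2 A B : ℝ) * S.y (rgs_p c) x (some j) else 0) =
      S.M x * S.y (rgs_p c) x (some j) / (n2 A B : ℝ) := by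
    intro x
    rw [← Finset.mul_sum, rgs_opp1]
    field_simp
  rw [Fintype.sum_sum_type, Fintype.sum_sum_type, Fintype.sum_prod_type, Fintype.sum_prod_type,
    add_div, Finset.sum_div, Finset.sum_div]
  congr 1
  · refine Finset.sum_congr rfl (fun a _ => ?_)
    exact key (Sum.inl a)
  · refine Finset.sum_congr rfl (fun a _ => ?_)
    exact key (Sum.inr a)

theorem rgs_sum_zone (c : RgsC A B) (i : I) :
    ∑ c' : RgsC A B, S.M (rgs_p c') / 2 * rgs_y S c c' (some (Sum.inr i)) =
      ∑ x, S.M x * rgs_Z S (rgs_p c) x i :=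
  rgs_sum_half S (fun x => rgs_Z S (rgs_p c) x i)

theorem rgs_sum_none (c : RgsC A B) :
    ∑ c' : RgsC A B, S.M (rgs_p c') / 2 * rgs_y S c c' none =
      ∑ x, S.M x * S.y (rgs_p c) x none :=
  rgs_sum_half S (fun x => S.y (rgs_p c) x none)

theorem rgs_opp_F (a : A × Bool) (j : J) (β : (A ⊕ B) → Bool) :
    xor (rgs_bit (Sum.inl a : RgsC A B)) (β (rgs_p (Sum.inl a : RgsC A B))) ≠
      xor (rgs_bit (Sum.inr (rgs_F S a (Sum.inl (j, β))) : RgsC A B))
        (β (rgs_p (Sum.inr (rgs_F S a (Sum.inl (j, β))) : RgsC A B))) := by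
  simp only [rgs_F, rgs_bit, rgs_p]
  generalize β (Sum.inl a.1) = u
  generalize β (Sum.inr (S.fill a.1 j)) = v
  generalize a.2 = w
  revert u v w
  decide

/-- The sided schedule. -/
noncomputable def rgs_SS (hδ : 0 < δ) :
    SS n (δ / (2 * (n2 A B : ℝ))) (A × Bool) (B × Bool) (RgsT A B J I) where
  M c := S.M (rgs_p c) / 2
  len := rgs_len S
  star := S.star
  el := rgs_el S
  side := rgs_side
  y := rgs_y S
  inn a a' := a.1 = a'.1
  hd b b' := S.hd b.1 b'.1
  F := rgs_F S
  dump := rgs_dump S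
  M_ge := by
    intro c
    have h := S.M_ge (rgs_p c)
    have hn : (1 : ℝ) ≤ (n2 A B : ℝ) := by exact_mod_cast n2_pos A B
    have h2 : δ / (2 * (n2 A B : ℝ)) ≤ δ / 2 := by
      apply div_le_div_of_nonneg_left hδ.le (by norm_num) (by linarith)
    have h3 : δ / (2 * (n2 A B : ℝ)) * n ≤ δ / 2 * n :=
      mul_le_mul_of_nonneg_right h2 (Nat.cast_nonneg _)
    linarith
  M_sum := by
    have h := rgs_sum_half S (fun _ => 1)
    simp only [mul_one] at h
    rw [h]
    exact S.M_sum
  inn_refl := fun a => rfl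
  inn_symm := fun a a' h => h.symm
  hd_symm := fun b b' h => S.hd_symm _ _ h
  hd_irrefl := fun b h => S.hd_irrefl _ h
  y_nonneg := rgs_y_nonneg S hδ
  y_symm := rgs_y_symm S
  y_inn := by
    rintro ⟨a, e⟩ ⟨a', e'⟩ θ h
    simp only at h
    subst h
    rcases θ with θ | i
    · simp only [rgs_y, rgs_p, S.y_self]
      simp
    · rfl
  y_sum_AA := by
    rintro ⟨a, e⟩ ⟨a', e'⟩ h
    simp only at h
    rw [rgs_y_sum]
    simp only [rgs_p, rgs_Z]
    rw [S.y_sum_AA a a' h]
    simp
  y_sum_AB := by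
    rintro ⟨a, e⟩ ⟨b, e'⟩
    rw [rgs_y_sum]
    simp only [rgs_p, rgs_Z]
    have h1 : ∑ i, (if S.zi a = i ∧ b = S.unit a then S.yz a else 0) =
        (if b = S.unit a then S.yz a else 0) := by
      by_cases h : b = S.unit a
      · simp [h]
      · simp [h]
    rw [h1]
    exact S.y_sum_AB a b
  y_sum_BB := by
    rintro ⟨b, e⟩ ⟨b', e'⟩ h
    simp only at h
    rw [rgs_y_sum]
    simp only [rgs_p, rgs_Z]
    rw [S.y_sum_BB b b' h]
    simp
  y_not_hd := by
    rintro ⟨b, e⟩ ⟨b', e'⟩ t h
    simp only at h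
    rcases t with _ | (θ | i)
    · exact S.y_not_hd b b' none h
    · simp only [rgs_y, rgs_p, S.y_not_hd b b' (some θ.1) h]
      simp
    · rfl
  y_side := by
    intro c c' θ h
    rcases θ with θ | i
    · intro h2
      simp only [rgs_y] at h
      rw [if_neg (by simpa [rgs_side] using h2)] at h
      exact lt_irrefl _ h
    · rcases c with x | x <;> rcases c' with x' | x'
      · exact absurd h (lt_irrefl _)
      · simp [rgs_side]
      · simp [rgs_side]
      · exact absurd h (lt_irrefl _)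
  y_el := by
    intro a c θ h
    rcases θ with θ | i
    · simp only [rgs_y] at h
      have h2 : 0 < S.y (rgs_p (Sum.inl a : RgsC A B)) (rgs_p c) (some θ.1) := by
        by_contra h3
        have h4 := S.y_nonneg (rgs_p (Sum.inl a : RgsC A B)) (rgs_p c) (some θ.1)
        have h5 : S.y (rgs_p (Sum.inl a : RgsC A B)) (rgs_p c) (some θ.1) = 0 :=
          le_antisymm (not_lt.mp h3) h4
        rw [h5] at h
        simp at h
      exact S.y_el a.1 _ _ h2
    · rcases c with x | x
      · exact absurd h (lt_irrefl _)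
      · simp only [rgs_y, rgs_p, rgs_Z] at h
        show S.zi a.1 = i
        by_contra h3
        rw [if_neg (fun h4 => h3 h4.1)] at h
        exact lt_irrefl _ h
  tight := by
    intro a θ h
    have hn : (0 : ℝ) < (n2 A B : ℝ) := by exact_mod_cast n2_pos A B
    rcases θ with ⟨j, s⟩ | i
    · rw [rgs_sum_blk]
      have h1 := S.tight a.1 j h
      simp only [rgs_p]
      rw [h1, S.len_eq j]
      show ((n2 A B * S.l j : ℕ) : ℝ) / (n2 A B : ℝ) = ((S.l j : ℕ) : ℝ)
      push_cast
      field_simp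
    · rw [rgs_sum_zone]
      have h0 : S.zi a.1 = i := h
      rw [Fintype.sum_sum_type]
      simp only [rgs_p, rgs_Z]
      have h1 := S.tightz a.1
      simp only [mul_zero, Finset.sum_const_zero, zero_add, h0, true_and, mul_ite]
      rw [Finset.sum_ite_eq' Finset.univ (S.unit a.1)]
      show _ = ((S.z : ℕ) : ℝ)
      simpa using h1
  total := by
    intro a
    have h := S.total a.1
    rw [← h]
    classical
    have h1 : (Set.toFinite {θ | rgs_el S a θ}).toFinset =
        Finset.univ.filter (fun θ => rgs_el S a θ) := by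
      ext θ
      simp
    have h2 : (Set.toFinite {j | S.el a.1 j}).toFinset =
        Finset.univ.filter (fun j => S.el a.1 j) := by
      ext θ
      simp
    rw [h1, h2, Finset.sum_filter, Finset.sum_filter, Fintype.sum_sum_type,
      Fintype.sum_prod_type]
    congr 1
    congr 1
    · refine Finset.sum_congr rfl (fun j _ => ?_)
      by_cases h : S.el a.1 j
      · rw [if_pos h]
        rw [Finset.sum_congr rfl (fun s _ => if_pos (show rgs_el S a (Sum.inl (j, s)) from h))]
        rw [S.len_eq j]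
        simp only [rgs_len, Finset.sum_const, Finset.card_univ, smul_eq_mul]
        rfl
      · rw [if_neg h]
        rw [Finset.sum_congr rfl (fun s _ => if_neg (show ¬ rgs_el S a (Sum.inl (j, s)) from h))]
        simp
    · rw [Finset.sum_eq_single (S.zi a.1)]
      · exact if_pos rfl
      · intro i _ h
        exact if_neg (fun h' => h (Eq.symm h'))
      · simp
  load := by
    intro b θ
    have hn : (0 : ℝ) < (n2 A B : ℝ) := by exact_mod_cast n2_pos A B
    have hn1 : (1 : ℝ) ≤ (n2 A B : ℝ) := by exact_mod_cast n2_pos A B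
    have hδn : 0 ≤ δ * n := by positivity
    rcases θ with ⟨j, s⟩ | i
    · rw [rgs_sum_blk]
      have h1 := S.load b.1 j
      simp only [rgs_p]
      rw [S.len_eq j] at h1
      push_cast at h1
      show _ ≤ ((S.l j : ℕ) : ℝ) - δ / (2 * (n2 A B : ℝ)) * n
      rw [div_le_iff₀ hn]
      have h2 : (((S.l j : ℕ) : ℝ) - δ / (2 * (n2 A B : ℝ)) * n) * (n2 A B : ℝ) =
          (n2 A B : ℝ) * (S.l j : ℝ) - δ * n / 2 := by
        field_simp
      rw [h2]
      linarith
    · rw [rgs_sum_zone]
      have h1 := S.loadz b.1 i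
      have hM : ∀ c, 0 ≤ S.M c := fun c => le_trans hδn (S.M_ge c)
      have hyz : ∀ a, 0 ≤ S.yz a := fun a => hδ.le.trans (S.yz_ge a)
      have h2 : δ / (2 * (n2 A B : ℝ)) * n ≤ δ * n := by
        have h3 : δ / (2 * (n2 A B : ℝ)) ≤ δ := by
          rw [div_le_iff₀ (by positivity)]
          nlinarith
        exact mul_le_mul_of_nonneg_right h3 (Nat.cast_nonneg _)
      show _ ≤ ((S.z : ℕ) : ℝ) - δ / (2 * (n2 A B : ℝ)) * n
      rw [Fintype.sum_sum_type]
      simp only [rgs_p, rgs_Z, mul_zero, Finset.sum_const_zero, add_zero]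
      have h4 : ∑ a, S.M (Sum.inl a) * (if S.zi a = i ∧ b.1 = S.unit a then S.yz a else 0) ≤
          (S.z : ℝ) - δ * n := by
        refine le_trans (Finset.sum_le_sum (fun a _ => ?_)) h1
        by_cases h6 : S.zi a = i ∧ S.unit a = b.1
        · rw [if_pos h6, if_pos ⟨h6.1, h6.2.symm⟩]
        · rw [if_neg h6, if_neg (fun h => h6 ⟨h.1, h.2.symm⟩), mul_zero]
      linarith
  loadT := by
    intro b
    rw [rgs_sum_none]
    have h1 := S.loadT b.1
    simp only [rgs_p]
    have hn1 : (1 : ℝ) ≤ (n2 A B : ℝ) := by exact_mod_cast n2_pos A B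
    have h2 : δ / (2 * (n2 A B : ℝ)) * n ≤ δ * n := by
      have h3 : δ / (2 * (n2 A B : ℝ)) ≤ δ := by
        rw [div_le_iff₀ (by positivity)]
        nlinarith
      exact mul_le_mul_of_nonneg_right h3 (Nat.cast_nonneg _)
    linarith
  F_ge := by
    intro a θ h
    have hn1 : (1 : ℝ) ≤ (n2 A B : ℝ) := by exact_mod_cast n2_pos A B
    have hn : (0 : ℝ) < (n2 A B : ℝ) := by linarith
    rcases θ with ⟨j, β⟩ | i
    · have h1 := S.fill_ge a.1 j h
      simp only [rgs_y]
      rw [if_pos (rgs_opp_F S a j β)]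
      show δ / (2 * (n2 A B : ℝ)) ≤ 2 / (n2 A B : ℝ) * S.y (Sum.inl a.1) (Sum.inr (S.fill a.1 j)) (some j)
      rw [div_mul_eq_mul_div, div_le_div_iff₀ (by positivity) hn]
      nlinarith
    · have h0 : S.zi a.1 = i := h
      simp only [rgs_y, rgs_p, rgs_Z, rgs_F]
      have := S.yz_ge a.1
      simp only [h0, and_self, if_true]
      refine le_trans ?_ this
      rw [div_le_iff₀ (by positivity)]
      nlinarith
  dump_ge := by
    intro a θ h
    have hn1 : (1 : ℝ) ≤ (n2 A B : ℝ) := by exact_mod_cast n2_pos A B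
    have hn : (0 : ℝ) < (n2 A B : ℝ) := by linarith
    rcases θ with ⟨j, β⟩ | i
    · have h1 := S.dmp_ge a.1 j h
      rcases hd : S.dmp a.1 j with _ | j'
      · have h2 : rgs_dump S a (Sum.inl (j, β)) = none := by
          simp only [rgs_dump, hd, Option.map_none]
        rw [h2]
        rw [hd] at h1
        show δ / (2 * (n2 A B : ℝ)) ≤ S.y (Sum.inl a.1) (Sum.inr (S.fill a.1 j)) none
        refine le_trans ?_ h1
        rw [div_le_iff₀ (by positivity)]
        nlinarith
      · have h2 : rgs_dump S a (Sum.inl (j, β)) = some (Sum.inl (j', β)) := by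
          simp only [rgs_dump, hd, Option.map_some]
        rw [h2]
        rw [hd] at h1
        simp only [rgs_y]
        rw [if_pos (rgs_opp_F S a j β)]
        show δ / (2 * (n2 A B : ℝ)) ≤
          2 / (n2 A B : ℝ) * S.y (Sum.inl a.1) (Sum.inr (S.fill a.1 j)) (some j')
        rw [div_mul_eq_mul_div, div_le_div_iff₀ (by positivity) hn]
        nlinarith
    · have h1 := S.hub_ge a.1
      simp only [rgs_dump, rgs_y]
      rw [if_pos]
      · show δ / (2 * (n2 A B : ℝ)) ≤
          2 / (n2 A B : ℝ) * S.y (Sum.inl a.1) (Sum.inr (S.unit a.1)) (some (S.hub a.1))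
        rw [div_mul_eq_mul_div, div_le_div_iff₀ (by positivity) hn]
        nlinarith
      · simp [rgs_bit, rgs_p, rgs_F]
  dump_el := by
    intro a θ θ' h h2
    rcases θ with ⟨j, β⟩ | i
    · rcases hd : S.dmp a.1 j with _ | j'
      · simp only [rgs_dump, hd, Option.map_none] at h2
        exact absurd h2 (by simp)
      · simp only [rgs_dump, hd, Option.map_some, Option.some.injEq] at h2
        subst h2
        obtain ⟨h3, h4⟩ := S.dmp_el a.1 j j' h hd
        refine ⟨h3, ?_⟩
        simp only [rgs_dump, h4, Option.map_none]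
    · simp only [rgs_dump, Option.some.injEq] at h2
      subst h2
      obtain ⟨h3, h4⟩ := S.hub_el a.1
      refine ⟨h3, ?_⟩
      simp only [rgs_dump, h4, Option.map_none]

/-- Are all the edges between the two classes left out? -/
def rgs_out : A ⊕ B → A ⊕ B → Prop
  | Sum.inr b, Sum.inr b' => ¬ S.hd b b'
  | _, _ => False

/-- Kind of an allocated block. -/
def rgs_kind : Option (RgsT A B J I) → Kd I J
  | none => Kd.star
  | some (Sum.inl θ) => Kd.blk θ.1
  | some (Sum.inr i) => Kd.zone i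

open Classical in
/-- Kind of an edge. -/
noncomputable def rgs_kd (c c' : A ⊕ B) (t : Option (RgsT A B J I)) : Kd I J :=
  if rgs_out S c c' then Kd.out else rgs_kind t

/-- Index of one of the parts of a block. -/
noncomputable def rgs_idx (A B : Type) [Fintype A] [DecidableEq A] [Fintype B] [DecidableEq B]
    (β : (A ⊕ B) → Bool) : ℕ := (Fintype.equivFin ((A ⊕ B) → Bool)) β

/-- Colour of an edge. -/
noncomputable def rgs_col (t : Option (RgsT A B J I)) (k : ℕ) : ℕ :=
  match t with
  | some (Sum.inl θ) => rgs_idx A B θ.2 * S.l θ.1 + k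
  | _ => k

theorem rgs_idx_lt (β : (A ⊕ B) → Bool) : rgs_idx A B β < n2 A B :=
  ((Fintype.equivFin ((A ⊕ B) → Bool)) β).2

theorem rgs_idx_inj (β β' : (A ⊕ B) → Bool) (h : rgs_idx A B β = rgs_idx A B β') : β = β' :=
  (Fintype.equivFin ((A ⊕ B) → Bool)).injective (Fin.ext h)

theorem rgs_out_symm (c c' : A ⊕ B) : rgs_out S c c' ↔ rgs_out S c' c := by
  rcases c with a | b <;> rcases c' with a' | b'
  · exact Iff.rfl
  · exact Iff.rfl
  · exact Iff.rfl
  · exact ⟨fun h h' => h (S.hd_symm _ _ h'), fun h h' => h (S.hd_symm _ _ h')⟩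

theorem rgs_H (hδ : 0 < δ) (c c' : RgsC A B) (h : ¬ rgs_out S (rgs_p c) (rgs_p c')) :
    (rgs_SS S hδ).H c c' := by
  rcases c with a | b <;> rcases c' with a' | b'
  · trivial
  · trivial
  · trivial
  · exact not_not.1 h

theorem rgs_ok (c c' : RgsC A B) (t : Option (RgsT A B J I))
    (h : ¬ rgs_out S (rgs_p c) (rgs_p c') → 0 < rgs_y S c c' t ∨
      (∃ a a', c = Sum.inl a ∧ c' = Sum.inl a' ∧ a.1 = a'.1 ∧ t = none)) :
    S.Ok (rgs_p c) (rgs_p c') (rgs_kd S (rgs_p c) (rgs_p c') t) := by
  by_cases ho : rgs_out S (rgs_p c) (rgs_p c')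
  · rw [rgs_kd, if_pos ho]
    rcases c with a | b <;> rcases c' with a' | b'
    · exact absurd ho (by simp [rgs_out, rgs_p])
    · exact absurd ho (by simp [rgs_out, rgs_p])
    · exact absurd ho (by simp [rgs_out, rgs_p])
    · exact ⟨b.1, b'.1, rfl, rfl, ho⟩
  · rw [rgs_kd, if_neg ho]
    rcases h ho with h | ⟨a, a', rfl, rfl, h1, rfl⟩
    · rcases t with _ | (θ | z)
      · exact Or.inl h
      · have h4 := S.y_nonneg (rgs_p c) (rgs_p c') (some θ.1)
        rcases h4.lt_or_eq with h5 | h5
        · exact h5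
        · exfalso
          simp only [rgs_y] at h
          rw [← h5] at h
          simp at h
      · simp only [rgs_y] at h
        rcases c with a | b <;> rcases c' with a' | b' <;> simp only [rgs_p, rgs_Z] at h
        · exact absurd h (lt_irrefl _)
        · have h3 : S.zi a.1 = z ∧ b'.1 = S.unit a.1 := by
            by_contra h3
            rw [if_neg h3] at h
            exact lt_irrefl _ h
          refine ⟨a.1, h3.1, Or.inl ⟨rfl, ?_⟩⟩
          show Sum.inr b'.1 = _
          rw [h3.2]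
        · have h3 : S.zi a'.1 = z ∧ b.1 = S.unit a'.1 := by
            by_contra h3
            rw [if_neg h3] at h
            exact lt_irrefl _ h
          refine ⟨a'.1, h3.1, Or.inr ⟨rfl, ?_⟩⟩
          show Sum.inr b.1 = _
          rw [h3.2]
        · exact absurd h (lt_irrefl _)
    · refine Or.inr ⟨a.1, rfl, ?_⟩
      show Sum.inl a'.1 = _
      rw [h1]

/-- The half class. -/
def rgs_half {A B : Type} : A ⊕ B → Bool → RgsC A B
  | Sum.inl a, e => Sum.inl (a, e)
  | Sum.inr b, e => Sum.inr (b, e)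

theorem rgs_p_eq (c : RgsC A B) (x : A ⊕ B) :
    rgs_p c = x ↔ c = rgs_half x true ∨ c = rgs_half x false := by
  rcases c with ⟨a, e⟩ | ⟨b, e⟩ <;> rcases x with a' | b' <;> cases e <;> simp [rgs_p, rgs_half]

theorem rgs_half_ne (x : A ⊕ B) : rgs_half x true ≠ rgs_half x false := by
  rcases x with a' | b' <;> simp [rgs_half]

theorem rgs_p_half (x : A ⊕ B) (e : Bool) : rgs_p (rgs_half x e) = x := by
  rcases x with a' | b' <;> rfl

end lem

/-- RGS: every general schedule is realised by every large `n`-regular graph. -/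
theorem rgs (A B J I : Type) [Fintype A] [DecidableEq A] [Fintype B] [DecidableEq B] [Fintype J]
    [DecidableEq J] [Fintype I] [DecidableEq I] (δ η : ℝ) (hδ : 0 < δ) (hη : 0 < η) :
    ∃ N0 : ℕ, ∀ n : ℕ, N0 ≤ n → ∀ (S : GS n δ A B J I) (V : Type) [Fintype V] [DecidableEq V]
      (G : SimpleGraph V), (∀ v, (G.neighborSet v).ncard = n) →
      ∃ (cls : V → A ⊕ B) (kd : V → V → Kd I J) (col : V → V → ℕ), GReal S η G cls kd col := by
  have hn2 : (0 : ℝ) < (n2 A B : ℝ) := by exact_mod_cast n2_pos A B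
  obtain ⟨N0, h0⟩ := Pool.Agent.H70.HY.rts (A × Bool) (B × Bool) (RgsT A B J I)
    (δ / (2 * (n2 A B : ℝ))) (η / 2) (by positivity) (by positivity)
  refine ⟨N0, ?_⟩
  intro n hn S V _ _ G hG
  obtain ⟨cls', al, h1, h2, h3, h4, h5⟩ := h0 n hn (rgs_SS S hδ) V G hG
  obtain ⟨col', k1, k2, k3⟩ := Pool.Agent.H70.HY.col (rgs_SS S hδ) G cls' al h2 h3 h4 h5
  refine ⟨fun v => rgs_p (cls' v), fun u v => rgs_kd S (rgs_p (cls' u)) (rgs_p (cls' v)) (al u v),
    fun u v => rgs_col S (al u v) (col' u v), ?_, ?_, ?_, ?_, ?_⟩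
  · intro v c
    have e1 : nb G v (fun u => rgs_p (cls' u) = c) =
        nb G v (fun u => cls' u = rgs_half c true) + nb G v (fun u => cls' u = rgs_half c false) := by
      unfold nb
      rw [← Set.ncard_union_eq]
      · congr 1
        ext u
        simp only [Set.mem_ofPred_eq, Set.mem_union, rgs_p_eq]
        tauto
      · rw [Set.disjoint_left]
        rintro u ⟨_, hu⟩ ⟨_, hu'⟩
        exact rgs_half_ne c (hu.symm.trans hu')
    have a1 := h1 v (rgs_half c true)
    have a2 := h1 v (rgs_half c false)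
    have m1 : (rgs_SS S hδ).M (rgs_half c true) = S.M c / 2 := by
      show S.M (rgs_p (rgs_half c true)) / 2 = _
      rw [rgs_p_half]
    have m2 : (rgs_SS S hδ).M (rgs_half c false) = S.M c / 2 := by
      show S.M (rgs_p (rgs_half c false)) / 2 = _
      rw [rgs_p_half]
    rw [m1, abs_le] at a1
    rw [m2, abs_le] at a2
    rw [e1, abs_le]
    push_cast
    constructor
    · linarith [a1.1, a2.1]
    · linarith [a1.2, a2.2]
  · intro u v huv
    constructor
    · simp only [rgs_kd, h2 u v]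
      by_cases ho : rgs_out S (rgs_p (cls' u)) (rgs_p (cls' v))
      · rw [if_pos ho, if_pos ((rgs_out_symm S _ _).1 ho)]
      · rw [if_neg ho, if_neg (fun h => ho ((rgs_out_symm S _ _).2 h))]
    · simp only [h2 u v, k1 u v huv]
  · intro u v huv
    apply rgs_ok
    intro ho
    exact h3 u v huv (rgs_H S hδ _ _ ho)
  · intro u v huv hk
    have ho : ¬ rgs_out S (rgs_p (cls' u)) (rgs_p (cls' v)) := by
      intro ho
      exact hk (if_pos ho)
    have hc := k2 u v huv (rgs_H S hδ _ _ ho)
    simp only [rgs_kd, if_neg ho]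
    rcases hal : al u v with _ | (θ | a)
    · rw [hal] at hc
      exact hc
    · rw [hal] at hc
      have hc' : col' u v < S.l θ.1 := hc
      show rgs_idx A B θ.2 * S.l θ.1 + col' u v < S.len θ.1
      rw [S.len_eq]
      have := rgs_idx_lt (A := A) (B := B) θ.2
      nlinarith
    · rw [hal] at hc
      exact hc
  · intro v u u' hu hu' hne hk hk'
    have ho : ¬ rgs_out S (rgs_p (cls' v)) (rgs_p (cls' u)) := by
      intro ho
      exact hk' (if_pos ho)
    have ho' : ¬ rgs_out S (rgs_p (cls' v)) (rgs_p (cls' u')) := by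
      intro ho'
      exact hk' (hk.trans (if_pos ho'))
    have hH := rgs_H S hδ _ _ ho
    have hH' := rgs_H S hδ _ _ ho'
    have hc := k2 v u hu hH
    have hc' := k2 v u' hu' hH'
    have k := k3 v u u' hu hu' hne hH hH'
    simp only [rgs_kd, if_neg ho, if_neg ho'] at hk
    rcases hal : al v u with _ | (θ | a) <;> rcases hal' : al v u' with _ | (θ' | a') <;>
      rw [hal, hal'] at hk k <;> simp only [rgs_kind, reduceCtorEq] at hk
    · intro h
      exact k rfl (by simpa [rgs_col, hal, hal'] using h)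
    · simp only [Kd.blk.injEq] at hk
      rw [hal] at hc
      rw [hal'] at hc'
      have hc1 : col' v u < S.l θ.1 := hc
      have hc2 : col' v u' < S.l θ'.1 := hc'
      rw [← hk] at hc2
      intro h
      have h6 : rgs_idx A B θ.2 * S.l θ.1 + col' v u = rgs_idx A B θ'.2 * S.l θ.1 + col' v u' := by
        have : rgs_idx A B θ.2 * S.l θ.1 + col' v u = rgs_idx A B θ'.2 * S.l θ'.1 + col' v u' := by
          simpa [rgs_col, hal, hal'] using h
        rwa [← hk] at this
      have h7 : rgs_idx A B θ.2 = rgs_idx A B θ'.2 := by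
        have d1 : (rgs_idx A B θ.2 * S.l θ.1 + col' v u) / S.l θ.1 = rgs_idx A B θ.2 := by
          rw [mul_comm, Nat.mul_add_div (by omega), Nat.div_eq_of_lt hc1, add_zero]
        have d2 : (rgs_idx A B θ'.2 * S.l θ.1 + col' v u') / S.l θ.1 = rgs_idx A B θ'.2 := by
          rw [mul_comm, Nat.mul_add_div (by omega), Nat.div_eq_of_lt hc2, add_zero]
        rw [← d1, ← d2, h6]
      have h8 : θ = θ' := Prod.ext hk (rgs_idx_inj _ _ h7)
      subst h8
      exact k rfl (by omega)
    · simp only [Kd.zone.injEq] at hk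
      subst hk
      intro h
      exact k rfl (by simpa [rgs_col, hal, hal'] using h)

end Pool.Agent.H28.HZ
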