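import Mathlib
import Pool.Agent.H28.Embed
import Pool.Agent.H28.HZ.MK
import Pool.Agent.H28.HZ.GEO
import Pool.Agent.H28.HZ.RGS
import Pool.Agent.H28.HZ.ASM2
import Pool.Agent.H28.HZ.PAR2
import Pool.Agent.H70.HY.Main

/-! REG2 and FINAL2. -/

set_option autoImplicit false

namespace Pool.Agent.H28.HZ

open Finset Pool.Agent.H70.HY

theorem n2_dvd (K R nL nLmax : ℕ) (h : nL ≤ nLmax) :
    n2 (AT K R) (BT nL) ∣ 2 ^ ((K - 1) * R + (nLmax + 4)) := by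
  have h1 : n2 (AT K R) (BT nL) = 2 ^ ((K - 1) * R + (nL + 4)) := by
    unfold n2
    rw [Fintype.card_fun, Fintype.card_bool]
    congr 1
    rw [Fintype.card_sum, Fintype.card_prod, Fintype.card_sum, Fintype.card_fin, Fintype.card_fin,
      Fintype.card_fin, Fintype.card_fin]
  rw [h1]
  exact pow_dvd_pow 2 (by omega)

/-- The theorem for regular graphs. -/
theorem regular2 :
    ∃ N0 : ℕ, ∀ n : ℕ, N0 ≤ n → ∀ p : ℕ, 0.498 * (n : ℝ) ≤ p → (p : ℝ) ≤ 0.9 * n →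
      ∀ (V : Type) [Fintype V] [DecidableEq V] (G : SimpleGraph V),
      (∀ v, (G.neighborSet v).ncard = n) → HYLab G n p := by
  classical
  obtain ⟨q, R, nLmax, δ, η, hδ, hη, hpar⟩ := par2
  obtain ⟨N1, hpar⟩ := hpar (2 ^ ((96 * q - 1) * R + (nLmax + 4))) Nat.one_le_two_pow
  have hr : ∀ nL : ℕ, _ := fun nL =>
    rgs (AT (96 * q) R) (BT nL) (JT (96 * q) (nL + q + 1)) (Fin (96 * q - 1)) δ η hδ hη
  choose N3 hrgs using hr
  refine ⟨N1 + ∑ nL ∈ range (nLmax + 1), N3 nL, ?_⟩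
  intro n hn p hp1 hp2 V _ _ G hG
  obtain ⟨nL, nC, P, w0, w1, w2, w3, hnL, hPn, hPp, hW, he, hOk, hgeo⟩ :=
    hpar n p (by omega) hp1 hp2
  have hN3 : N3 nL ≤ n := by
    have h1 : N3 nL ≤ ∑ nL ∈ range (nLmax + 1), N3 nL :=
      single_le_sum (f := fun nL => N3 nL) (fun _ _ => Nat.zero_le _) (mem_range.2 (by omega))
    omega
  obtain ⟨w, hw⟩ := (n2_dvd (96 * q) R nL nLmax hnL).trans hW
  obtain ⟨e', he'⟩ := (n2_dvd (96 * q) R nL nLmax hnL).trans he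
  have hnC := hOk.nC_eq
  subst hnC
  subst hPn
  subst hPp
  obtain ⟨geo⟩ := mkGeo P hOk w e' hw he' η hη.le w0 w1 w2 w3 hgeo
  obtain ⟨cls, kd, col, hreal⟩ := hrgs nL P.n hN3 (mkGS P hOk w e' hw he') V G hG
  exact asm2 (mkGS P hOk w e' hw he') geo G cls kd col hη.le hreal

/-- The Havet-Yu bound for `0.498 Δ ≤ p ≤ 0.9 Δ`. -/
theorem final2 :
    ∃ Δ₀ : ℕ, ∀ (V : Type) [Fintype V] (G : SimpleGraph V) [DecidableRel G.Adj] (p : ℕ),
      Δ₀ ≤ G.maxDegree → 0.498 * (G.maxDegree : ℝ) ≤ p → (p : ℝ) ≤ 0.9 * G.maxDegree →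
      HYLab G G.maxDegree p := by
  classical
  obtain ⟨N0, h⟩ := regular2
  refine ⟨N0, ?_⟩
  intro V _ G _ p hΔ hp1 hp2
  have hdeg : ∀ v, (G.neighborSet v).ncard ≤ G.maxDegree := by
    intro v
    have h1 : (G.neighborSet v).ncard = G.degree v := by
      rw [Set.ncard_eq_toFinset_card', SimpleGraph.degree, SimpleGraph.neighborFinset]
    rw [h1]
    exact G.degree_le_maxDegree v
  obtain ⟨W, _, _, H, φ, hφ, hφ2, hreg⟩ := H28.regular_embed V G G.maxDegree hdeg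
  exact HYLab.comap φ hφ hφ2 (h _ hΔ p hp1 hp2 W H hreg)

end Pool.Agent.H28.HZ
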