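import Mathlib
import Pool.Agent.H28.RegCase
import Pool.Agent.H28.Embed
import Pool.Agent.H70.HY.Defs

/-! The case `p ≥ (3/4 + ε) Δ`. -/

set_option autoImplicit false

namespace Pool.Agent.H28.HZ

open Pool.Agent.H28 Pool.Agent.H70.HY

theorem largeP (ε : ℝ) (hε : 0 < ε) :
    ∃ Δ₀ : ℕ, ∀ (V : Type) [Fintype V] (G : SimpleGraph V) [DecidableRel G.Adj] (p : ℕ),
      Δ₀ ≤ G.maxDegree → (3 / 4 + ε) * (G.maxDegree : ℝ) ≤ (p : ℝ) →
      HYLab G G.maxDegree p := by
  obtain ⟨m, hm⟩ : ∃ m : ℕ, m = max 5 ⌈1 / ε⌉₊ := ⟨_, rfl⟩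
  have hm5 : 5 ≤ m := by rw [hm]; exact le_max_left _ _
  have hmε : 1 / ε ≤ m := by
    refine (Nat.le_ceil _).trans ?_
    rw [hm]
    exact_mod_cast le_max_right _ _
  have hm0 : (0 : ℝ) < m := by
    have : (5 : ℝ) ≤ m := by exact_mod_cast hm5
    linarith
  obtain ⟨N0, hN0⟩ := regular_case m hm5
  refine ⟨N0, fun V _ G _ p hΔ hp => ?_⟩
  classical
  obtain ⟨n, hn⟩ : ∃ n, n = G.maxDegree := ⟨_, rfl⟩
  rw [← hn] at hΔ hp ⊢
  have hdeg : ∀ v, (G.neighborSet v).ncard ≤ n := by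
    intro v
    have h1 : (G.neighborSet v).ncard = G.degree v := by
      rw [← SimpleGraph.card_neighborFinset_eq_degree, ← Set.ncard_coe_finset]
      congr 1
      ext u
      simp
    rw [h1, hn]
    exact G.degree_le_maxDegree v
  rcases Nat.lt_or_ge n p with hnp | hnp
  · -- the case `p > Δ`
    obtain ⟨fV, hfV1, hfV2⟩ := greedy (fun u v : V => G.Adj u v) (fun u v h => h.symm) (n + 1)
      (fun v => Nat.lt_succ_of_le (hdeg v))
    obtain ⟨c, hc1, hc2⟩ : ECol G (n + 1) := vizing hdeg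
    refine ⟨fV, fun e => 2 * p - 1 + c e, ?_, ?_, ?_, ?_, ?_⟩
    · intro v
      have := hfV1 v
      omega
    · intro e he
      induction e with
      | _ u v =>
      have := hc1 u v ((SimpleGraph.mem_edgeSet G).1 he)
      show 2 * p - 1 + c s(u, v) ≤ n + 2 * p - 1
      omega
    · intro u v huv
      exact hfV2 u v huv.ne huv
    · intro u v huv
      have h6 := hfV1 u
      rw [le_abs]
      right
      show (p : ℤ) ≤ -((fV u : ℤ) - ((2 * p - 1 + c s(u, v) : ℕ) : ℤ))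
      omega
    · intro u v w huv huw hvw h
      have h6 : 2 * p - 1 + c s(u, v) = 2 * p - 1 + c s(u, w) := h
      exact hc2 u v w huv huw hvw (by omega)
  · -- the main case
    obtain ⟨W, iW1, iW2, H, φ, hφ1, hφ2, hH⟩ := regular_embed V G n hdeg
    have hp' : (3 * m + 4) * n ≤ 4 * m * p := by
      have h1 : ((3 * m + 4) * n : ℝ) ≤ 4 * m * p := by
        have h2 : (1 : ℝ) ≤ m * ε := by
          rw [div_le_iff₀ hε] at hmε
          exact hmε
        have h3 : (0 : ℝ) ≤ n := by positivity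
        have h4 : (4 * m : ℝ) * ((3 / 4 + ε) * n) ≤ 4 * m * p :=
          mul_le_mul_of_nonneg_left hp (by positivity)
        refine le_trans ?_ h4
        nlinarith
      exact_mod_cast h1
    obtain ⟨fV, fE, h1, h2, h3, h4, h5⟩ := hN0 n hΔ W H hH p (n - p) (by omega) hp'
    refine ⟨fun v => fV (φ v), fun e => fE (e.map φ), fun v => h1 _, ?_, ?_, ?_, ?_⟩
    · intro e he
      induction e with
      | _ u v =>
      exact h2 _ (hφ2 u v he)
    · intro u v huv
      exact h3 _ _ (hφ2 u v huv)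
    · intro u v huv
      exact h4 _ _ (hφ2 u v huv)
    · intro u v w huv huw hvw
      exact h5 _ _ _ (hφ2 u v huv) (hφ2 u w huw) (fun h => hvw (hφ1 h))

end Pool.Agent.H28.HZ
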