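import Mathlib
import Pool.Agent.H28.HZ.FINAL
import Pool.Agent.H28.HZ.LP

/-! The Havet-Yu bound for all `p ≥ ε Δ`. -/

set_option autoImplicit false

namespace Pool.Agent.H28.HZ

open Pool.Agent.H70.HY

theorem all (ε : ℝ) (hε : 0 < ε) :
    ∃ Δ₀ : ℕ, ∀ (V : Type) [Fintype V] (G : SimpleGraph V) [DecidableRel G.Adj] (p : ℕ),
      Δ₀ ≤ G.maxDegree → ε * (G.maxDegree : ℝ) ≤ p → HYLab G G.maxDegree p := by
  obtain ⟨N1, h1⟩ := final (min ε (1 / 1000)) (lt_min hε (by norm_num))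
  obtain ⟨N2, h2⟩ := final2
  obtain ⟨N3, h3⟩ := largeP (1 / 10) (by norm_num)
  refine ⟨max N1 (max N2 N3), ?_⟩
  intro V _ G _ p hΔ hp
  have hΔ1 : N1 ≤ G.maxDegree := (le_max_left _ _).trans hΔ
  have hΔ2 : N2 ≤ G.maxDegree := ((le_max_left _ _).trans (le_max_right _ _)).trans hΔ
  have hΔ3 : N3 ≤ G.maxDegree := ((le_max_right _ _).trans (le_max_right _ _)).trans hΔ
  have hD : (0 : ℝ) ≤ G.maxDegree := Nat.cast_nonneg _
  have hm1 : min ε (1 / 1000) ≤ ε := min_le_left _ _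
  have hm2 : min ε (1 / 1000) ≤ 1 / 1000 := min_le_right _ _
  rcases le_or_gt (p : ℝ) (0.498 * G.maxDegree) with hp1 | hp1
  · refine h1 V G p hΔ1 ((mul_le_mul_of_nonneg_right hm1 hD).trans hp) (hp1.trans ?_)
    refine mul_le_mul_of_nonneg_right ?_ hD
    linarith
  · rcases le_or_gt (p : ℝ) (0.9 * G.maxDegree) with hp2 | hp2
    · exact h2 V G p hΔ2 hp1.le hp2
    · refine h3 V G p hΔ3 ?_
      refine le_trans ?_ hp2.le
      refine mul_le_mul_of_nonneg_right ?_ hD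
      norm_num

end Pool.Agent.H28.HZ
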